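import Pool.Agent.Gen.F5.X1C2D13m6.S000
import Pool.Agent.Gen.F5.X1C2D13m6.S001
import Pool.Agent.Gen.F5.X1C2D13m6.S002

set_option autoImplicit false
set_option maxRecDepth 100000

namespace Pool.Agent.Gen.F5.X1C2D13m6

open Pool.Agent.Helper72.F5

def n0 : Cl (O (nat_lit 6)) (R (nat_lit 104577))
    (p (nat_lit 0xb0004) (nat_lit 0) (p (nat_lit 0x20000c) (nat_lit 1) (p (nat_lit 0xc9) (nat_lit 1) (p (nat_lit 0x109) (nat_lit 1) (p (nat_lit 0x101) (nat_lit 0) (p (nat_lit 0x119) (nat_lit 0) (p (nat_lit 0xd1) (nat_lit 0) (p (nat_lit 0x89) (nat_lit 0) (p (nat_lit 0x41) (nat_lit 0) (p (nat_lit 0x10a090b098a9a) (nat_lit 0) (p (nat_lit 0x89888a890a1a) (nat_lit 0) (p (nat_lit 0x109080a08879a) (nat_lit 0) (p (nat_lit 0x88878988071a) (nat_lit 0) (p (nat_lit 0x8000080000000080907888a) (nat_lit 0) (p (nat_lit 0x8000080000000078887060a) (nat_lit 0) (p (nat_lit 0x10608068782) (nat_lit 0) (p (nat_lit 0x8587860702)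 (nat_lit 0) (p (nat_lit 0x10507058482) (nat_lit 0) (p (nat_lit 0x8486850402) (nat_lit 0) (p (nat_lit 0x160004) (nat_lit 0) (p (nat_lit 0x50612) (nat_lit 0) (p (nat_lit 0x38592) (nat_lit 0) (p (nat_lit 0x40492) (nat_lit 0) (p (nat_lit 0x28412) (nat_lit 0) (p (nat_lit 0x30292) (nat_lit 0) (p (nat_lit 0x18212) (nat_lit 0) (p (nat_lit 0x20092) (nat_lit 0) (p (nat_lit 0x8012) (nat_lit 0) pn)))))))))))))))))))))))))))) :=
  Cl.node (nat_lit 0x200014) (nat_lit 2) (by decide +kernel) (ClAll.succ (ClAll.succ ClAll.zero s4) s5)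

def n1 : Cl (O (nat_lit 6)) (R (nat_lit 104577))
    (p (nat_lit 0x20000c) (nat_lit 0) (p (nat_lit 0x109) (nat_lit 1) (p (nat_lit 0x101) (nat_lit 0) (p (nat_lit 0x81) (nat_lit 1) (p (nat_lit 0xc1) (nat_lit 1) (p (nat_lit 0x119) (nat_lit 1) (p (nat_lit 0xd1) (nat_lit 0) (p (nat_lit 0x89) (nat_lit 0) (p (nat_lit 0x41) (nat_lit 0) (p (nat_lit 0x10a090b098a9a) (nat_lit 0) (p (nat_lit 0x89888a890a1a) (nat_lit 0) (p (nat_lit 0x109080a08879a) (nat_lit 0) (p (nat_lit 0x88878988071a) (nat_lit 0) (p (nat_lit 0x8000080000000080907888a) (nat_lit 0) (p (nat_lit 0x8000080000000078887060a) (nat_lit 0) (p (nat_lit 0x10608068782) (nat_lit 0) (p (nat_lit 0x8587860702) (nat_lit 0) (p (nat_lit 0x10507058482) (nat_lit 0) (p (nat_lit 0x8486850402) (nat_lit 0) (p (nat_lit 0x160004) (nat_lit 0) (p (nat_lit 0x50612) (nat_lit 0) (p (nat_lit 0x38592) (nat_lit 0) (p (nat_lit 0x40492) (nat_lit 0) (p (nat_lit 0x28412)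 (nat_lit 0) (p (nat_lit 0x30292) (nat_lit 0) (p (nat_lit 0x18212) (nat_lit 0) (p (nat_lit 0x20092) (nat_lit 0) (p (nat_lit 0x8012) (nat_lit 0) pn)))))))))))))))))))))))))))) :=
  Cl.node (nat_lit 0x200014) (nat_lit 2) (by decide +kernel) (ClAll.succ (ClAll.succ ClAll.zero s22) s23)

def n2 : Cl (O (nat_lit 6)) (R (nat_lit 104577))
    (p (nat_lit 0x20000c) (nat_lit 0) (p (nat_lit 0xc9) (nat_lit 1) (p (nat_lit 0x109) (nat_lit 1) (p (nat_lit 0x101) (nat_lit 0) (p (nat_lit 0x119) (nat_lit 0) (p (nat_lit 0xd1) (nat_lit 0) (p (nat_lit 0x89) (nat_lit 0) (p (nat_lit 0x41) (nat_lit 0) (p (nat_lit 0x10a090b098a9a) (nat_lit 0) (p (nat_lit 0x89888a890a1a) (nat_lit 0) (p (nat_lit 0x109080a08879a) (nat_lit 0) (p (nat_lit 0x88878988071a) (nat_lit 0) (p (nat_lit 0x8000080000000080907888a) (nat_lit 0) (p (nat_lit 0x8000080000000078887060a) (nat_lit 0) (p (nat_lit 0x10608068782) (nat_lit 0) (p (nat_lit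 0x8587860702) (nat_lit 0) (p (nat_lit 0x10507058482) (nat_lit 0) (p (nat_lit 0x8486850402) (nat_lit 0) (p (nat_lit 0x160004) (nat_lit 0) (p (nat_lit 0x50612) (nat_lit 0) (p (nat_lit 0x38592) (nat_lit 0) (p (nat_lit 0x40492) (nat_lit 0) (p (nat_lit 0x28412) (nat_lit 0) (p (nat_lit 0x30292) (nat_lit 0) (p (nat_lit 0x18212) (nat_lit 0) (p (nat_lit 0x20092) (nat_lit 0) (p (nat_lit 0x8012) (nat_lit 0) pn))))))))))))))))))))))))))) :=
  Cl.node (nat_lit 0x200014) (nat_lit 2) (by decide +kernel) (ClAll.succ (ClAll.succ ClAll.zero s2) s3)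

def n3 : Cl (O (nat_lit 6)) (R (nat_lit 104577))
    (p (nat_lit 0x20000c) (nat_lit 1) (p (nat_lit 0xc9) (nat_lit 1) (p (nat_lit 0x109) (nat_lit 1) (p (nat_lit 0x101) (nat_lit 0) (p (nat_lit 0x119) (nat_lit 0) (p (nat_lit 0xd1) (nat_lit 0) (p (nat_lit 0x89) (nat_lit 0) (p (nat_lit 0x41) (nat_lit 0) (p (nat_lit 0x10a090b098a9a) (nat_lit 0) (p (nat_lit 0x89888a890a1a) (nat_lit 0) (p (nat_lit 0x109080a08879a) (nat_lit 0) (p (nat_lit 0x88878988071a) (nat_lit 0) (p (nat_lit 0x8000080000000080907888a) (nat_lit 0) (p (nat_lit 0x8000080000000078887060a) (nat_lit 0) (p (nat_lit 0x10608068782) (nat_lit 0) (p (nat_lit 0x8587860702) (nat_lit 0) (p (nat_lit 0x10507058482) (nat_lit 0) (p (nat_lit 0x8486850402) (nat_lit 0) (p (nat_lit 0x160004) (nat_lit 0) (p (nat_lit 0x50612) (nat_lit 0) (p (nat_lit 0x38592) (nat_lit 0) (p (nat_lit 0x40492) (nat_lit 0) (p (nat_lit 0x28412) (nat_lit 0) (p (nat_lit 0x30292)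 (nat_lit 0) (p (nat_lit 0x18212) (nat_lit 0) (p (nat_lit 0x20092) (nat_lit 0) (p (nat_lit 0x8012) (nat_lit 0) pn))))))))))))))))))))))))))) :=
  Cl.node (nat_lit 0xb0004) (nat_lit 2) (by decide +kernel) (ClAll.succ (ClAll.succ ClAll.zero n0) s6)

def n4 : Cl (O (nat_lit 6)) (R (nat_lit 104577))
    (p (nat_lit 0x109) (nat_lit 0) (p (nat_lit 0x101) (nat_lit 0) (p (nat_lit 0x81) (nat_lit 1) (p (nat_lit 0xc1) (nat_lit 1) (p (nat_lit 0x119) (nat_lit 1) (p (nat_lit 0xd1) (nat_lit 0) (p (nat_lit 0x89) (nat_lit 0) (p (nat_lit 0x41) (nat_lit 0) (p (nat_lit 0x10a090b098a9a) (nat_lit 0) (p (nat_lit 0x89888a890a1a) (nat_lit 0) (p (nat_lit 0x109080a08879a) (nat_lit 0) (p (nat_lit 0x88878988071a) (nat_lit 0) (p (nat_lit 0x8000080000000080907888a) (nat_lit 0) (p (nat_lit 0x8000080000000078887060a) (nat_lit 0) (p (nat_lit 0x10608068782) (nat_lit 0) (p (nat_lit 0x8587860702) (nat_lit 0) (p (nat_lit 0x10507058482)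 (nat_lit 0) (p (nat_lit 0x8486850402) (nat_lit 0) (p (nat_lit 0x160004) (nat_lit 0) (p (nat_lit 0x50612) (nat_lit 0) (p (nat_lit 0x38592) (nat_lit 0) (p (nat_lit 0x40492) (nat_lit 0) (p (nat_lit 0x28412) (nat_lit 0) (p (nat_lit 0x30292) (nat_lit 0) (p (nat_lit 0x18212) (nat_lit 0) (p (nat_lit 0x20092) (nat_lit 0) (p (nat_lit 0x8012) (nat_lit 0) pn))))))))))))))))))))))))))) :=
  Cl.node (nat_lit 0x20000c) (nat_lit 2) (by decide +kernel) (ClAll.succ (ClAll.succ ClAll.zero s20) s21)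

def n5 : Cl (O (nat_lit 6)) (R (nat_lit 104577))
    (p (nat_lit 0x109) (nat_lit 1) (p (nat_lit 0x101) (nat_lit 0) (p (nat_lit 0x81) (nat_lit 1) (p (nat_lit 0xc1) (nat_lit 1) (p (nat_lit 0x119) (nat_lit 1) (p (nat_lit 0xd1) (nat_lit 0) (p (nat_lit 0x89) (nat_lit 0) (p (nat_lit 0x41) (nat_lit 0) (p (nat_lit 0x10a090b098a9a) (nat_lit 0) (p (nat_lit 0x89888a890a1a) (nat_lit 0) (p (nat_lit 0x109080a08879a) (nat_lit 0) (p (nat_lit 0x88878988071a) (nat_lit 0) (p (nat_lit 0x8000080000000080907888a) (nat_lit 0) (p (nat_lit 0x8000080000000078887060a) (nat_lit 0) (p (nat_lit 0x10608068782) (nat_lit 0) (p (nat_lit 0x8587860702) (nat_lit 0) (p (nat_lit 0x10507058482) (nat_lit 0) (p (nat_lit 0x8486850402) (nat_lit 0) (p (nat_lit 0x160004) (nat_lit 0) (p (nat_lit 0x50612) (nat_lit 0) (p (nat_lit 0x38592) (nat_lit 0) (p (nat_lit 0x40492) (nat_lit 0) (p (nat_lit 0x28412) (nat_lit 0) (p (nat_lit 0x30292)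 (nat_lit 0) (p (nat_lit 0x18212) (nat_lit 0) (p (nat_lit 0x20092) (nat_lit 0) (p (nat_lit 0x8012) (nat_lit 0) pn))))))))))))))))))))))))))) :=
  Cl.node (nat_lit 0x20000c) (nat_lit 2) (by decide +kernel) (ClAll.succ (ClAll.succ ClAll.zero n1) s24)

def n6 : Cl (O (nat_lit 6)) (R (nat_lit 104577))
    (p (nat_lit 0xb0004) (nat_lit 0) (p (nat_lit 0x20000c) (nat_lit 1) (p (nat_lit 0x109) (nat_lit 1) (p (nat_lit 0x101) (nat_lit 0) (p (nat_lit 0x111) (nat_lit 0) (p (nat_lit 0xd1) (nat_lit 1) (p (nat_lit 0x89) (nat_lit 0) (p (nat_lit 0x41) (nat_lit 0) (p (nat_lit 0x10a090b098a9a) (nat_lit 0) (p (nat_lit 0x89888a890a1a) (nat_lit 0) (p (nat_lit 0x109080a08879a) (nat_lit 0) (p (nat_lit 0x88878988071a) (nat_lit 0) (p (nat_lit 0x8000080000000080907888a) (nat_lit 0) (p (nat_lit 0x8000080000000078887060a) (nat_lit 0) (p (nat_lit 0x10608068782) (nat_lit 0) (p (nat_lit 0x8587860702) (nat_lit 0) (p (nat_lit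 0x10507058482) (nat_lit 0) (p (nat_lit 0x8486850402) (nat_lit 0) (p (nat_lit 0x160004) (nat_lit 0) (p (nat_lit 0x50612) (nat_lit 0) (p (nat_lit 0x38592) (nat_lit 0) (p (nat_lit 0x40492) (nat_lit 0) (p (nat_lit 0x28412) (nat_lit 0) (p (nat_lit 0x30292) (nat_lit 0) (p (nat_lit 0x18212) (nat_lit 0) (p (nat_lit 0x20092) (nat_lit 0) (p (nat_lit 0x8012) (nat_lit 0) pn))))))))))))))))))))))))))) :=
  Cl.node (nat_lit 0x200014) (nat_lit 2) (by decide +kernel) (ClAll.succ (ClAll.succ ClAll.zero s28) s29)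

def n7 : Cl (O (nat_lit 6)) (R (nat_lit 104577))
    (p (nat_lit 0xd1) (nat_lit 1) (p (nat_lit 0x111) (nat_lit 1) (p (nat_lit 0x109) (nat_lit 0) (p (nat_lit 0x101) (nat_lit 0) (p (nat_lit 0x119) (nat_lit 0) (p (nat_lit 0xc9) (nat_lit 0) (p (nat_lit 0x89) (nat_lit 1) (p (nat_lit 0x41) (nat_lit 0) (p (nat_lit 0x10a090b098a9a) (nat_lit 0) (p (nat_lit 0x89888a890a1a) (nat_lit 0) (p (nat_lit 0x109080a08879a) (nat_lit 0) (p (nat_lit 0x88878988071a) (nat_lit 0) (p (nat_lit 0x8000080000000080907888a) (nat_lit 0) (p (nat_lit 0x8000080000000078887060a) (nat_lit 0) (p (nat_lit 0x10608068782) (nat_lit 0) (p (nat_lit 0x8587860702) (nat_lit 0) (p (nat_lit 0x10507058482) (nat_lit 0) (p (nat_lit 0x8486850402) (nat_lit 0) (p (nat_lit 0x160004) (nat_lit 0) (p (nat_lit 0x50612) (nat_lit 0) (p (nat_lit 0x38592) (nat_lit 0) (p (nat_lit 0x40492) (nat_lit 0) (p (nat_lit 0x28412) (nat_lit 0) (p (nat_lit 0x30292)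 (nat_lit 0) (p (nat_lit 0x18212) (nat_lit 0) (p (nat_lit 0x20092) (nat_lit 0) (p (nat_lit 0x8012) (nat_lit 0) pn))))))))))))))))))))))))))) :=
  Cl.node (nat_lit 0x20000c) (nat_lit 2) (by decide +kernel) (ClAll.succ (ClAll.succ ClAll.zero s40) s41)

def n8 : Cl (O (nat_lit 6)) (R (nat_lit 104577))
    (p (nat_lit 0x20000c) (nat_lit 0) (p (nat_lit 0xd1) (nat_lit 0) (p (nat_lit 0x109) (nat_lit 1) (p (nat_lit 0x101) (nat_lit 0) (p (nat_lit 0x119) (nat_lit 0) (p (nat_lit 0xc9) (nat_lit 0) (p (nat_lit 0x89) (nat_lit 1) (p (nat_lit 0x41) (nat_lit 0) (p (nat_lit 0x10a090b098a9a) (nat_lit 0) (p (nat_lit 0x89888a890a1a) (nat_lit 0) (p (nat_lit 0x109080a08879a) (nat_lit 0) (p (nat_lit 0x88878988071a) (nat_lit 0) (p (nat_lit 0x8000080000000080907888a) (nat_lit 0) (p (nat_lit 0x8000080000000078887060a) (nat_lit 0) (p (nat_lit 0x10608068782) (nat_lit 0) (p (nat_lit 0x8587860702) (nat_lit 0) (p (nat_lit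 0x10507058482) (nat_lit 0) (p (nat_lit 0x8486850402) (nat_lit 0) (p (nat_lit 0x160004) (nat_lit 0) (p (nat_lit 0x50612) (nat_lit 0) (p (nat_lit 0x38592) (nat_lit 0) (p (nat_lit 0x40492) (nat_lit 0) (p (nat_lit 0x28412) (nat_lit 0) (p (nat_lit 0x30292) (nat_lit 0) (p (nat_lit 0x18212) (nat_lit 0) (p (nat_lit 0x20092) (nat_lit 0) (p (nat_lit 0x8012) (nat_lit 0) pn))))))))))))))))))))))))))) :=
  Cl.node (nat_lit 0x200014) (nat_lit 2) (by decide +kernel) (ClAll.succ (ClAll.succ ClAll.zero s42) s43)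

def n9 : Cl (O (nat_lit 6)) (R (nat_lit 104577))
    (p (nat_lit 0x20000c) (nat_lit 0) (p (nat_lit 0xd1) (nat_lit 1) (p (nat_lit 0x109) (nat_lit 1) (p (nat_lit 0x101) (nat_lit 0) (p (nat_lit 0x119) (nat_lit 0) (p (nat_lit 0xc9) (nat_lit 0) (p (nat_lit 0x89) (nat_lit 1) (p (nat_lit 0x41) (nat_lit 0) (p (nat_lit 0x10a090b098a9a) (nat_lit 0) (p (nat_lit 0x89888a890a1a) (nat_lit 0) (p (nat_lit 0x109080a08879a) (nat_lit 0) (p (nat_lit 0x88878988071a) (nat_lit 0) (p (nat_lit 0x8000080000000080907888a) (nat_lit 0) (p (nat_lit 0x8000080000000078887060a) (nat_lit 0) (p (nat_lit 0x10608068782) (nat_lit 0) (p (nat_lit 0x8587860702) (nat_lit 0) (p (nat_lit 0x10507058482) (nat_lit 0) (p (nat_lit 0x8486850402) (nat_lit 0) (p (nat_lit 0x160004) (nat_lit 0) (p (nat_lit 0x50612) (nat_lit 0) (p (nat_lit 0x38592) (nat_lit 0) (p (nat_lit 0x40492) (nat_lit 0) (p (nat_lit 0x28412) (nat_lit 0) (p (nat_lit 0x30292)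 (nat_lit 0) (p (nat_lit 0x18212) (nat_lit 0) (p (nat_lit 0x20092) (nat_lit 0) (p (nat_lit 0x8012) (nat_lit 0) pn))))))))))))))))))))))))))) :=
  Cl.node (nat_lit 0x200014) (nat_lit 2) (by decide +kernel) (ClAll.succ (ClAll.succ ClAll.zero s45) s46)

def n10 : Cl (O (nat_lit 6)) (R (nat_lit 104577))
    (p (nat_lit 0x20000c) (nat_lit 0) (p (nat_lit 0xd1) (nat_lit 0) (p (nat_lit 0xc1) (nat_lit 0) (p (nat_lit 0x101) (nat_lit 1) (p (nat_lit 0x119) (nat_lit 0) (p (nat_lit 0xc9) (nat_lit 0) (p (nat_lit 0x89) (nat_lit 1) (p (nat_lit 0x41) (nat_lit 0) (p (nat_lit 0x10a090b098a9a) (nat_lit 0) (p (nat_lit 0x89888a890a1a) (nat_lit 0) (p (nat_lit 0x109080a08879a) (nat_lit 0) (p (nat_lit 0x88878988071a) (nat_lit 0) (p (nat_lit 0x8000080000000080907888a) (nat_lit 0) (p (nat_lit 0x8000080000000078887060a) (nat_lit 0) (p (nat_lit 0x10608068782) (nat_lit 0) (p (nat_lit 0x8587860702) (nat_lit 0) (p (nat_lit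 0x10507058482) (nat_lit 0) (p (nat_lit 0x8486850402) (nat_lit 0) (p (nat_lit 0x160004) (nat_lit 0) (p (nat_lit 0x50612) (nat_lit 0) (p (nat_lit 0x38592) (nat_lit 0) (p (nat_lit 0x40492) (nat_lit 0) (p (nat_lit 0x28412) (nat_lit 0) (p (nat_lit 0x30292) (nat_lit 0) (p (nat_lit 0x18212) (nat_lit 0) (p (nat_lit 0x20092) (nat_lit 0) (p (nat_lit 0x8012) (nat_lit 0) pn))))))))))))))))))))))))))) :=
  Cl.node (nat_lit 0x200014) (nat_lit 2) (by decide +kernel) (ClAll.succ (ClAll.succ ClAll.zero s48) s49)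

def n11 : Cl (O (nat_lit 6)) (R (nat_lit 104577))
    (p (nat_lit 0x20000c) (nat_lit 0) (p (nat_lit 0x111) (nat_lit 1) (p (nat_lit 0x101) (nat_lit 0) (p (nat_lit 0xc1) (nat_lit 1) (p (nat_lit 0x119) (nat_lit 1) (p (nat_lit 0xc9) (nat_lit 0) (p (nat_lit 0x89) (nat_lit 1) (p (nat_lit 0x41) (nat_lit 0) (p (nat_lit 0x10a090b098a9a) (nat_lit 0) (p (nat_lit 0x89888a890a1a) (nat_lit 0) (p (nat_lit 0x109080a08879a) (nat_lit 0) (p (nat_lit 0x88878988071a) (nat_lit 0) (p (nat_lit 0x8000080000000080907888a) (nat_lit 0) (p (nat_lit 0x8000080000000078887060a) (nat_lit 0) (p (nat_lit 0x10608068782) (nat_lit 0) (p (nat_lit 0x8587860702) (nat_lit 0) (p (nat_lit 0x10507058482) (nat_lit 0) (p (nat_lit 0x8486850402) (nat_lit 0) (p (nat_lit 0x160004) (nat_lit 0) (p (nat_lit 0x50612) (nat_lit 0) (p (nat_lit 0x38592) (nat_lit 0) (p (nat_lit 0x40492) (nat_lit 0) (p (nat_lit 0x28412) (nat_lit 0) (p (nat_lit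 0x30292) (nat_lit 0) (p (nat_lit 0x18212) (nat_lit 0) (p (nat_lit 0x20092) (nat_lit 0) (p (nat_lit 0x8012) (nat_lit 0) pn))))))))))))))))))))))))))) :=
  Cl.node (nat_lit 0x200014) (nat_lit 2) (by decide +kernel) (ClAll.succ (ClAll.succ ClAll.zero s58) s59)

def n12 : Cl (O (nat_lit 6)) (R (nat_lit 104577))
    (p (nat_lit 0x109) (nat_lit 0) (p (nat_lit 0x89) (nat_lit 1) (p (nat_lit 0x101) (nat_lit 0) (p (nat_lit 0xc1) (nat_lit 1) (p (nat_lit 0x119) (nat_lit 1) (p (nat_lit 0xd1) (nat_lit 0) (p (nat_lit 0x81) (nat_lit 0) (p (nat_lit 0x41) (nat_lit 1) (p (nat_lit 0x10a090b098a9a) (nat_lit 0) (p (nat_lit 0x89888a890a1a) (nat_lit 0) (p (nat_lit 0x109080a08879a) (nat_lit 0) (p (nat_lit 0x88878988071a) (nat_lit 0) (p (nat_lit 0x8000080000000080907888a) (nat_lit 0) (p (nat_lit 0x8000080000000078887060a) (nat_lit 0) (p (nat_lit 0x10608068782) (nat_lit 0) (p (nat_lit 0x8587860702) (nat_lit 0) (p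 (nat_lit 0x10507058482) (nat_lit 0) (p (nat_lit 0x8486850402) (nat_lit 0) (p (nat_lit 0x160004) (nat_lit 0) (p (nat_lit 0x50612) (nat_lit 0) (p (nat_lit 0x38592) (nat_lit 0) (p (nat_lit 0x40492) (nat_lit 0) (p (nat_lit 0x28412) (nat_lit 0) (p (nat_lit 0x30292) (nat_lit 0) (p (nat_lit 0x18212) (nat_lit 0) (p (nat_lit 0x20092) (nat_lit 0) (p (nat_lit 0x8012) (nat_lit 0) pn))))))))))))))))))))))))))) :=
  Cl.node (nat_lit 0x20000c) (nat_lit 2) (by decide +kernel) (ClAll.succ (ClAll.succ ClAll.zero s80) s81)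

def n13 : Cl (O (nat_lit 6)) (R (nat_lit 104577))
    (p (nat_lit 0xc9) (nat_lit 0) (p (nat_lit 0x89) (nat_lit 1) (p (nat_lit 0x109) (nat_lit 1) (p (nat_lit 0x101) (nat_lit 0) (p (nat_lit 0x111) (nat_lit 0) (p (nat_lit 0xd1) (nat_lit 1) (p (nat_lit 0x81) (nat_lit 0) (p (nat_lit 0x41) (nat_lit 1) (p (nat_lit 0x10a090b098a9a) (nat_lit 0) (p (nat_lit 0x89888a890a1a) (nat_lit 0) (p (nat_lit 0x109080a08879a) (nat_lit 0) (p (nat_lit 0x88878988071a) (nat_lit 0) (p (nat_lit 0x8000080000000080907888a) (nat_lit 0) (p (nat_lit 0x8000080000000078887060a) (nat_lit 0) (p (nat_lit 0x10608068782) (nat_lit 0) (p (nat_lit 0x8587860702) (nat_lit 0) (p (nat_lit 0x10507058482) (nat_lit 0) (p (nat_lit 0x8486850402) (nat_lit 0) (p (nat_lit 0x160004) (nat_lit 0) (p (nat_lit 0x50612) (nat_lit 0) (p (nat_lit 0x38592) (nat_lit 0) (p (nat_lit 0x40492) (nat_lit 0) (p (nat_lit 0x28412) (nat_lit 0) (p (nat_lit 0x30292)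 (nat_lit 0) (p (nat_lit 0x18212) (nat_lit 0) (p (nat_lit 0x20092) (nat_lit 0) (p (nat_lit 0x8012) (nat_lit 0) pn))))))))))))))))))))))))))) :=
  Cl.node (nat_lit 0x20000c) (nat_lit 2) (by decide +kernel) (ClAll.succ (ClAll.succ ClAll.zero s87) s88)

def n14 : Cl (O (nat_lit 6)) (R (nat_lit 104577))
    (p (nat_lit 0xd1) (nat_lit 1) (p (nat_lit 0x111) (nat_lit 1) (p (nat_lit 0x109) (nat_lit 0) (p (nat_lit 0x101) (nat_lit 0) (p (nat_lit 0x119) (nat_lit 0) (p (nat_lit 0xc1) (nat_lit 0) (p (nat_lit 0x81) (nat_lit 1) (p (nat_lit 0x41) (nat_lit 1) (p (nat_lit 0x10a090b098a9a) (nat_lit 0) (p (nat_lit 0x89888a890a1a) (nat_lit 0) (p (nat_lit 0x109080a08879a) (nat_lit 0) (p (nat_lit 0x88878988071a) (nat_lit 0) (p (nat_lit 0x8000080000000080907888a) (nat_lit 0) (p (nat_lit 0x8000080000000078887060a) (nat_lit 0) (p (nat_lit 0x10608068782) (nat_lit 0) (p (nat_lit 0x8587860702) (nat_lit 0) (p (nat_lit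 0x10507058482) (nat_lit 0) (p (nat_lit 0x8486850402) (nat_lit 0) (p (nat_lit 0x160004) (nat_lit 0) (p (nat_lit 0x50612) (nat_lit 0) (p (nat_lit 0x38592) (nat_lit 0) (p (nat_lit 0x40492) (nat_lit 0) (p (nat_lit 0x28412) (nat_lit 0) (p (nat_lit 0x30292) (nat_lit 0) (p (nat_lit 0x18212) (nat_lit 0) (p (nat_lit 0x20092) (nat_lit 0) (p (nat_lit 0x8012) (nat_lit 0) pn))))))))))))))))))))))))))) :=
  Cl.node (nat_lit 0x20000c) (nat_lit 2) (by decide +kernel) (ClAll.succ (ClAll.succ ClAll.zero s98) s99)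

def n15 : Cl (O (nat_lit 6)) (R (nat_lit 104577))
    (p (nat_lit 0x20000c) (nat_lit 0) (p (nat_lit 0xd1) (nat_lit 1) (p (nat_lit 0xc9) (nat_lit 0) (p (nat_lit 0x101) (nat_lit 1) (p (nat_lit 0x119) (nat_lit 0) (p (nat_lit 0xc1) (nat_lit 0) (p (nat_lit 0x81) (nat_lit 1) (p (nat_lit 0x41) (nat_lit 1) (p (nat_lit 0x10a090b098a9a) (nat_lit 0) (p (nat_lit 0x89888a890a1a) (nat_lit 0) (p (nat_lit 0x109080a08879a) (nat_lit 0) (p (nat_lit 0x88878988071a) (nat_lit 0) (p (nat_lit 0x8000080000000080907888a) (nat_lit 0) (p (nat_lit 0x8000080000000078887060a) (nat_lit 0) (p (nat_lit 0x10608068782) (nat_lit 0) (p (nat_lit 0x8587860702) (nat_lit 0) (p (nat_lit 0x10507058482) (nat_lit 0) (p (nat_lit 0x8486850402) (nat_lit 0) (p (nat_lit 0x160004) (nat_lit 0) (p (nat_lit 0x50612) (nat_lit 0) (p (nat_lit 0x38592) (nat_lit 0) (p (nat_lit 0x40492) (nat_lit 0) (p (nat_lit 0x28412) (nat_lit 0) (p (nat_lit 0x30292)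 (nat_lit 0) (p (nat_lit 0x18212) (nat_lit 0) (p (nat_lit 0x20092) (nat_lit 0) (p (nat_lit 0x8012) (nat_lit 0) pn))))))))))))))))))))))))))) :=
  Cl.node (nat_lit 0x200014) (nat_lit 2) (by decide +kernel) (ClAll.succ (ClAll.succ ClAll.zero s104) s105)

def n16 : Cl (O (nat_lit 6)) (R (nat_lit 104577))
    (p (nat_lit 0xc9) (nat_lit 1) (p (nat_lit 0x109) (nat_lit 1) (p (nat_lit 0x101) (nat_lit 0) (p (nat_lit 0x119) (nat_lit 0) (p (nat_lit 0xd1) (nat_lit 0) (p (nat_lit 0x89) (nat_lit 0) (p (nat_lit 0x41) (nat_lit 0) (p (nat_lit 0x10a090b098a9a) (nat_lit 0) (p (nat_lit 0x89888a890a1a) (nat_lit 0) (p (nat_lit 0x109080a08879a) (nat_lit 0) (p (nat_lit 0x88878988071a) (nat_lit 0) (p (nat_lit 0x8000080000000080907888a) (nat_lit 0) (p (nat_lit 0x8000080000000078887060a) (nat_lit 0) (p (nat_lit 0x10608068782) (nat_lit 0) (p (nat_lit 0x8587860702) (nat_lit 0) (p (nat_lit 0x10507058482) (nat_lit 0)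 (p (nat_lit 0x8486850402) (nat_lit 0) (p (nat_lit 0x160004) (nat_lit 0) (p (nat_lit 0x50612) (nat_lit 0) (p (nat_lit 0x38592) (nat_lit 0) (p (nat_lit 0x40492) (nat_lit 0) (p (nat_lit 0x28412) (nat_lit 0) (p (nat_lit 0x30292) (nat_lit 0) (p (nat_lit 0x18212) (nat_lit 0) (p (nat_lit 0x20092) (nat_lit 0) (p (nat_lit 0x8012) (nat_lit 0) pn)))))))))))))))))))))))))) :=
  Cl.node (nat_lit 0x20000c) (nat_lit 2) (by decide +kernel) (ClAll.succ (ClAll.succ ClAll.zero n2) n3)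

def n17 : Cl (O (nat_lit 6)) (R (nat_lit 104577))
    (p (nat_lit 0xc9) (nat_lit 0) (p (nat_lit 0x81) (nat_lit 0) (p (nat_lit 0x101) (nat_lit 1) (p (nat_lit 0x119) (nat_lit 0) (p (nat_lit 0xd1) (nat_lit 0) (p (nat_lit 0x89) (nat_lit 0) (p (nat_lit 0x41) (nat_lit 0) (p (nat_lit 0x10a090b098a9a) (nat_lit 0) (p (nat_lit 0x89888a890a1a) (nat_lit 0) (p (nat_lit 0x109080a08879a) (nat_lit 0) (p (nat_lit 0x88878988071a) (nat_lit 0) (p (nat_lit 0x8000080000000080907888a) (nat_lit 0) (p (nat_lit 0x8000080000000078887060a) (nat_lit 0) (p (nat_lit 0x10608068782) (nat_lit 0) (p (nat_lit 0x8587860702) (nat_lit 0) (p (nat_lit 0x10507058482) (nat_lit 0) (p (nat_lit 0x8486850402) (nat_lit 0) (p (nat_lit 0x160004) (nat_lit 0) (p (nat_lit 0x50612) (nat_lit 0) (p (nat_lit 0x38592) (nat_lit 0) (p (nat_lit 0x40492) (nat_lit 0) (p (nat_lit 0x28412) (nat_lit 0) (p (nat_lit 0x30292) (nat_lit 0) (p (nat_lit 0x18212)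 (nat_lit 0) (p (nat_lit 0x20092) (nat_lit 0) (p (nat_lit 0x8012) (nat_lit 0) pn)))))))))))))))))))))))))) :=
  Cl.node (nat_lit 0x20000c) (nat_lit 2) (by decide +kernel) (ClAll.succ (ClAll.succ ClAll.zero s7) s8)

def n18 : Cl (O (nat_lit 6)) (R (nat_lit 104577))
    (p (nat_lit 0xc9) (nat_lit 1) (p (nat_lit 0x81) (nat_lit 0) (p (nat_lit 0x101) (nat_lit 1) (p (nat_lit 0x119) (nat_lit 0) (p (nat_lit 0xd1) (nat_lit 0) (p (nat_lit 0x89) (nat_lit 0) (p (nat_lit 0x41) (nat_lit 0) (p (nat_lit 0x10a090b098a9a) (nat_lit 0) (p (nat_lit 0x89888a890a1a) (nat_lit 0) (p (nat_lit 0x109080a08879a) (nat_lit 0) (p (nat_lit 0x88878988071a) (nat_lit 0) (p (nat_lit 0x8000080000000080907888a) (nat_lit 0) (p (nat_lit 0x8000080000000078887060a) (nat_lit 0) (p (nat_lit 0x10608068782) (nat_lit 0) (p (nat_lit 0x8587860702) (nat_lit 0) (p (nat_lit 0x10507058482) (nat_lit 0) (p (nat_lit 0x8486850402) (nat_lit 0)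 (p (nat_lit 0x160004) (nat_lit 0) (p (nat_lit 0x50612) (nat_lit 0) (p (nat_lit 0x38592) (nat_lit 0) (p (nat_lit 0x40492) (nat_lit 0) (p (nat_lit 0x28412) (nat_lit 0) (p (nat_lit 0x30292) (nat_lit 0) (p (nat_lit 0x18212) (nat_lit 0) (p (nat_lit 0x20092) (nat_lit 0) (p (nat_lit 0x8012) (nat_lit 0) pn)))))))))))))))))))))))))) :=
  Cl.node (nat_lit 0x20000c) (nat_lit 2) (by decide +kernel) (ClAll.succ (ClAll.succ ClAll.zero s9) s10)

def n19 : Cl (O (nat_lit 6)) (R (nat_lit 104577))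
    (p (nat_lit 0xc1) (nat_lit 0) (p (nat_lit 0x81) (nat_lit 1) (p (nat_lit 0x101) (nat_lit 1) (p (nat_lit 0x119) (nat_lit 0) (p (nat_lit 0xd1) (nat_lit 0) (p (nat_lit 0x89) (nat_lit 0) (p (nat_lit 0x41) (nat_lit 0) (p (nat_lit 0x10a090b098a9a) (nat_lit 0) (p (nat_lit 0x89888a890a1a) (nat_lit 0) (p (nat_lit 0x109080a08879a) (nat_lit 0) (p (nat_lit 0x88878988071a) (nat_lit 0) (p (nat_lit 0x8000080000000080907888a) (nat_lit 0) (p (nat_lit 0x8000080000000078887060a) (nat_lit 0) (p (nat_lit 0x10608068782) (nat_lit 0) (p (nat_lit 0x8587860702) (nat_lit 0) (p (nat_lit 0x10507058482) (nat_lit 0) (p (nat_lit 0x8486850402) (nat_lit 0) (p (nat_lit 0x160004) (nat_lit 0) (p (nat_lit 0x50612) (nat_lit 0) (p (nat_lit 0x38592) (nat_lit 0) (p (nat_lit 0x40492) (nat_lit 0) (p (nat_lit 0x28412) (nat_lit 0) (p (nat_lit 0x30292) (nat_lit 0) (p (nat_lit 0x18212) (nat_lit 0) (p (nat_lit 0x20092) (nat_lit 0)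 (p (nat_lit 0x8012) (nat_lit 0) pn)))))))))))))))))))))))))) :=
  Cl.node (nat_lit 0xc9) (nat_lit 2) (by decide +kernel) (ClAll.succ (ClAll.succ ClAll.zero s11) s12)

def n20 : Cl (O (nat_lit 6)) (R (nat_lit 104577))
    (p (nat_lit 0x109) (nat_lit 1) (p (nat_lit 0xc9) (nat_lit 1) (p (nat_lit 0xc1) (nat_lit 0) (p (nat_lit 0x119) (nat_lit 1) (p (nat_lit 0xd1) (nat_lit 0) (p (nat_lit 0x89) (nat_lit 0) (p (nat_lit 0x41) (nat_lit 0) (p (nat_lit 0x10a090b098a9a) (nat_lit 0) (p (nat_lit 0x89888a890a1a) (nat_lit 0) (p (nat_lit 0x109080a08879a) (nat_lit 0) (p (nat_lit 0x88878988071a) (nat_lit 0) (p (nat_lit 0x8000080000000080907888a) (nat_lit 0) (p (nat_lit 0x8000080000000078887060a) (nat_lit 0) (p (nat_lit 0x10608068782) (nat_lit 0) (p (nat_lit 0x8587860702) (nat_lit 0) (p (nat_lit 0x10507058482) (nat_lit 0) (p (nat_lit 0x8486850402) (nat_lit 0) (p (nat_lit 0x160004) (nat_lit 0) (p (nat_lit 0x50612)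 (nat_lit 0) (p (nat_lit 0x38592) (nat_lit 0) (p (nat_lit 0x40492) (nat_lit 0) (p (nat_lit 0x28412) (nat_lit 0) (p (nat_lit 0x30292) (nat_lit 0) (p (nat_lit 0x18212) (nat_lit 0) (p (nat_lit 0x20092) (nat_lit 0) (p (nat_lit 0x8012) (nat_lit 0) pn)))))))))))))))))))))))))) :=
  Cl.node (nat_lit 0x20000c) (nat_lit 2) (by decide +kernel) (ClAll.succ (ClAll.succ ClAll.zero s16) s17)

def n21 : Cl (O (nat_lit 6)) (R (nat_lit 104577))
    (p (nat_lit 0x101) (nat_lit 0) (p (nat_lit 0x81) (nat_lit 1) (p (nat_lit 0xc1) (nat_lit 1) (p (nat_lit 0x119) (nat_lit 1) (p (nat_lit 0xd1) (nat_lit 0) (p (nat_lit 0x89) (nat_lit 0) (p (nat_lit 0x41) (nat_lit 0) (p (nat_lit 0x10a090b098a9a) (nat_lit 0) (p (nat_lit 0x89888a890a1a) (nat_lit 0) (p (nat_lit 0x109080a08879a) (nat_lit 0) (p (nat_lit 0x88878988071a) (nat_lit 0) (p (nat_lit 0x8000080000000080907888a) (nat_lit 0) (p (nat_lit 0x8000080000000078887060a)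 (nat_lit 0) (p (nat_lit 0x10608068782) (nat_lit 0) (p (nat_lit 0x8587860702) (nat_lit 0) (p (nat_lit 0x10507058482) (nat_lit 0) (p (nat_lit 0x8486850402) (nat_lit 0) (p (nat_lit 0x160004) (nat_lit 0) (p (nat_lit 0x50612) (nat_lit 0) (p (nat_lit 0x38592) (nat_lit 0) (p (nat_lit 0x40492) (nat_lit 0) (p (nat_lit 0x28412) (nat_lit 0) (p (nat_lit 0x30292) (nat_lit 0) (p (nat_lit 0x18212) (nat_lit 0) (p (nat_lit 0x20092) (nat_lit 0) (p (nat_lit 0x8012) (nat_lit 0) pn)))))))))))))))))))))))))) :=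
  Cl.node (nat_lit 0x109) (nat_lit 2) (by decide +kernel) (ClAll.succ (ClAll.succ ClAll.zero n4) n5)

def n22 : Cl (O (nat_lit 6)) (R (nat_lit 104577))
    (p (nat_lit 0x20000c) (nat_lit 1) (p (nat_lit 0x109) (nat_lit 1) (p (nat_lit 0x101) (nat_lit 0) (p (nat_lit 0x111) (nat_lit 0) (p (nat_lit 0xd1) (nat_lit 1) (p (nat_lit 0x89) (nat_lit 0) (p (nat_lit 0x41) (nat_lit 0) (p (nat_lit 0x10a090b098a9a) (nat_lit 0) (p (nat_lit 0x89888a890a1a) (nat_lit 0) (p (nat_lit 0x109080a08879a) (nat_lit 0) (p (nat_lit 0x88878988071a) (nat_lit 0) (p (nat_lit 0x8000080000000080907888a) (nat_lit 0) (p (nat_lit 0x8000080000000078887060a) (nat_lit 0) (p (nat_lit 0x10608068782) (nat_lit 0) (p (nat_lit 0x8587860702) (nat_lit 0) (p (nat_lit 0x10507058482) (nat_lit 0) (p (nat_lit 0x8486850402) (nat_lit 0) (p (nat_lit 0x160004) (nat_lit 0) (p (nat_lit 0x50612) (nat_lit 0) (p (nat_lit 0x38592) (nat_lit 0) (p (nat_lit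 0x40492) (nat_lit 0) (p (nat_lit 0x28412) (nat_lit 0) (p (nat_lit 0x30292) (nat_lit 0) (p (nat_lit 0x18212) (nat_lit 0) (p (nat_lit 0x20092) (nat_lit 0) (p (nat_lit 0x8012) (nat_lit 0) pn)))))))))))))))))))))))))) :=
  Cl.node (nat_lit 0xb0004) (nat_lit 2) (by decide +kernel) (ClAll.succ (ClAll.succ ClAll.zero n6) s30)

def n23 : Cl (O (nat_lit 6)) (R (nat_lit 104577))
    (p (nat_lit 0xc1) (nat_lit 0) (p (nat_lit 0x81) (nat_lit 1) (p (nat_lit 0x101) (nat_lit 1) (p (nat_lit 0x111) (nat_lit 0) (p (nat_lit 0xd1) (nat_lit 1) (p (nat_lit 0x89) (nat_lit 0) (p (nat_lit 0x41) (nat_lit 0) (p (nat_lit 0x10a090b098a9a) (nat_lit 0) (p (nat_lit 0x89888a890a1a) (nat_lit 0) (p (nat_lit 0x109080a08879a) (nat_lit 0) (p (nat_lit 0x88878988071a) (nat_lit 0) (p (nat_lit 0x8000080000000080907888a) (nat_lit 0) (p (nat_lit 0x8000080000000078887060a) (nat_lit 0) (p (nat_lit 0x10608068782) (nat_lit 0) (p (nat_lit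 0x8587860702) (nat_lit 0) (p (nat_lit 0x10507058482) (nat_lit 0) (p (nat_lit 0x8486850402) (nat_lit 0) (p (nat_lit 0x160004) (nat_lit 0) (p (nat_lit 0x50612) (nat_lit 0) (p (nat_lit 0x38592) (nat_lit 0) (p (nat_lit 0x40492) (nat_lit 0) (p (nat_lit 0x28412) (nat_lit 0) (p (nat_lit 0x30292) (nat_lit 0) (p (nat_lit 0x18212) (nat_lit 0) (p (nat_lit 0x20092) (nat_lit 0) (p (nat_lit 0x8012) (nat_lit 0) pn)))))))))))))))))))))))))) :=
  Cl.node (nat_lit 0x20000c) (nat_lit 2) (by decide +kernel) (ClAll.succ (ClAll.succ ClAll.zero s33) s34)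

def n24 : Cl (O (nat_lit 6)) (R (nat_lit 104577))
    (p (nat_lit 0x111) (nat_lit 1) (p (nat_lit 0x109) (nat_lit 0) (p (nat_lit 0x101) (nat_lit 0) (p (nat_lit 0x119) (nat_lit 0) (p (nat_lit 0xc9) (nat_lit 0) (p (nat_lit 0x89) (nat_lit 1) (p (nat_lit 0x41) (nat_lit 0) (p (nat_lit 0x10a090b098a9a) (nat_lit 0) (p (nat_lit 0x89888a890a1a) (nat_lit 0) (p (nat_lit 0x109080a08879a) (nat_lit 0) (p (nat_lit 0x88878988071a) (nat_lit 0) (p (nat_lit 0x8000080000000080907888a) (nat_lit 0) (p (nat_lit 0x8000080000000078887060a) (nat_lit 0) (p (nat_lit 0x10608068782) (nat_lit 0) (p (nat_lit 0x8587860702) (nat_lit 0) (p (nat_lit 0x10507058482) (nat_lit 0) (p (nat_lit 0x8486850402) (nat_lit 0) (p (nat_lit 0x160004) (nat_lit 0) (p (nat_lit 0x50612) (nat_lit 0) (p (nat_lit 0x38592) (nat_lit 0) (p (nat_lit 0x40492) (nat_lit 0) (p (nat_lit 0x28412) (nat_lit 0) (p (nat_lit 0x30292) (nat_lit 0) (p (nat_lit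 0x18212) (nat_lit 0) (p (nat_lit 0x20092) (nat_lit 0) (p (nat_lit 0x8012) (nat_lit 0) pn)))))))))))))))))))))))))) :=
  Cl.node (nat_lit 0xd1) (nat_lit 2) (by decide +kernel) (ClAll.succ (ClAll.succ ClAll.zero s39) n7)

def n25 : Cl (O (nat_lit 6)) (R (nat_lit 104577))
    (p (nat_lit 0xd1) (nat_lit 0) (p (nat_lit 0x109) (nat_lit 1) (p (nat_lit 0x101) (nat_lit 0) (p (nat_lit 0x119) (nat_lit 0) (p (nat_lit 0xc9) (nat_lit 0) (p (nat_lit 0x89) (nat_lit 1) (p (nat_lit 0x41) (nat_lit 0) (p (nat_lit 0x10a090b098a9a) (nat_lit 0) (p (nat_lit 0x89888a890a1a) (nat_lit 0) (p (nat_lit 0x109080a08879a) (nat_lit 0) (p (nat_lit 0x88878988071a) (nat_lit 0) (p (nat_lit 0x8000080000000080907888a) (nat_lit 0) (p (nat_lit 0x8000080000000078887060a) (nat_lit 0) (p (nat_lit 0x10608068782) (nat_lit 0) (p (nat_lit 0x8587860702) (nat_lit 0) (p (nat_lit 0x10507058482) (nat_lit 0) (p (nat_lit 0x8486850402) (nat_lit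 0) (p (nat_lit 0x160004) (nat_lit 0) (p (nat_lit 0x50612) (nat_lit 0) (p (nat_lit 0x38592) (nat_lit 0) (p (nat_lit 0x40492) (nat_lit 0) (p (nat_lit 0x28412) (nat_lit 0) (p (nat_lit 0x30292) (nat_lit 0) (p (nat_lit 0x18212) (nat_lit 0) (p (nat_lit 0x20092) (nat_lit 0) (p (nat_lit 0x8012) (nat_lit 0) pn)))))))))))))))))))))))))) :=
  Cl.node (nat_lit 0x20000c) (nat_lit 2) (by decide +kernel) (ClAll.succ (ClAll.succ ClAll.zero n8) s44)

def n26 : Cl (O (nat_lit 6)) (R (nat_lit 104577))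
    (p (nat_lit 0xd1) (nat_lit 1) (p (nat_lit 0x109) (nat_lit 1) (p (nat_lit 0x101) (nat_lit 0) (p (nat_lit 0x119) (nat_lit 0) (p (nat_lit 0xc9) (nat_lit 0) (p (nat_lit 0x89) (nat_lit 1) (p (nat_lit 0x41) (nat_lit 0) (p (nat_lit 0x10a090b098a9a) (nat_lit 0) (p (nat_lit 0x89888a890a1a) (nat_lit 0) (p (nat_lit 0x109080a08879a) (nat_lit 0) (p (nat_lit 0x88878988071a) (nat_lit 0) (p (nat_lit 0x8000080000000080907888a) (nat_lit 0) (p (nat_lit 0x8000080000000078887060a) (nat_lit 0) (p (nat_lit 0x10608068782) (nat_lit 0) (p (nat_lit 0x8587860702) (nat_lit 0) (p (nat_lit 0x10507058482) (nat_lit 0) (p (nat_lit 0x8486850402) (nat_lit 0) (p (nat_lit 0x160004) (nat_lit 0) (p (nat_lit 0x50612) (nat_lit 0) (p (nat_lit 0x38592) (nat_lit 0) (p (nat_lit 0x40492) (nat_lit 0) (p (nat_lit 0x28412) (nat_lit 0) (p (nat_lit 0x30292) (nat_lit 0) (p (nat_lit 0x18212) (nat_lit 0) (p (nat_lit 0x20092) (nat_lit 0)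 (p (nat_lit 0x8012) (nat_lit 0) pn)))))))))))))))))))))))))) :=
  Cl.node (nat_lit 0x20000c) (nat_lit 2) (by decide +kernel) (ClAll.succ (ClAll.succ ClAll.zero n9) s47)

def n27 : Cl (O (nat_lit 6)) (R (nat_lit 104577))
    (p (nat_lit 0xd1) (nat_lit 0) (p (nat_lit 0xc1) (nat_lit 0) (p (nat_lit 0x101) (nat_lit 1) (p (nat_lit 0x119) (nat_lit 0) (p (nat_lit 0xc9) (nat_lit 0) (p (nat_lit 0x89) (nat_lit 1) (p (nat_lit 0x41) (nat_lit 0) (p (nat_lit 0x10a090b098a9a) (nat_lit 0) (p (nat_lit 0x89888a890a1a) (nat_lit 0) (p (nat_lit 0x109080a08879a) (nat_lit 0) (p (nat_lit 0x88878988071a) (nat_lit 0) (p (nat_lit 0x8000080000000080907888a) (nat_lit 0) (p (nat_lit 0x8000080000000078887060a) (nat_lit 0) (p (nat_lit 0x10608068782) (nat_lit 0) (p (nat_lit 0x8587860702) (nat_lit 0) (p (nat_lit 0x10507058482) (nat_lit 0) (p (nat_lit 0x8486850402) (nat_lit 0) (p (nat_lit 0x160004) (nat_lit 0) (p (nat_lit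 0x50612) (nat_lit 0) (p (nat_lit 0x38592) (nat_lit 0) (p (nat_lit 0x40492) (nat_lit 0) (p (nat_lit 0x28412) (nat_lit 0) (p (nat_lit 0x30292) (nat_lit 0) (p (nat_lit 0x18212) (nat_lit 0) (p (nat_lit 0x20092) (nat_lit 0) (p (nat_lit 0x8012) (nat_lit 0) pn)))))))))))))))))))))))))) :=
  Cl.node (nat_lit 0x20000c) (nat_lit 2) (by decide +kernel) (ClAll.succ (ClAll.succ ClAll.zero n10) s50)

def n28 : Cl (O (nat_lit 6)) (R (nat_lit 104577))
    (p (nat_lit 0x111) (nat_lit 0) (p (nat_lit 0x101) (nat_lit 0) (p (nat_lit 0xc1) (nat_lit 1) (p (nat_lit 0x119) (nat_lit 1) (p (nat_lit 0xc9) (nat_lit 0) (p (nat_lit 0x89) (nat_lit 1) (p (nat_lit 0x41) (nat_lit 0) (p (nat_lit 0x10a090b098a9a) (nat_lit 0) (p (nat_lit 0x89888a890a1a) (nat_lit 0) (p (nat_lit 0x109080a08879a) (nat_lit 0) (p (nat_lit 0x88878988071a) (nat_lit 0) (p (nat_lit 0x8000080000000080907888a) (nat_lit 0) (p (nat_lit 0x8000080000000078887060a)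 (nat_lit 0) (p (nat_lit 0x10608068782) (nat_lit 0) (p (nat_lit 0x8587860702) (nat_lit 0) (p (nat_lit 0x10507058482) (nat_lit 0) (p (nat_lit 0x8486850402) (nat_lit 0) (p (nat_lit 0x160004) (nat_lit 0) (p (nat_lit 0x50612) (nat_lit 0) (p (nat_lit 0x38592) (nat_lit 0) (p (nat_lit 0x40492) (nat_lit 0) (p (nat_lit 0x28412) (nat_lit 0) (p (nat_lit 0x30292) (nat_lit 0) (p (nat_lit 0x18212) (nat_lit 0) (p (nat_lit 0x20092) (nat_lit 0) (p (nat_lit 0x8012) (nat_lit 0) pn)))))))))))))))))))))))))) :=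
  Cl.node (nat_lit 0x20000c) (nat_lit 2) (by decide +kernel) (ClAll.succ (ClAll.succ ClAll.zero s56) s57)

def n29 : Cl (O (nat_lit 6)) (R (nat_lit 104577))
    (p (nat_lit 0x111) (nat_lit 1) (p (nat_lit 0x101) (nat_lit 0) (p (nat_lit 0xc1) (nat_lit 1) (p (nat_lit 0x119) (nat_lit 1) (p (nat_lit 0xc9) (nat_lit 0) (p (nat_lit 0x89) (nat_lit 1) (p (nat_lit 0x41) (nat_lit 0) (p (nat_lit 0x10a090b098a9a) (nat_lit 0) (p (nat_lit 0x89888a890a1a) (nat_lit 0) (p (nat_lit 0x109080a08879a) (nat_lit 0) (p (nat_lit 0x88878988071a) (nat_lit 0) (p (nat_lit 0x8000080000000080907888a) (nat_lit 0) (p (nat_lit 0x8000080000000078887060a) (nat_lit 0) (p (nat_lit 0x10608068782) (nat_lit 0) (p (nat_lit 0x8587860702) (nat_lit 0) (p (nat_lit 0x10507058482) (nat_lit 0) (p (nat_lit 0x8486850402) (nat_lit 0) (p (nat_lit 0x160004) (nat_lit 0) (p (nat_lit 0x50612) (nat_lit 0) (p (nat_lit 0x38592) (nat_lit 0) (p (nat_lit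 0x40492) (nat_lit 0) (p (nat_lit 0x28412) (nat_lit 0) (p (nat_lit 0x30292) (nat_lit 0) (p (nat_lit 0x18212) (nat_lit 0) (p (nat_lit 0x20092) (nat_lit 0) (p (nat_lit 0x8012) (nat_lit 0) pn)))))))))))))))))))))))))) :=
  Cl.node (nat_lit 0x20000c) (nat_lit 2) (by decide +kernel) (ClAll.succ (ClAll.succ ClAll.zero n11) s60)

def n30 : Cl (O (nat_lit 6)) (R (nat_lit 104577))
    (p (nat_lit 0x89) (nat_lit 0) (p (nat_lit 0x109) (nat_lit 1) (p (nat_lit 0x101) (nat_lit 0) (p (nat_lit 0x119) (nat_lit 0) (p (nat_lit 0xd1) (nat_lit 0) (p (nat_lit 0x81) (nat_lit 0) (p (nat_lit 0x41) (nat_lit 1) (p (nat_lit 0x10a090b098a9a) (nat_lit 0) (p (nat_lit 0x89888a890a1a) (nat_lit 0) (p (nat_lit 0x109080a08879a) (nat_lit 0) (p (nat_lit 0x88878988071a) (nat_lit 0) (p (nat_lit 0x8000080000000080907888a) (nat_lit 0) (p (nat_lit 0x8000080000000078887060a) (nat_lit 0) (p (nat_lit 0x10608068782) (nat_lit 0) (p (nat_lit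 0x8587860702) (nat_lit 0) (p (nat_lit 0x10507058482) (nat_lit 0) (p (nat_lit 0x8486850402) (nat_lit 0) (p (nat_lit 0x160004) (nat_lit 0) (p (nat_lit 0x50612) (nat_lit 0) (p (nat_lit 0x38592) (nat_lit 0) (p (nat_lit 0x40492) (nat_lit 0) (p (nat_lit 0x28412) (nat_lit 0) (p (nat_lit 0x30292) (nat_lit 0) (p (nat_lit 0x18212) (nat_lit 0) (p (nat_lit 0x20092) (nat_lit 0) (p (nat_lit 0x8012) (nat_lit 0) pn)))))))))))))))))))))))))) :=
  Cl.node (nat_lit 0x20000c) (nat_lit 2) (by decide +kernel) (ClAll.succ (ClAll.succ ClAll.zero s67) s68)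

def n31 : Cl (O (nat_lit 6)) (R (nat_lit 104577))
    (p (nat_lit 0x89) (nat_lit 1) (p (nat_lit 0xc1) (nat_lit 0) (p (nat_lit 0x101) (nat_lit 1) (p (nat_lit 0x119) (nat_lit 0) (p (nat_lit 0xd1) (nat_lit 0) (p (nat_lit 0x81) (nat_lit 0) (p (nat_lit 0x41) (nat_lit 1) (p (nat_lit 0x10a090b098a9a) (nat_lit 0) (p (nat_lit 0x89888a890a1a) (nat_lit 0) (p (nat_lit 0x109080a08879a) (nat_lit 0) (p (nat_lit 0x88878988071a) (nat_lit 0) (p (nat_lit 0x8000080000000080907888a) (nat_lit 0) (p (nat_lit 0x8000080000000078887060a) (nat_lit 0) (p (nat_lit 0x10608068782) (nat_lit 0) (p (nat_lit 0x8587860702) (nat_lit 0) (p (nat_lit 0x10507058482) (nat_lit 0) (p (nat_lit 0x8486850402) (nat_lit 0) (p (nat_lit 0x160004) (nat_lit 0) (p (nat_lit 0x50612) (nat_lit 0) (p (nat_lit 0x38592) (nat_lit 0) (p (nat_lit 0x40492) (nat_lit 0) (p (nat_lit 0x28412) (nat_lit 0) (p (nat_lit 0x30292) (nat_lit 0) (p (nat_lit 0x18212)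 (nat_lit 0) (p (nat_lit 0x20092) (nat_lit 0) (p (nat_lit 0x8012) (nat_lit 0) pn)))))))))))))))))))))))))) :=
  Cl.node (nat_lit 0xc9) (nat_lit 2) (by decide +kernel) (ClAll.succ (ClAll.succ ClAll.zero s71) s72)

def n32 : Cl (O (nat_lit 6)) (R (nat_lit 104577))
    (p (nat_lit 0x89) (nat_lit 1) (p (nat_lit 0xc9) (nat_lit 1) (p (nat_lit 0xc1) (nat_lit 0) (p (nat_lit 0x119) (nat_lit 1) (p (nat_lit 0xd1) (nat_lit 0) (p (nat_lit 0x81) (nat_lit 0) (p (nat_lit 0x41) (nat_lit 1) (p (nat_lit 0x10a090b098a9a) (nat_lit 0) (p (nat_lit 0x89888a890a1a) (nat_lit 0) (p (nat_lit 0x109080a08879a) (nat_lit 0) (p (nat_lit 0x88878988071a) (nat_lit 0) (p (nat_lit 0x8000080000000080907888a) (nat_lit 0) (p (nat_lit 0x8000080000000078887060a) (nat_lit 0) (p (nat_lit 0x10608068782) (nat_lit 0) (p (nat_lit 0x8587860702) (nat_lit 0) (p (nat_lit 0x10507058482) (nat_lit 0) (p (nat_lit 0x8486850402) (nat_lit 0) (p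 (nat_lit 0x160004) (nat_lit 0) (p (nat_lit 0x50612) (nat_lit 0) (p (nat_lit 0x38592) (nat_lit 0) (p (nat_lit 0x40492) (nat_lit 0) (p (nat_lit 0x28412) (nat_lit 0) (p (nat_lit 0x30292) (nat_lit 0) (p (nat_lit 0x18212) (nat_lit 0) (p (nat_lit 0x20092) (nat_lit 0) (p (nat_lit 0x8012) (nat_lit 0) pn)))))))))))))))))))))))))) :=
  Cl.node (nat_lit 0x109) (nat_lit 2) (by decide +kernel) (ClAll.succ (ClAll.succ ClAll.zero s77) s78)

def n33 : Cl (O (nat_lit 6)) (R (nat_lit 104577))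
    (p (nat_lit 0x89) (nat_lit 1) (p (nat_lit 0x101) (nat_lit 0) (p (nat_lit 0xc1) (nat_lit 1) (p (nat_lit 0x119) (nat_lit 1) (p (nat_lit 0xd1) (nat_lit 0) (p (nat_lit 0x81) (nat_lit 0) (p (nat_lit 0x41) (nat_lit 1) (p (nat_lit 0x10a090b098a9a) (nat_lit 0) (p (nat_lit 0x89888a890a1a) (nat_lit 0) (p (nat_lit 0x109080a08879a) (nat_lit 0) (p (nat_lit 0x88878988071a) (nat_lit 0) (p (nat_lit 0x8000080000000080907888a) (nat_lit 0) (p (nat_lit 0x8000080000000078887060a) (nat_lit 0) (p (nat_lit 0x10608068782) (nat_lit 0) (p (nat_lit 0x8587860702) (nat_lit 0) (p (nat_lit 0x10507058482) (nat_lit 0) (p (nat_lit 0x8486850402) (nat_lit 0) (p (nat_lit 0x160004) (nat_lit 0) (p (nat_lit 0x50612) (nat_lit 0) (p (nat_lit 0x38592) (nat_lit 0) (p (nat_lit 0x40492) (nat_lit 0) (p (nat_lit 0x28412) (nat_lit 0) (p (nat_lit 0x30292) (nat_lit 0) (p (nat_lit 0x18212) (nat_lit 0) (p (nat_lit 0x20092) (nat_lit 0)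 (p (nat_lit 0x8012) (nat_lit 0) pn)))))))))))))))))))))))))) :=
  Cl.node (nat_lit 0x109) (nat_lit 2) (by decide +kernel) (ClAll.succ (ClAll.succ ClAll.zero n12) s82)

def n34 : Cl (O (nat_lit 6)) (R (nat_lit 104577))
    (p (nat_lit 0x89) (nat_lit 1) (p (nat_lit 0x109) (nat_lit 1) (p (nat_lit 0x101) (nat_lit 0) (p (nat_lit 0x111) (nat_lit 0) (p (nat_lit 0xd1) (nat_lit 1) (p (nat_lit 0x81) (nat_lit 0) (p (nat_lit 0x41) (nat_lit 1) (p (nat_lit 0x10a090b098a9a) (nat_lit 0) (p (nat_lit 0x89888a890a1a) (nat_lit 0) (p (nat_lit 0x109080a08879a) (nat_lit 0) (p (nat_lit 0x88878988071a) (nat_lit 0) (p (nat_lit 0x8000080000000080907888a) (nat_lit 0) (p (nat_lit 0x8000080000000078887060a) (nat_lit 0) (p (nat_lit 0x10608068782) (nat_lit 0) (p (nat_lit 0x8587860702) (nat_lit 0) (p (nat_lit 0x10507058482) (nat_lit 0) (p (nat_lit 0x8486850402) (nat_lit 0) (p (nat_lit 0x160004) (nat_lit 0) (p (nat_lit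 0x50612) (nat_lit 0) (p (nat_lit 0x38592) (nat_lit 0) (p (nat_lit 0x40492) (nat_lit 0) (p (nat_lit 0x28412) (nat_lit 0) (p (nat_lit 0x30292) (nat_lit 0) (p (nat_lit 0x18212) (nat_lit 0) (p (nat_lit 0x20092) (nat_lit 0) (p (nat_lit 0x8012) (nat_lit 0) pn)))))))))))))))))))))))))) :=
  Cl.node (nat_lit 0xc9) (nat_lit 2) (by decide +kernel) (ClAll.succ (ClAll.succ ClAll.zero n13) s89)

def n35 : Cl (O (nat_lit 6)) (R (nat_lit 104577))
    (p (nat_lit 0xc9) (nat_lit 0) (p (nat_lit 0x89) (nat_lit 1) (p (nat_lit 0x101) (nat_lit 1) (p (nat_lit 0x111) (nat_lit 0) (p (nat_lit 0xd1) (nat_lit 1) (p (nat_lit 0x81) (nat_lit 0) (p (nat_lit 0x41) (nat_lit 1) (p (nat_lit 0x10a090b098a9a) (nat_lit 0) (p (nat_lit 0x89888a890a1a) (nat_lit 0) (p (nat_lit 0x109080a08879a) (nat_lit 0) (p (nat_lit 0x88878988071a) (nat_lit 0) (p (nat_lit 0x8000080000000080907888a) (nat_lit 0) (p (nat_lit 0x8000080000000078887060a)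 (nat_lit 0) (p (nat_lit 0x10608068782) (nat_lit 0) (p (nat_lit 0x8587860702) (nat_lit 0) (p (nat_lit 0x10507058482) (nat_lit 0) (p (nat_lit 0x8486850402) (nat_lit 0) (p (nat_lit 0x160004) (nat_lit 0) (p (nat_lit 0x50612) (nat_lit 0) (p (nat_lit 0x38592) (nat_lit 0) (p (nat_lit 0x40492) (nat_lit 0) (p (nat_lit 0x28412) (nat_lit 0) (p (nat_lit 0x30292) (nat_lit 0) (p (nat_lit 0x18212) (nat_lit 0) (p (nat_lit 0x20092) (nat_lit 0) (p (nat_lit 0x8012) (nat_lit 0) pn)))))))))))))))))))))))))) :=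
  Cl.node (nat_lit 0x20000c) (nat_lit 2) (by decide +kernel) (ClAll.succ (ClAll.succ ClAll.zero s92) s93)

def n36 : Cl (O (nat_lit 6)) (R (nat_lit 104577))
    (p (nat_lit 0x111) (nat_lit 1) (p (nat_lit 0x109) (nat_lit 0) (p (nat_lit 0x101) (nat_lit 0) (p (nat_lit 0x119) (nat_lit 0) (p (nat_lit 0xc1) (nat_lit 0) (p (nat_lit 0x81) (nat_lit 1) (p (nat_lit 0x41) (nat_lit 1) (p (nat_lit 0x10a090b098a9a) (nat_lit 0) (p (nat_lit 0x89888a890a1a) (nat_lit 0) (p (nat_lit 0x109080a08879a) (nat_lit 0) (p (nat_lit 0x88878988071a) (nat_lit 0) (p (nat_lit 0x8000080000000080907888a) (nat_lit 0) (p (nat_lit 0x8000080000000078887060a) (nat_lit 0) (p (nat_lit 0x10608068782) (nat_lit 0) (p (nat_lit 0x8587860702) (nat_lit 0) (p (nat_lit 0x10507058482) (nat_lit 0) (p (nat_lit 0x8486850402) (nat_lit 0) (p (nat_lit 0x160004) (nat_lit 0) (p (nat_lit 0x50612) (nat_lit 0) (p (nat_lit 0x38592) (nat_lit 0) (p (nat_lit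 0x40492) (nat_lit 0) (p (nat_lit 0x28412) (nat_lit 0) (p (nat_lit 0x30292) (nat_lit 0) (p (nat_lit 0x18212) (nat_lit 0) (p (nat_lit 0x20092) (nat_lit 0) (p (nat_lit 0x8012) (nat_lit 0) pn)))))))))))))))))))))))))) :=
  Cl.node (nat_lit 0xd1) (nat_lit 2) (by decide +kernel) (ClAll.succ (ClAll.succ ClAll.zero s97) n14)

def n37 : Cl (O (nat_lit 6)) (R (nat_lit 104577))
    (p (nat_lit 0xd1) (nat_lit 0) (p (nat_lit 0xc9) (nat_lit 0) (p (nat_lit 0x101) (nat_lit 1) (p (nat_lit 0x119) (nat_lit 0) (p (nat_lit 0xc1) (nat_lit 0) (p (nat_lit 0x81) (nat_lit 1) (p (nat_lit 0x41) (nat_lit 1) (p (nat_lit 0x10a090b098a9a) (nat_lit 0) (p (nat_lit 0x89888a890a1a) (nat_lit 0) (p (nat_lit 0x109080a08879a) (nat_lit 0) (p (nat_lit 0x88878988071a) (nat_lit 0) (p (nat_lit 0x8000080000000080907888a) (nat_lit 0) (p (nat_lit 0x8000080000000078887060a) (nat_lit 0) (p (nat_lit 0x10608068782) (nat_lit 0) (p (nat_lit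 0x8587860702) (nat_lit 0) (p (nat_lit 0x10507058482) (nat_lit 0) (p (nat_lit 0x8486850402) (nat_lit 0) (p (nat_lit 0x160004) (nat_lit 0) (p (nat_lit 0x50612) (nat_lit 0) (p (nat_lit 0x38592) (nat_lit 0) (p (nat_lit 0x40492) (nat_lit 0) (p (nat_lit 0x28412) (nat_lit 0) (p (nat_lit 0x30292) (nat_lit 0) (p (nat_lit 0x18212) (nat_lit 0) (p (nat_lit 0x20092) (nat_lit 0) (p (nat_lit 0x8012) (nat_lit 0) pn)))))))))))))))))))))))))) :=
  Cl.node (nat_lit 0x20000c) (nat_lit 2) (by decide +kernel) (ClAll.succ (ClAll.succ ClAll.zero s102) s103)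

def n38 : Cl (O (nat_lit 6)) (R (nat_lit 104577))
    (p (nat_lit 0xd1) (nat_lit 1) (p (nat_lit 0xc9) (nat_lit 0) (p (nat_lit 0x101) (nat_lit 1) (p (nat_lit 0x119) (nat_lit 0) (p (nat_lit 0xc1) (nat_lit 0) (p (nat_lit 0x81) (nat_lit 1) (p (nat_lit 0x41) (nat_lit 1) (p (nat_lit 0x10a090b098a9a) (nat_lit 0) (p (nat_lit 0x89888a890a1a) (nat_lit 0) (p (nat_lit 0x109080a08879a) (nat_lit 0) (p (nat_lit 0x88878988071a) (nat_lit 0) (p (nat_lit 0x8000080000000080907888a) (nat_lit 0) (p (nat_lit 0x8000080000000078887060a) (nat_lit 0) (p (nat_lit 0x10608068782) (nat_lit 0) (p (nat_lit 0x8587860702) (nat_lit 0) (p (nat_lit 0x10507058482) (nat_lit 0) (p (nat_lit 0x8486850402) (nat_lit 0) (p (nat_lit 0x160004) (nat_lit 0) (p (nat_lit 0x50612) (nat_lit 0) (p (nat_lit 0x38592) (nat_lit 0) (p (nat_lit 0x40492) (nat_lit 0) (p (nat_lit 0x28412) (nat_lit 0) (p (nat_lit 0x30292) (nat_lit 0) (p (nat_lit 0x18212)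 (nat_lit 0) (p (nat_lit 0x20092) (nat_lit 0) (p (nat_lit 0x8012) (nat_lit 0) pn)))))))))))))))))))))))))) :=
  Cl.node (nat_lit 0x20000c) (nat_lit 2) (by decide +kernel) (ClAll.succ (ClAll.succ ClAll.zero n15) s106)

def n39 : Cl (O (nat_lit 6)) (R (nat_lit 104577))
    (p (nat_lit 0x111) (nat_lit 1) (p (nat_lit 0x109) (nat_lit 0) (p (nat_lit 0xc9) (nat_lit 1) (p (nat_lit 0x119) (nat_lit 1) (p (nat_lit 0xc1) (nat_lit 0) (p (nat_lit 0x81) (nat_lit 1) (p (nat_lit 0x41) (nat_lit 1) (p (nat_lit 0x10a090b098a9a) (nat_lit 0) (p (nat_lit 0x89888a890a1a) (nat_lit 0) (p (nat_lit 0x109080a08879a) (nat_lit 0) (p (nat_lit 0x88878988071a) (nat_lit 0) (p (nat_lit 0x8000080000000080907888a) (nat_lit 0) (p (nat_lit 0x8000080000000078887060a) (nat_lit 0) (p (nat_lit 0x10608068782) (nat_lit 0) (p (nat_lit 0x8587860702) (nat_lit 0) (p (nat_lit 0x10507058482) (nat_lit 0) (p (nat_lit 0x8486850402) (nat_lit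 0) (p (nat_lit 0x160004) (nat_lit 0) (p (nat_lit 0x50612) (nat_lit 0) (p (nat_lit 0x38592) (nat_lit 0) (p (nat_lit 0x40492) (nat_lit 0) (p (nat_lit 0x28412) (nat_lit 0) (p (nat_lit 0x30292) (nat_lit 0) (p (nat_lit 0x18212) (nat_lit 0) (p (nat_lit 0x20092) (nat_lit 0) (p (nat_lit 0x8012) (nat_lit 0) pn)))))))))))))))))))))))))) :=
  Cl.node (nat_lit 0x20000c) (nat_lit 2) (by decide +kernel) (ClAll.succ (ClAll.succ ClAll.zero s111) s112)

def n40 : Cl (O (nat_lit 6)) (R (nat_lit 104577))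
    (p (nat_lit 0x109) (nat_lit 1) (p (nat_lit 0x101) (nat_lit 0) (p (nat_lit 0x119) (nat_lit 0) (p (nat_lit 0xd1) (nat_lit 0) (p (nat_lit 0x89) (nat_lit 0) (p (nat_lit 0x41) (nat_lit 0) (p (nat_lit 0x10a090b098a9a) (nat_lit 0) (p (nat_lit 0x89888a890a1a) (nat_lit 0) (p (nat_lit 0x109080a08879a) (nat_lit 0) (p (nat_lit 0x88878988071a) (nat_lit 0) (p (nat_lit 0x8000080000000080907888a) (nat_lit 0) (p (nat_lit 0x8000080000000078887060a) (nat_lit 0) (p (nat_lit 0x10608068782) (nat_lit 0) (p (nat_lit 0x8587860702) (nat_lit 0) (p (nat_lit 0x10507058482) (nat_lit 0) (p (nat_lit 0x8486850402) (nat_lit 0) (p (nat_lit 0x160004) (nat_lit 0) (p (nat_lit 0x50612) (nat_lit 0) (p (nat_lit 0x38592) (nat_lit 0) (p (nat_lit 0x40492) (nat_lit 0) (p (nat_lit 0x28412) (nat_lit 0) (p (nat_lit 0x30292) (nat_lit 0) (p (nat_lit 0x18212) (nat_lit 0) (p (nat_lit 0x20092) (nat_lit 0) (p (nat_lit 0x8012) (nat_lit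 0) pn))))))))))))))))))))))))) :=
  Cl.node (nat_lit 0xc9) (nat_lit 2) (by decide +kernel) (ClAll.succ (ClAll.succ ClAll.zero s1) n16)

def n41 : Cl (O (nat_lit 6)) (R (nat_lit 104577))
    (p (nat_lit 0x81) (nat_lit 0) (p (nat_lit 0x101) (nat_lit 1) (p (nat_lit 0x119) (nat_lit 0) (p (nat_lit 0xd1) (nat_lit 0) (p (nat_lit 0x89) (nat_lit 0) (p (nat_lit 0x41) (nat_lit 0) (p (nat_lit 0x10a090b098a9a) (nat_lit 0) (p (nat_lit 0x89888a890a1a) (nat_lit 0) (p (nat_lit 0x109080a08879a) (nat_lit 0) (p (nat_lit 0x88878988071a) (nat_lit 0) (p (nat_lit 0x8000080000000080907888a) (nat_lit 0) (p (nat_lit 0x8000080000000078887060a) (nat_lit 0) (p (nat_lit 0x10608068782) (nat_lit 0) (p (nat_lit 0x8587860702) (nat_lit 0) (p (nat_lit 0x10507058482) (nat_lit 0) (p (nat_lit 0x8486850402) (nat_lit 0) (p (nat_lit 0x160004) (nat_lit 0) (p (nat_lit 0x50612) (nat_lit 0) (p (nat_lit 0x38592) (nat_lit 0) (p (nat_lit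 0x40492) (nat_lit 0) (p (nat_lit 0x28412) (nat_lit 0) (p (nat_lit 0x30292) (nat_lit 0) (p (nat_lit 0x18212) (nat_lit 0) (p (nat_lit 0x20092) (nat_lit 0) (p (nat_lit 0x8012) (nat_lit 0) pn))))))))))))))))))))))))) :=
  Cl.node (nat_lit 0xc9) (nat_lit 2) (by decide +kernel) (ClAll.succ (ClAll.succ ClAll.zero n17) n18)

def n42 : Cl (O (nat_lit 6)) (R (nat_lit 104577))
    (p (nat_lit 0x81) (nat_lit 1) (p (nat_lit 0x101) (nat_lit 1) (p (nat_lit 0x119) (nat_lit 0) (p (nat_lit 0xd1) (nat_lit 0) (p (nat_lit 0x89) (nat_lit 0) (p (nat_lit 0x41) (nat_lit 0) (p (nat_lit 0x10a090b098a9a) (nat_lit 0) (p (nat_lit 0x89888a890a1a) (nat_lit 0) (p (nat_lit 0x109080a08879a) (nat_lit 0) (p (nat_lit 0x88878988071a) (nat_lit 0) (p (nat_lit 0x8000080000000080907888a) (nat_lit 0) (p (nat_lit 0x8000080000000078887060a) (nat_lit 0) (p (nat_lit 0x10608068782) (nat_lit 0) (p (nat_lit 0x8587860702) (nat_lit 0) (p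 (nat_lit 0x10507058482) (nat_lit 0) (p (nat_lit 0x8486850402) (nat_lit 0) (p (nat_lit 0x160004) (nat_lit 0) (p (nat_lit 0x50612) (nat_lit 0) (p (nat_lit 0x38592) (nat_lit 0) (p (nat_lit 0x40492) (nat_lit 0) (p (nat_lit 0x28412) (nat_lit 0) (p (nat_lit 0x30292) (nat_lit 0) (p (nat_lit 0x18212) (nat_lit 0) (p (nat_lit 0x20092) (nat_lit 0) (p (nat_lit 0x8012) (nat_lit 0) pn))))))))))))))))))))))))) :=
  Cl.node (nat_lit 0xc1) (nat_lit 2) (by decide +kernel) (ClAll.succ (ClAll.succ ClAll.zero n19) s13)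

def n43 : Cl (O (nat_lit 6)) (R (nat_lit 104577))
    (p (nat_lit 0xc9) (nat_lit 1) (p (nat_lit 0xc1) (nat_lit 0) (p (nat_lit 0x119) (nat_lit 1) (p (nat_lit 0xd1) (nat_lit 0) (p (nat_lit 0x89) (nat_lit 0) (p (nat_lit 0x41) (nat_lit 0) (p (nat_lit 0x10a090b098a9a) (nat_lit 0) (p (nat_lit 0x89888a890a1a) (nat_lit 0) (p (nat_lit 0x109080a08879a) (nat_lit 0) (p (nat_lit 0x88878988071a) (nat_lit 0) (p (nat_lit 0x8000080000000080907888a) (nat_lit 0) (p (nat_lit 0x8000080000000078887060a) (nat_lit 0) (p (nat_lit 0x10608068782) (nat_lit 0) (p (nat_lit 0x8587860702) (nat_lit 0) (p (nat_lit 0x10507058482) (nat_lit 0) (p (nat_lit 0x8486850402) (nat_lit 0) (p (nat_lit 0x160004) (nat_lit 0) (p (nat_lit 0x50612) (nat_lit 0) (p (nat_lit 0x38592) (nat_lit 0) (p (nat_lit 0x40492) (nat_lit 0) (p (nat_lit 0x28412) (nat_lit 0) (p (nat_lit 0x30292) (nat_lit 0) (p (nat_lit 0x18212) (nat_lit 0) (p (nat_lit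 0x20092) (nat_lit 0) (p (nat_lit 0x8012) (nat_lit 0) pn))))))))))))))))))))))))) :=
  Cl.node (nat_lit 0x109) (nat_lit 2) (by decide +kernel) (ClAll.succ (ClAll.succ ClAll.zero s15) n20)

def n44 : Cl (O (nat_lit 6)) (R (nat_lit 104577))
    (p (nat_lit 0x81) (nat_lit 0) (p (nat_lit 0xc1) (nat_lit 1) (p (nat_lit 0x119) (nat_lit 1) (p (nat_lit 0xd1) (nat_lit 0) (p (nat_lit 0x89) (nat_lit 0) (p (nat_lit 0x41) (nat_lit 0) (p (nat_lit 0x10a090b098a9a) (nat_lit 0) (p (nat_lit 0x89888a890a1a) (nat_lit 0) (p (nat_lit 0x109080a08879a) (nat_lit 0) (p (nat_lit 0x88878988071a) (nat_lit 0) (p (nat_lit 0x8000080000000080907888a) (nat_lit 0) (p (nat_lit 0x8000080000000078887060a) (nat_lit 0) (p (nat_lit 0x10608068782) (nat_lit 0) (p (nat_lit 0x8587860702) (nat_lit 0) (p (nat_lit 0x10507058482) (nat_lit 0) (p (nat_lit 0x8486850402) (nat_lit 0) (p (nat_lit 0x160004) (nat_lit 0) (p (nat_lit 0x50612) (nat_lit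 0) (p (nat_lit 0x38592) (nat_lit 0) (p (nat_lit 0x40492) (nat_lit 0) (p (nat_lit 0x28412) (nat_lit 0) (p (nat_lit 0x30292) (nat_lit 0) (p (nat_lit 0x18212) (nat_lit 0) (p (nat_lit 0x20092) (nat_lit 0) (p (nat_lit 0x8012) (nat_lit 0) pn))))))))))))))))))))))))) :=
  Cl.node (nat_lit 0x109) (nat_lit 2) (by decide +kernel) (ClAll.succ (ClAll.succ ClAll.zero s18) s19)

def n45 : Cl (O (nat_lit 6)) (R (nat_lit 104577))
    (p (nat_lit 0x81) (nat_lit 1) (p (nat_lit 0xc1) (nat_lit 1) (p (nat_lit 0x119) (nat_lit 1) (p (nat_lit 0xd1) (nat_lit 0) (p (nat_lit 0x89) (nat_lit 0) (p (nat_lit 0x41) (nat_lit 0) (p (nat_lit 0x10a090b098a9a) (nat_lit 0) (p (nat_lit 0x89888a890a1a) (nat_lit 0) (p (nat_lit 0x109080a08879a) (nat_lit 0) (p (nat_lit 0x88878988071a) (nat_lit 0) (p (nat_lit 0x8000080000000080907888a) (nat_lit 0) (p (nat_lit 0x8000080000000078887060a) (nat_lit 0) (p (nat_lit 0x10608068782) (nat_lit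 0) (p (nat_lit 0x8587860702) (nat_lit 0) (p (nat_lit 0x10507058482) (nat_lit 0) (p (nat_lit 0x8486850402) (nat_lit 0) (p (nat_lit 0x160004) (nat_lit 0) (p (nat_lit 0x50612) (nat_lit 0) (p (nat_lit 0x38592) (nat_lit 0) (p (nat_lit 0x40492) (nat_lit 0) (p (nat_lit 0x28412) (nat_lit 0) (p (nat_lit 0x30292) (nat_lit 0) (p (nat_lit 0x18212) (nat_lit 0) (p (nat_lit 0x20092) (nat_lit 0) (p (nat_lit 0x8012) (nat_lit 0) pn))))))))))))))))))))))))) :=
  Cl.node (nat_lit 0x101) (nat_lit 2) (by decide +kernel) (ClAll.succ (ClAll.succ ClAll.zero n21) s25)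

def n46 : Cl (O (nat_lit 6)) (R (nat_lit 104577))
    (p (nat_lit 0x109) (nat_lit 1) (p (nat_lit 0x101) (nat_lit 0) (p (nat_lit 0x111) (nat_lit 0) (p (nat_lit 0xd1) (nat_lit 1) (p (nat_lit 0x89) (nat_lit 0) (p (nat_lit 0x41) (nat_lit 0) (p (nat_lit 0x10a090b098a9a) (nat_lit 0) (p (nat_lit 0x89888a890a1a) (nat_lit 0) (p (nat_lit 0x109080a08879a) (nat_lit 0) (p (nat_lit 0x88878988071a) (nat_lit 0) (p (nat_lit 0x8000080000000080907888a) (nat_lit 0) (p (nat_lit 0x8000080000000078887060a) (nat_lit 0) (p (nat_lit 0x10608068782) (nat_lit 0) (p (nat_lit 0x8587860702) (nat_lit 0) (p (nat_lit 0x10507058482) (nat_lit 0) (p (nat_lit 0x8486850402) (nat_lit 0) (p (nat_lit 0x160004) (nat_lit 0) (p (nat_lit 0x50612) (nat_lit 0) (p (nat_lit 0x38592) (nat_lit 0) (p (nat_lit 0x40492) (nat_lit 0) (p (nat_lit 0x28412) (nat_lit 0) (p (nat_lit 0x30292) (nat_lit 0) (p (nat_lit 0x18212) (nat_lit 0) (p (nat_lit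 0x20092) (nat_lit 0) (p (nat_lit 0x8012) (nat_lit 0) pn))))))))))))))))))))))))) :=
  Cl.node (nat_lit 0x20000c) (nat_lit 2) (by decide +kernel) (ClAll.succ (ClAll.succ ClAll.zero s27) n22)

def n47 : Cl (O (nat_lit 6)) (R (nat_lit 104577))
    (p (nat_lit 0x81) (nat_lit 0) (p (nat_lit 0x101) (nat_lit 1) (p (nat_lit 0x111) (nat_lit 0) (p (nat_lit 0xd1) (nat_lit 1) (p (nat_lit 0x89) (nat_lit 0) (p (nat_lit 0x41) (nat_lit 0) (p (nat_lit 0x10a090b098a9a) (nat_lit 0) (p (nat_lit 0x89888a890a1a) (nat_lit 0) (p (nat_lit 0x109080a08879a) (nat_lit 0) (p (nat_lit 0x88878988071a) (nat_lit 0) (p (nat_lit 0x8000080000000080907888a) (nat_lit 0) (p (nat_lit 0x8000080000000078887060a) (nat_lit 0) (p (nat_lit 0x10608068782) (nat_lit 0) (p (nat_lit 0x8587860702) (nat_lit 0) (p (nat_lit 0x10507058482) (nat_lit 0) (p (nat_lit 0x8486850402) (nat_lit 0) (p (nat_lit 0x160004) (nat_lit 0) (p (nat_lit 0x50612)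 (nat_lit 0) (p (nat_lit 0x38592) (nat_lit 0) (p (nat_lit 0x40492) (nat_lit 0) (p (nat_lit 0x28412) (nat_lit 0) (p (nat_lit 0x30292) (nat_lit 0) (p (nat_lit 0x18212) (nat_lit 0) (p (nat_lit 0x20092) (nat_lit 0) (p (nat_lit 0x8012) (nat_lit 0) pn))))))))))))))))))))))))) :=
  Cl.node (nat_lit 0x20000c) (nat_lit 2) (by decide +kernel) (ClAll.succ (ClAll.succ ClAll.zero s31) s32)

def n48 : Cl (O (nat_lit 6)) (R (nat_lit 104577))
    (p (nat_lit 0x81) (nat_lit 1) (p (nat_lit 0x101) (nat_lit 1) (p (nat_lit 0x111) (nat_lit 0) (p (nat_lit 0xd1) (nat_lit 1) (p (nat_lit 0x89) (nat_lit 0) (p (nat_lit 0x41) (nat_lit 0) (p (nat_lit 0x10a090b098a9a) (nat_lit 0) (p (nat_lit 0x89888a890a1a) (nat_lit 0) (p (nat_lit 0x109080a08879a) (nat_lit 0) (p (nat_lit 0x88878988071a) (nat_lit 0) (p (nat_lit 0x8000080000000080907888a) (nat_lit 0) (p (nat_lit 0x8000080000000078887060a) (nat_lit 0) (p (nat_lit 0x10608068782)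 (nat_lit 0) (p (nat_lit 0x8587860702) (nat_lit 0) (p (nat_lit 0x10507058482) (nat_lit 0) (p (nat_lit 0x8486850402) (nat_lit 0) (p (nat_lit 0x160004) (nat_lit 0) (p (nat_lit 0x50612) (nat_lit 0) (p (nat_lit 0x38592) (nat_lit 0) (p (nat_lit 0x40492) (nat_lit 0) (p (nat_lit 0x28412) (nat_lit 0) (p (nat_lit 0x30292) (nat_lit 0) (p (nat_lit 0x18212) (nat_lit 0) (p (nat_lit 0x20092) (nat_lit 0) (p (nat_lit 0x8012) (nat_lit 0) pn))))))))))))))))))))))))) :=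
  Cl.node (nat_lit 0xc1) (nat_lit 2) (by decide +kernel) (ClAll.succ (ClAll.succ ClAll.zero n23) s35)

def n49 : Cl (O (nat_lit 6)) (R (nat_lit 104577))
    (p (nat_lit 0x109) (nat_lit 0) (p (nat_lit 0x101) (nat_lit 0) (p (nat_lit 0x119) (nat_lit 0) (p (nat_lit 0xc9) (nat_lit 0) (p (nat_lit 0x89) (nat_lit 1) (p (nat_lit 0x41) (nat_lit 0) (p (nat_lit 0x10a090b098a9a) (nat_lit 0) (p (nat_lit 0x89888a890a1a) (nat_lit 0) (p (nat_lit 0x109080a08879a) (nat_lit 0) (p (nat_lit 0x88878988071a) (nat_lit 0) (p (nat_lit 0x8000080000000080907888a) (nat_lit 0) (p (nat_lit 0x8000080000000078887060a) (nat_lit 0) (p (nat_lit 0x10608068782) (nat_lit 0) (p (nat_lit 0x8587860702) (nat_lit 0) (p (nat_lit 0x10507058482) (nat_lit 0) (p (nat_lit 0x8486850402) (nat_lit 0) (p (nat_lit 0x160004) (nat_lit 0) (p (nat_lit 0x50612) (nat_lit 0) (p (nat_lit 0x38592) (nat_lit 0) (p (nat_lit 0x40492) (nat_lit 0) (p (nat_lit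 0x28412) (nat_lit 0) (p (nat_lit 0x30292) (nat_lit 0) (p (nat_lit 0x18212) (nat_lit 0) (p (nat_lit 0x20092) (nat_lit 0) (p (nat_lit 0x8012) (nat_lit 0) pn))))))))))))))))))))))))) :=
  Cl.node (nat_lit 0x111) (nat_lit 2) (by decide +kernel) (ClAll.succ (ClAll.succ ClAll.zero s38) n24)

def n50 : Cl (O (nat_lit 6)) (R (nat_lit 104577))
    (p (nat_lit 0x109) (nat_lit 1) (p (nat_lit 0x101) (nat_lit 0) (p (nat_lit 0x119) (nat_lit 0) (p (nat_lit 0xc9) (nat_lit 0) (p (nat_lit 0x89) (nat_lit 1) (p (nat_lit 0x41) (nat_lit 0) (p (nat_lit 0x10a090b098a9a) (nat_lit 0) (p (nat_lit 0x89888a890a1a) (nat_lit 0) (p (nat_lit 0x109080a08879a) (nat_lit 0) (p (nat_lit 0x88878988071a) (nat_lit 0) (p (nat_lit 0x8000080000000080907888a) (nat_lit 0) (p (nat_lit 0x8000080000000078887060a) (nat_lit 0) (p (nat_lit 0x10608068782) (nat_lit 0) (p (nat_lit 0x8587860702) (nat_lit 0) (p (nat_lit 0x10507058482) (nat_lit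 0) (p (nat_lit 0x8486850402) (nat_lit 0) (p (nat_lit 0x160004) (nat_lit 0) (p (nat_lit 0x50612) (nat_lit 0) (p (nat_lit 0x38592) (nat_lit 0) (p (nat_lit 0x40492) (nat_lit 0) (p (nat_lit 0x28412) (nat_lit 0) (p (nat_lit 0x30292) (nat_lit 0) (p (nat_lit 0x18212) (nat_lit 0) (p (nat_lit 0x20092) (nat_lit 0) (p (nat_lit 0x8012) (nat_lit 0) pn))))))))))))))))))))))))) :=
  Cl.node (nat_lit 0xd1) (nat_lit 2) (by decide +kernel) (ClAll.succ (ClAll.succ ClAll.zero n25) n26)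

def n51 : Cl (O (nat_lit 6)) (R (nat_lit 104577))
    (p (nat_lit 0xc1) (nat_lit 0) (p (nat_lit 0x101) (nat_lit 1) (p (nat_lit 0x119) (nat_lit 0) (p (nat_lit 0xc9) (nat_lit 0) (p (nat_lit 0x89) (nat_lit 1) (p (nat_lit 0x41) (nat_lit 0) (p (nat_lit 0x10a090b098a9a) (nat_lit 0) (p (nat_lit 0x89888a890a1a) (nat_lit 0) (p (nat_lit 0x109080a08879a) (nat_lit 0) (p (nat_lit 0x88878988071a) (nat_lit 0) (p (nat_lit 0x8000080000000080907888a) (nat_lit 0) (p (nat_lit 0x8000080000000078887060a) (nat_lit 0) (p (nat_lit 0x10608068782) (nat_lit 0) (p (nat_lit 0x8587860702) (nat_lit 0) (p (nat_lit 0x10507058482) (nat_lit 0) (p (nat_lit 0x8486850402) (nat_lit 0) (p (nat_lit 0x160004) (nat_lit 0) (p (nat_lit 0x50612) (nat_lit 0) (p (nat_lit 0x38592) (nat_lit 0) (p (nat_lit 0x40492) (nat_lit 0) (p (nat_lit 0x28412) (nat_lit 0) (p (nat_lit 0x30292) (nat_lit 0) (p (nat_lit 0x18212) (nat_lit 0) (p (nat_lit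 0x20092) (nat_lit 0) (p (nat_lit 0x8012) (nat_lit 0) pn))))))))))))))))))))))))) :=
  Cl.node (nat_lit 0xd1) (nat_lit 2) (by decide +kernel) (ClAll.succ (ClAll.succ ClAll.zero n27) s51)

def n52 : Cl (O (nat_lit 6)) (R (nat_lit 104577))
    (p (nat_lit 0xd1) (nat_lit 1) (p (nat_lit 0xc1) (nat_lit 0) (p (nat_lit 0x119) (nat_lit 1) (p (nat_lit 0xc9) (nat_lit 0) (p (nat_lit 0x89) (nat_lit 1) (p (nat_lit 0x41) (nat_lit 0) (p (nat_lit 0x10a090b098a9a) (nat_lit 0) (p (nat_lit 0x89888a890a1a) (nat_lit 0) (p (nat_lit 0x109080a08879a) (nat_lit 0) (p (nat_lit 0x88878988071a) (nat_lit 0) (p (nat_lit 0x8000080000000080907888a) (nat_lit 0) (p (nat_lit 0x8000080000000078887060a) (nat_lit 0) (p (nat_lit 0x10608068782) (nat_lit 0) (p (nat_lit 0x8587860702) (nat_lit 0) (p (nat_lit 0x10507058482) (nat_lit 0) (p (nat_lit 0x8486850402) (nat_lit 0) (p (nat_lit 0x160004) (nat_lit 0) (p (nat_lit 0x50612) (nat_lit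 0) (p (nat_lit 0x38592) (nat_lit 0) (p (nat_lit 0x40492) (nat_lit 0) (p (nat_lit 0x28412) (nat_lit 0) (p (nat_lit 0x30292) (nat_lit 0) (p (nat_lit 0x18212) (nat_lit 0) (p (nat_lit 0x20092) (nat_lit 0) (p (nat_lit 0x8012) (nat_lit 0) pn))))))))))))))))))))))))) :=
  Cl.node (nat_lit 0x111) (nat_lit 2) (by decide +kernel) (ClAll.succ (ClAll.succ ClAll.zero s54) s55)

def n53 : Cl (O (nat_lit 6)) (R (nat_lit 104577))
    (p (nat_lit 0x101) (nat_lit 0) (p (nat_lit 0xc1) (nat_lit 1) (p (nat_lit 0x119) (nat_lit 1) (p (nat_lit 0xc9) (nat_lit 0) (p (nat_lit 0x89) (nat_lit 1) (p (nat_lit 0x41) (nat_lit 0) (p (nat_lit 0x10a090b098a9a) (nat_lit 0) (p (nat_lit 0x89888a890a1a) (nat_lit 0) (p (nat_lit 0x109080a08879a) (nat_lit 0) (p (nat_lit 0x88878988071a) (nat_lit 0) (p (nat_lit 0x8000080000000080907888a) (nat_lit 0) (p (nat_lit 0x8000080000000078887060a) (nat_lit 0) (p (nat_lit 0x10608068782) (nat_lit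 0) (p (nat_lit 0x8587860702) (nat_lit 0) (p (nat_lit 0x10507058482) (nat_lit 0) (p (nat_lit 0x8486850402) (nat_lit 0) (p (nat_lit 0x160004) (nat_lit 0) (p (nat_lit 0x50612) (nat_lit 0) (p (nat_lit 0x38592) (nat_lit 0) (p (nat_lit 0x40492) (nat_lit 0) (p (nat_lit 0x28412) (nat_lit 0) (p (nat_lit 0x30292) (nat_lit 0) (p (nat_lit 0x18212) (nat_lit 0) (p (nat_lit 0x20092) (nat_lit 0) (p (nat_lit 0x8012) (nat_lit 0) pn))))))))))))))))))))))))) :=
  Cl.node (nat_lit 0x111) (nat_lit 2) (by decide +kernel) (ClAll.succ (ClAll.succ ClAll.zero n28) n29)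

def n54 : Cl (O (nat_lit 6)) (R (nat_lit 104577))
    (p (nat_lit 0x109) (nat_lit 1) (p (nat_lit 0x101) (nat_lit 0) (p (nat_lit 0x119) (nat_lit 0) (p (nat_lit 0xd1) (nat_lit 0) (p (nat_lit 0x81) (nat_lit 0) (p (nat_lit 0x41) (nat_lit 1) (p (nat_lit 0x10a090b098a9a) (nat_lit 0) (p (nat_lit 0x89888a890a1a) (nat_lit 0) (p (nat_lit 0x109080a08879a) (nat_lit 0) (p (nat_lit 0x88878988071a) (nat_lit 0) (p (nat_lit 0x8000080000000080907888a) (nat_lit 0) (p (nat_lit 0x8000080000000078887060a) (nat_lit 0) (p (nat_lit 0x10608068782) (nat_lit 0) (p (nat_lit 0x8587860702) (nat_lit 0) (p (nat_lit 0x10507058482) (nat_lit 0) (p (nat_lit 0x8486850402) (nat_lit 0) (p (nat_lit 0x160004) (nat_lit 0) (p (nat_lit 0x50612) (nat_lit 0) (p (nat_lit 0x38592) (nat_lit 0) (p (nat_lit 0x40492) (nat_lit 0) (p (nat_lit 0x28412) (nat_lit 0) (p (nat_lit 0x30292) (nat_lit 0) (p (nat_lit 0x18212) (nat_lit 0) (p (nat_lit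 0x20092) (nat_lit 0) (p (nat_lit 0x8012) (nat_lit 0) pn))))))))))))))))))))))))) :=
  Cl.node (nat_lit 0x89) (nat_lit 2) (by decide +kernel) (ClAll.succ (ClAll.succ ClAll.zero n30) s69)

def n55 : Cl (O (nat_lit 6)) (R (nat_lit 104577))
    (p (nat_lit 0xc1) (nat_lit 0) (p (nat_lit 0x101) (nat_lit 1) (p (nat_lit 0x119) (nat_lit 0) (p (nat_lit 0xd1) (nat_lit 0) (p (nat_lit 0x81) (nat_lit 0) (p (nat_lit 0x41) (nat_lit 1) (p (nat_lit 0x10a090b098a9a) (nat_lit 0) (p (nat_lit 0x89888a890a1a) (nat_lit 0) (p (nat_lit 0x109080a08879a) (nat_lit 0) (p (nat_lit 0x88878988071a) (nat_lit 0) (p (nat_lit 0x8000080000000080907888a) (nat_lit 0) (p (nat_lit 0x8000080000000078887060a) (nat_lit 0) (p (nat_lit 0x10608068782) (nat_lit 0) (p (nat_lit 0x8587860702) (nat_lit 0) (p (nat_lit 0x10507058482) (nat_lit 0) (p (nat_lit 0x8486850402) (nat_lit 0) (p (nat_lit 0x160004) (nat_lit 0) (p (nat_lit 0x50612) (nat_lit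 0) (p (nat_lit 0x38592) (nat_lit 0) (p (nat_lit 0x40492) (nat_lit 0) (p (nat_lit 0x28412) (nat_lit 0) (p (nat_lit 0x30292) (nat_lit 0) (p (nat_lit 0x18212) (nat_lit 0) (p (nat_lit 0x20092) (nat_lit 0) (p (nat_lit 0x8012) (nat_lit 0) pn))))))))))))))))))))))))) :=
  Cl.node (nat_lit 0x89) (nat_lit 2) (by decide +kernel) (ClAll.succ (ClAll.succ ClAll.zero s70) n31)

def n56 : Cl (O (nat_lit 6)) (R (nat_lit 104577))
    (p (nat_lit 0xc1) (nat_lit 1) (p (nat_lit 0x101) (nat_lit 1) (p (nat_lit 0x119) (nat_lit 0) (p (nat_lit 0xd1) (nat_lit 0) (p (nat_lit 0x81) (nat_lit 0) (p (nat_lit 0x41) (nat_lit 1) (p (nat_lit 0x10a090b098a9a) (nat_lit 0) (p (nat_lit 0x89888a890a1a) (nat_lit 0) (p (nat_lit 0x109080a08879a) (nat_lit 0) (p (nat_lit 0x88878988071a) (nat_lit 0) (p (nat_lit 0x8000080000000080907888a) (nat_lit 0) (p (nat_lit 0x8000080000000078887060a) (nat_lit 0) (p (nat_lit 0x10608068782) (nat_lit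 0) (p (nat_lit 0x8587860702) (nat_lit 0) (p (nat_lit 0x10507058482) (nat_lit 0) (p (nat_lit 0x8486850402) (nat_lit 0) (p (nat_lit 0x160004) (nat_lit 0) (p (nat_lit 0x50612) (nat_lit 0) (p (nat_lit 0x38592) (nat_lit 0) (p (nat_lit 0x40492) (nat_lit 0) (p (nat_lit 0x28412) (nat_lit 0) (p (nat_lit 0x30292) (nat_lit 0) (p (nat_lit 0x18212) (nat_lit 0) (p (nat_lit 0x20092) (nat_lit 0) (p (nat_lit 0x8012) (nat_lit 0) pn))))))))))))))))))))))))) :=
  Cl.node (nat_lit 0x89) (nat_lit 2) (by decide +kernel) (ClAll.succ (ClAll.succ ClAll.zero s73) s74)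

def n57 : Cl (O (nat_lit 6)) (R (nat_lit 104577))
    (p (nat_lit 0xc9) (nat_lit 1) (p (nat_lit 0xc1) (nat_lit 0) (p (nat_lit 0x119) (nat_lit 1) (p (nat_lit 0xd1) (nat_lit 0) (p (nat_lit 0x81) (nat_lit 0) (p (nat_lit 0x41) (nat_lit 1) (p (nat_lit 0x10a090b098a9a) (nat_lit 0) (p (nat_lit 0x89888a890a1a) (nat_lit 0) (p (nat_lit 0x109080a08879a) (nat_lit 0) (p (nat_lit 0x88878988071a) (nat_lit 0) (p (nat_lit 0x8000080000000080907888a) (nat_lit 0) (p (nat_lit 0x8000080000000078887060a) (nat_lit 0) (p (nat_lit 0x10608068782) (nat_lit 0) (p (nat_lit 0x8587860702) (nat_lit 0) (p (nat_lit 0x10507058482) (nat_lit 0) (p (nat_lit 0x8486850402) (nat_lit 0) (p (nat_lit 0x160004) (nat_lit 0) (p (nat_lit 0x50612) (nat_lit 0) (p (nat_lit 0x38592) (nat_lit 0) (p (nat_lit 0x40492) (nat_lit 0) (p (nat_lit 0x28412) (nat_lit 0) (p (nat_lit 0x30292) (nat_lit 0) (p (nat_lit 0x18212) (nat_lit 0) (p (nat_lit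 0x20092) (nat_lit 0) (p (nat_lit 0x8012) (nat_lit 0) pn))))))))))))))))))))))))) :=
  Cl.node (nat_lit 0x89) (nat_lit 2) (by decide +kernel) (ClAll.succ (ClAll.succ ClAll.zero s76) n32)

def n58 : Cl (O (nat_lit 6)) (R (nat_lit 104577))
    (p (nat_lit 0x101) (nat_lit 0) (p (nat_lit 0xc1) (nat_lit 1) (p (nat_lit 0x119) (nat_lit 1) (p (nat_lit 0xd1) (nat_lit 0) (p (nat_lit 0x81) (nat_lit 0) (p (nat_lit 0x41) (nat_lit 1) (p (nat_lit 0x10a090b098a9a) (nat_lit 0) (p (nat_lit 0x89888a890a1a) (nat_lit 0) (p (nat_lit 0x109080a08879a) (nat_lit 0) (p (nat_lit 0x88878988071a) (nat_lit 0) (p (nat_lit 0x8000080000000080907888a) (nat_lit 0) (p (nat_lit 0x8000080000000078887060a) (nat_lit 0) (p (nat_lit 0x10608068782) (nat_lit 0) (p (nat_lit 0x8587860702) (nat_lit 0) (p (nat_lit 0x10507058482) (nat_lit 0) (p (nat_lit 0x8486850402) (nat_lit 0) (p (nat_lit 0x160004) (nat_lit 0) (p (nat_lit 0x50612) (nat_lit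 0) (p (nat_lit 0x38592) (nat_lit 0) (p (nat_lit 0x40492) (nat_lit 0) (p (nat_lit 0x28412) (nat_lit 0) (p (nat_lit 0x30292) (nat_lit 0) (p (nat_lit 0x18212) (nat_lit 0) (p (nat_lit 0x20092) (nat_lit 0) (p (nat_lit 0x8012) (nat_lit 0) pn))))))))))))))))))))))))) :=
  Cl.node (nat_lit 0x89) (nat_lit 2) (by decide +kernel) (ClAll.succ (ClAll.succ ClAll.zero s79) n33)

def n59 : Cl (O (nat_lit 6)) (R (nat_lit 104577))
    (p (nat_lit 0x101) (nat_lit 1) (p (nat_lit 0xc1) (nat_lit 1) (p (nat_lit 0x119) (nat_lit 1) (p (nat_lit 0xd1) (nat_lit 0) (p (nat_lit 0x81) (nat_lit 0) (p (nat_lit 0x41) (nat_lit 1) (p (nat_lit 0x10a090b098a9a) (nat_lit 0) (p (nat_lit 0x89888a890a1a) (nat_lit 0) (p (nat_lit 0x109080a08879a) (nat_lit 0) (p (nat_lit 0x88878988071a) (nat_lit 0) (p (nat_lit 0x8000080000000080907888a) (nat_lit 0) (p (nat_lit 0x8000080000000078887060a) (nat_lit 0) (p (nat_lit 0x10608068782) (nat_lit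 0) (p (nat_lit 0x8587860702) (nat_lit 0) (p (nat_lit 0x10507058482) (nat_lit 0) (p (nat_lit 0x8486850402) (nat_lit 0) (p (nat_lit 0x160004) (nat_lit 0) (p (nat_lit 0x50612) (nat_lit 0) (p (nat_lit 0x38592) (nat_lit 0) (p (nat_lit 0x40492) (nat_lit 0) (p (nat_lit 0x28412) (nat_lit 0) (p (nat_lit 0x30292) (nat_lit 0) (p (nat_lit 0x18212) (nat_lit 0) (p (nat_lit 0x20092) (nat_lit 0) (p (nat_lit 0x8012) (nat_lit 0) pn))))))))))))))))))))))))) :=
  Cl.node (nat_lit 0x89) (nat_lit 2) (by decide +kernel) (ClAll.succ (ClAll.succ ClAll.zero s83) s84)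

def n60 : Cl (O (nat_lit 6)) (R (nat_lit 104577))
    (p (nat_lit 0x109) (nat_lit 1) (p (nat_lit 0x101) (nat_lit 0) (p (nat_lit 0x111) (nat_lit 0) (p (nat_lit 0xd1) (nat_lit 1) (p (nat_lit 0x81) (nat_lit 0) (p (nat_lit 0x41) (nat_lit 1) (p (nat_lit 0x10a090b098a9a) (nat_lit 0) (p (nat_lit 0x89888a890a1a) (nat_lit 0) (p (nat_lit 0x109080a08879a) (nat_lit 0) (p (nat_lit 0x88878988071a) (nat_lit 0) (p (nat_lit 0x8000080000000080907888a) (nat_lit 0) (p (nat_lit 0x8000080000000078887060a) (nat_lit 0) (p (nat_lit 0x10608068782) (nat_lit 0) (p (nat_lit 0x8587860702) (nat_lit 0) (p (nat_lit 0x10507058482) (nat_lit 0) (p (nat_lit 0x8486850402) (nat_lit 0) (p (nat_lit 0x160004) (nat_lit 0) (p (nat_lit 0x50612) (nat_lit 0) (p (nat_lit 0x38592) (nat_lit 0) (p (nat_lit 0x40492) (nat_lit 0) (p (nat_lit 0x28412) (nat_lit 0) (p (nat_lit 0x30292) (nat_lit 0) (p (nat_lit 0x18212) (nat_lit 0) (p (nat_lit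 0x20092) (nat_lit 0) (p (nat_lit 0x8012) (nat_lit 0) pn))))))))))))))))))))))))) :=
  Cl.node (nat_lit 0x89) (nat_lit 2) (by decide +kernel) (ClAll.succ (ClAll.succ ClAll.zero s86) n34)

def n61 : Cl (O (nat_lit 6)) (R (nat_lit 104577))
    (p (nat_lit 0x89) (nat_lit 0) (p (nat_lit 0x101) (nat_lit 1) (p (nat_lit 0x111) (nat_lit 0) (p (nat_lit 0xd1) (nat_lit 1) (p (nat_lit 0x81) (nat_lit 0) (p (nat_lit 0x41) (nat_lit 1) (p (nat_lit 0x10a090b098a9a) (nat_lit 0) (p (nat_lit 0x89888a890a1a) (nat_lit 0) (p (nat_lit 0x109080a08879a) (nat_lit 0) (p (nat_lit 0x88878988071a) (nat_lit 0) (p (nat_lit 0x8000080000000080907888a) (nat_lit 0) (p (nat_lit 0x8000080000000078887060a) (nat_lit 0) (p (nat_lit 0x10608068782) (nat_lit 0) (p (nat_lit 0x8587860702) (nat_lit 0) (p (nat_lit 0x10507058482) (nat_lit 0) (p (nat_lit 0x8486850402) (nat_lit 0) (p (nat_lit 0x160004) (nat_lit 0) (p (nat_lit 0x50612) (nat_lit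 0) (p (nat_lit 0x38592) (nat_lit 0) (p (nat_lit 0x40492) (nat_lit 0) (p (nat_lit 0x28412) (nat_lit 0) (p (nat_lit 0x30292) (nat_lit 0) (p (nat_lit 0x18212) (nat_lit 0) (p (nat_lit 0x20092) (nat_lit 0) (p (nat_lit 0x8012) (nat_lit 0) pn))))))))))))))))))))))))) :=
  Cl.node (nat_lit 0x20000c) (nat_lit 2) (by decide +kernel) (ClAll.succ (ClAll.succ ClAll.zero s90) s91)

def n62 : Cl (O (nat_lit 6)) (R (nat_lit 104577))
    (p (nat_lit 0x89) (nat_lit 1) (p (nat_lit 0x101) (nat_lit 1) (p (nat_lit 0x111) (nat_lit 0) (p (nat_lit 0xd1) (nat_lit 1) (p (nat_lit 0x81) (nat_lit 0) (p (nat_lit 0x41) (nat_lit 1) (p (nat_lit 0x10a090b098a9a) (nat_lit 0) (p (nat_lit 0x89888a890a1a) (nat_lit 0) (p (nat_lit 0x109080a08879a) (nat_lit 0) (p (nat_lit 0x88878988071a) (nat_lit 0) (p (nat_lit 0x8000080000000080907888a) (nat_lit 0) (p (nat_lit 0x8000080000000078887060a) (nat_lit 0) (p (nat_lit 0x10608068782)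 (nat_lit 0) (p (nat_lit 0x8587860702) (nat_lit 0) (p (nat_lit 0x10507058482) (nat_lit 0) (p (nat_lit 0x8486850402) (nat_lit 0) (p (nat_lit 0x160004) (nat_lit 0) (p (nat_lit 0x50612) (nat_lit 0) (p (nat_lit 0x38592) (nat_lit 0) (p (nat_lit 0x40492) (nat_lit 0) (p (nat_lit 0x28412) (nat_lit 0) (p (nat_lit 0x30292) (nat_lit 0) (p (nat_lit 0x18212) (nat_lit 0) (p (nat_lit 0x20092) (nat_lit 0) (p (nat_lit 0x8012) (nat_lit 0) pn))))))))))))))))))))))))) :=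
  Cl.node (nat_lit 0xc9) (nat_lit 2) (by decide +kernel) (ClAll.succ (ClAll.succ ClAll.zero n35) s94)

def n63 : Cl (O (nat_lit 6)) (R (nat_lit 104577))
    (p (nat_lit 0x109) (nat_lit 0) (p (nat_lit 0x101) (nat_lit 0) (p (nat_lit 0x119) (nat_lit 0) (p (nat_lit 0xc1) (nat_lit 0) (p (nat_lit 0x81) (nat_lit 1) (p (nat_lit 0x41) (nat_lit 1) (p (nat_lit 0x10a090b098a9a) (nat_lit 0) (p (nat_lit 0x89888a890a1a) (nat_lit 0) (p (nat_lit 0x109080a08879a) (nat_lit 0) (p (nat_lit 0x88878988071a) (nat_lit 0) (p (nat_lit 0x8000080000000080907888a) (nat_lit 0) (p (nat_lit 0x8000080000000078887060a) (nat_lit 0) (p (nat_lit 0x10608068782) (nat_lit 0) (p (nat_lit 0x8587860702) (nat_lit 0) (p (nat_lit 0x10507058482) (nat_lit 0) (p (nat_lit 0x8486850402) (nat_lit 0) (p (nat_lit 0x160004) (nat_lit 0) (p (nat_lit 0x50612) (nat_lit 0) (p (nat_lit 0x38592) (nat_lit 0) (p (nat_lit 0x40492) (nat_lit 0) (p (nat_lit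 0x28412) (nat_lit 0) (p (nat_lit 0x30292) (nat_lit 0) (p (nat_lit 0x18212) (nat_lit 0) (p (nat_lit 0x20092) (nat_lit 0) (p (nat_lit 0x8012) (nat_lit 0) pn))))))))))))))))))))))))) :=
  Cl.node (nat_lit 0x111) (nat_lit 2) (by decide +kernel) (ClAll.succ (ClAll.succ ClAll.zero s96) n36)

def n64 : Cl (O (nat_lit 6)) (R (nat_lit 104577))
    (p (nat_lit 0x109) (nat_lit 1) (p (nat_lit 0x101) (nat_lit 0) (p (nat_lit 0x119) (nat_lit 0) (p (nat_lit 0xc1) (nat_lit 0) (p (nat_lit 0x81) (nat_lit 1) (p (nat_lit 0x41) (nat_lit 1) (p (nat_lit 0x10a090b098a9a) (nat_lit 0) (p (nat_lit 0x89888a890a1a) (nat_lit 0) (p (nat_lit 0x109080a08879a) (nat_lit 0) (p (nat_lit 0x88878988071a) (nat_lit 0) (p (nat_lit 0x8000080000000080907888a) (nat_lit 0) (p (nat_lit 0x8000080000000078887060a) (nat_lit 0) (p (nat_lit 0x10608068782) (nat_lit 0) (p (nat_lit 0x8587860702) (nat_lit 0) (p (nat_lit 0x10507058482) (nat_lit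 0) (p (nat_lit 0x8486850402) (nat_lit 0) (p (nat_lit 0x160004) (nat_lit 0) (p (nat_lit 0x50612) (nat_lit 0) (p (nat_lit 0x38592) (nat_lit 0) (p (nat_lit 0x40492) (nat_lit 0) (p (nat_lit 0x28412) (nat_lit 0) (p (nat_lit 0x30292) (nat_lit 0) (p (nat_lit 0x18212) (nat_lit 0) (p (nat_lit 0x20092) (nat_lit 0) (p (nat_lit 0x8012) (nat_lit 0) pn))))))))))))))))))))))))) :=
  Cl.node (nat_lit 0xc9) (nat_lit 2) (by decide +kernel) (ClAll.succ (ClAll.succ ClAll.zero s100) s101)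

def n65 : Cl (O (nat_lit 6)) (R (nat_lit 104577))
    (p (nat_lit 0xc9) (nat_lit 0) (p (nat_lit 0x101) (nat_lit 1) (p (nat_lit 0x119) (nat_lit 0) (p (nat_lit 0xc1) (nat_lit 0) (p (nat_lit 0x81) (nat_lit 1) (p (nat_lit 0x41) (nat_lit 1) (p (nat_lit 0x10a090b098a9a) (nat_lit 0) (p (nat_lit 0x89888a890a1a) (nat_lit 0) (p (nat_lit 0x109080a08879a) (nat_lit 0) (p (nat_lit 0x88878988071a) (nat_lit 0) (p (nat_lit 0x8000080000000080907888a) (nat_lit 0) (p (nat_lit 0x8000080000000078887060a) (nat_lit 0) (p (nat_lit 0x10608068782) (nat_lit 0) (p (nat_lit 0x8587860702) (nat_lit 0) (p (nat_lit 0x10507058482) (nat_lit 0) (p (nat_lit 0x8486850402) (nat_lit 0) (p (nat_lit 0x160004) (nat_lit 0) (p (nat_lit 0x50612) (nat_lit 0) (p (nat_lit 0x38592) (nat_lit 0) (p (nat_lit 0x40492) (nat_lit 0) (p (nat_lit 0x28412) (nat_lit 0) (p (nat_lit 0x30292) (nat_lit 0) (p (nat_lit 0x18212) (nat_lit 0) (p (nat_lit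 0x20092) (nat_lit 0) (p (nat_lit 0x8012) (nat_lit 0) pn))))))))))))))))))))))))) :=
  Cl.node (nat_lit 0xd1) (nat_lit 2) (by decide +kernel) (ClAll.succ (ClAll.succ ClAll.zero n37) n38)

def n66 : Cl (O (nat_lit 6)) (R (nat_lit 104577))
    (p (nat_lit 0x109) (nat_lit 0) (p (nat_lit 0xc9) (nat_lit 1) (p (nat_lit 0x119) (nat_lit 1) (p (nat_lit 0xc1) (nat_lit 0) (p (nat_lit 0x81) (nat_lit 1) (p (nat_lit 0x41) (nat_lit 1) (p (nat_lit 0x10a090b098a9a) (nat_lit 0) (p (nat_lit 0x89888a890a1a) (nat_lit 0) (p (nat_lit 0x109080a08879a) (nat_lit 0) (p (nat_lit 0x88878988071a) (nat_lit 0) (p (nat_lit 0x8000080000000080907888a) (nat_lit 0) (p (nat_lit 0x8000080000000078887060a) (nat_lit 0) (p (nat_lit 0x10608068782) (nat_lit 0) (p (nat_lit 0x8587860702) (nat_lit 0) (p (nat_lit 0x10507058482) (nat_lit 0) (p (nat_lit 0x8486850402) (nat_lit 0) (p (nat_lit 0x160004) (nat_lit 0) (p (nat_lit 0x50612) (nat_lit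 0) (p (nat_lit 0x38592) (nat_lit 0) (p (nat_lit 0x40492) (nat_lit 0) (p (nat_lit 0x28412) (nat_lit 0) (p (nat_lit 0x30292) (nat_lit 0) (p (nat_lit 0x18212) (nat_lit 0) (p (nat_lit 0x20092) (nat_lit 0) (p (nat_lit 0x8012) (nat_lit 0) pn))))))))))))))))))))))))) :=
  Cl.node (nat_lit 0x111) (nat_lit 2) (by decide +kernel) (ClAll.succ (ClAll.succ ClAll.zero s110) n39)

def n67 : Cl (O (nat_lit 6)) (R (nat_lit 104577))
    (p (nat_lit 0x101) (nat_lit 0) (p (nat_lit 0x119) (nat_lit 0) (p (nat_lit 0xd1) (nat_lit 0) (p (nat_lit 0x89) (nat_lit 0) (p (nat_lit 0x41) (nat_lit 0) (p (nat_lit 0x10a090b098a9a) (nat_lit 0) (p (nat_lit 0x89888a890a1a) (nat_lit 0) (p (nat_lit 0x109080a08879a) (nat_lit 0) (p (nat_lit 0x88878988071a) (nat_lit 0) (p (nat_lit 0x8000080000000080907888a) (nat_lit 0) (p (nat_lit 0x8000080000000078887060a) (nat_lit 0) (p (nat_lit 0x10608068782) (nat_lit 0) (p (nat_lit 0x8587860702)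 (nat_lit 0) (p (nat_lit 0x10507058482) (nat_lit 0) (p (nat_lit 0x8486850402) (nat_lit 0) (p (nat_lit 0x160004) (nat_lit 0) (p (nat_lit 0x50612) (nat_lit 0) (p (nat_lit 0x38592) (nat_lit 0) (p (nat_lit 0x40492) (nat_lit 0) (p (nat_lit 0x28412) (nat_lit 0) (p (nat_lit 0x30292) (nat_lit 0) (p (nat_lit 0x18212) (nat_lit 0) (p (nat_lit 0x20092) (nat_lit 0) (p (nat_lit 0x8012) (nat_lit 0) pn)))))))))))))))))))))))) :=
  Cl.node (nat_lit 0x109) (nat_lit 2) (by decide +kernel) (ClAll.succ (ClAll.succ ClAll.zero s0) n40)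

def n68 : Cl (O (nat_lit 6)) (R (nat_lit 104577))
    (p (nat_lit 0x101) (nat_lit 1) (p (nat_lit 0x119) (nat_lit 0) (p (nat_lit 0xd1) (nat_lit 0) (p (nat_lit 0x89) (nat_lit 0) (p (nat_lit 0x41) (nat_lit 0) (p (nat_lit 0x10a090b098a9a) (nat_lit 0) (p (nat_lit 0x89888a890a1a) (nat_lit 0) (p (nat_lit 0x109080a08879a) (nat_lit 0) (p (nat_lit 0x88878988071a) (nat_lit 0) (p (nat_lit 0x8000080000000080907888a) (nat_lit 0) (p (nat_lit 0x8000080000000078887060a) (nat_lit 0) (p (nat_lit 0x10608068782) (nat_lit 0) (p (nat_lit 0x8587860702) (nat_lit 0) (p (nat_lit 0x10507058482) (nat_lit 0) (p (nat_lit 0x8486850402) (nat_lit 0) (p (nat_lit 0x160004) (nat_lit 0) (p (nat_lit 0x50612) (nat_lit 0) (p (nat_lit 0x38592) (nat_lit 0) (p (nat_lit 0x40492) (nat_lit 0) (p (nat_lit 0x28412) (nat_lit 0) (p (nat_lit 0x30292) (nat_lit 0) (p (nat_lit 0x18212) (nat_lit 0) (p (nat_lit 0x20092) (nat_lit 0) (p (nat_lit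 0x8012) (nat_lit 0) pn)))))))))))))))))))))))) :=
  Cl.node (nat_lit 0x81) (nat_lit 2) (by decide +kernel) (ClAll.succ (ClAll.succ ClAll.zero n41) n42)

def n69 : Cl (O (nat_lit 6)) (R (nat_lit 104577))
    (p (nat_lit 0xc1) (nat_lit 0) (p (nat_lit 0x119) (nat_lit 1) (p (nat_lit 0xd1) (nat_lit 0) (p (nat_lit 0x89) (nat_lit 0) (p (nat_lit 0x41) (nat_lit 0) (p (nat_lit 0x10a090b098a9a) (nat_lit 0) (p (nat_lit 0x89888a890a1a) (nat_lit 0) (p (nat_lit 0x109080a08879a) (nat_lit 0) (p (nat_lit 0x88878988071a) (nat_lit 0) (p (nat_lit 0x8000080000000080907888a) (nat_lit 0) (p (nat_lit 0x8000080000000078887060a) (nat_lit 0) (p (nat_lit 0x10608068782) (nat_lit 0) (p (nat_lit 0x8587860702) (nat_lit 0) (p (nat_lit 0x10507058482) (nat_lit 0) (p (nat_lit 0x8486850402) (nat_lit 0) (p (nat_lit 0x160004) (nat_lit 0) (p (nat_lit 0x50612) (nat_lit 0) (p (nat_lit 0x38592) (nat_lit 0) (p (nat_lit 0x40492) (nat_lit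 0) (p (nat_lit 0x28412) (nat_lit 0) (p (nat_lit 0x30292) (nat_lit 0) (p (nat_lit 0x18212) (nat_lit 0) (p (nat_lit 0x20092) (nat_lit 0) (p (nat_lit 0x8012) (nat_lit 0) pn)))))))))))))))))))))))) :=
  Cl.node (nat_lit 0xc9) (nat_lit 2) (by decide +kernel) (ClAll.succ (ClAll.succ ClAll.zero s14) n43)

def n70 : Cl (O (nat_lit 6)) (R (nat_lit 104577))
    (p (nat_lit 0xc1) (nat_lit 1) (p (nat_lit 0x119) (nat_lit 1) (p (nat_lit 0xd1) (nat_lit 0) (p (nat_lit 0x89) (nat_lit 0) (p (nat_lit 0x41) (nat_lit 0) (p (nat_lit 0x10a090b098a9a) (nat_lit 0) (p (nat_lit 0x89888a890a1a) (nat_lit 0) (p (nat_lit 0x109080a08879a) (nat_lit 0) (p (nat_lit 0x88878988071a) (nat_lit 0) (p (nat_lit 0x8000080000000080907888a) (nat_lit 0) (p (nat_lit 0x8000080000000078887060a) (nat_lit 0) (p (nat_lit 0x10608068782) (nat_lit 0) (p (nat_lit 0x8587860702) (nat_lit 0) (p (nat_lit 0x10507058482) (nat_lit 0) (p (nat_lit 0x8486850402)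 (nat_lit 0) (p (nat_lit 0x160004) (nat_lit 0) (p (nat_lit 0x50612) (nat_lit 0) (p (nat_lit 0x38592) (nat_lit 0) (p (nat_lit 0x40492) (nat_lit 0) (p (nat_lit 0x28412) (nat_lit 0) (p (nat_lit 0x30292) (nat_lit 0) (p (nat_lit 0x18212) (nat_lit 0) (p (nat_lit 0x20092) (nat_lit 0) (p (nat_lit 0x8012) (nat_lit 0) pn)))))))))))))))))))))))) :=
  Cl.node (nat_lit 0x81) (nat_lit 2) (by decide +kernel) (ClAll.succ (ClAll.succ ClAll.zero n44) n45)

def n71 : Cl (O (nat_lit 6)) (R (nat_lit 104577))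
    (p (nat_lit 0x101) (nat_lit 0) (p (nat_lit 0x111) (nat_lit 0) (p (nat_lit 0xd1) (nat_lit 1) (p (nat_lit 0x89) (nat_lit 0) (p (nat_lit 0x41) (nat_lit 0) (p (nat_lit 0x10a090b098a9a) (nat_lit 0) (p (nat_lit 0x89888a890a1a) (nat_lit 0) (p (nat_lit 0x109080a08879a) (nat_lit 0) (p (nat_lit 0x88878988071a) (nat_lit 0) (p (nat_lit 0x8000080000000080907888a) (nat_lit 0) (p (nat_lit 0x8000080000000078887060a) (nat_lit 0) (p (nat_lit 0x10608068782) (nat_lit 0) (p (nat_lit 0x8587860702) (nat_lit 0) (p (nat_lit 0x10507058482) (nat_lit 0) (p (nat_lit 0x8486850402) (nat_lit 0) (p (nat_lit 0x160004) (nat_lit 0) (p (nat_lit 0x50612) (nat_lit 0) (p (nat_lit 0x38592) (nat_lit 0) (p (nat_lit 0x40492) (nat_lit 0) (p (nat_lit 0x28412) (nat_lit 0) (p (nat_lit 0x30292) (nat_lit 0) (p (nat_lit 0x18212) (nat_lit 0) (p (nat_lit 0x20092) (nat_lit 0) (p (nat_lit 0x8012) (nat_lit 0) pn))))))))))))))))))))))))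 :=
  Cl.node (nat_lit 0x109) (nat_lit 2) (by decide +kernel) (ClAll.succ (ClAll.succ ClAll.zero s26) n46)

def n72 : Cl (O (nat_lit 6)) (R (nat_lit 104577))
    (p (nat_lit 0x101) (nat_lit 1) (p (nat_lit 0x111) (nat_lit 0) (p (nat_lit 0xd1) (nat_lit 1) (p (nat_lit 0x89) (nat_lit 0) (p (nat_lit 0x41) (nat_lit 0) (p (nat_lit 0x10a090b098a9a) (nat_lit 0) (p (nat_lit 0x89888a890a1a) (nat_lit 0) (p (nat_lit 0x109080a08879a) (nat_lit 0) (p (nat_lit 0x88878988071a) (nat_lit 0) (p (nat_lit 0x8000080000000080907888a) (nat_lit 0) (p (nat_lit 0x8000080000000078887060a) (nat_lit 0) (p (nat_lit 0x10608068782) (nat_lit 0) (p (nat_lit 0x8587860702) (nat_lit 0) (p (nat_lit 0x10507058482) (nat_lit 0) (p (nat_lit 0x8486850402) (nat_lit 0) (p (nat_lit 0x160004) (nat_lit 0) (p (nat_lit 0x50612) (nat_lit 0) (p (nat_lit 0x38592) (nat_lit 0) (p (nat_lit 0x40492) (nat_lit 0) (p (nat_lit 0x28412) (nat_lit 0) (p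 (nat_lit 0x30292) (nat_lit 0) (p (nat_lit 0x18212) (nat_lit 0) (p (nat_lit 0x20092) (nat_lit 0) (p (nat_lit 0x8012) (nat_lit 0) pn)))))))))))))))))))))))) :=
  Cl.node (nat_lit 0x81) (nat_lit 2) (by decide +kernel) (ClAll.succ (ClAll.succ ClAll.zero n47) n48)

def n73 : Cl (O (nat_lit 6)) (R (nat_lit 104577))
    (p (nat_lit 0x101) (nat_lit 0) (p (nat_lit 0x119) (nat_lit 0) (p (nat_lit 0xc9) (nat_lit 0) (p (nat_lit 0x89) (nat_lit 1) (p (nat_lit 0x41) (nat_lit 0) (p (nat_lit 0x10a090b098a9a) (nat_lit 0) (p (nat_lit 0x89888a890a1a) (nat_lit 0) (p (nat_lit 0x109080a08879a) (nat_lit 0) (p (nat_lit 0x88878988071a) (nat_lit 0) (p (nat_lit 0x8000080000000080907888a) (nat_lit 0) (p (nat_lit 0x8000080000000078887060a) (nat_lit 0) (p (nat_lit 0x10608068782) (nat_lit 0) (p (nat_lit 0x8587860702) (nat_lit 0) (p (nat_lit 0x10507058482) (nat_lit 0) (p (nat_lit 0x8486850402) (nat_lit 0) (p (nat_lit 0x160004)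 (nat_lit 0) (p (nat_lit 0x50612) (nat_lit 0) (p (nat_lit 0x38592) (nat_lit 0) (p (nat_lit 0x40492) (nat_lit 0) (p (nat_lit 0x28412) (nat_lit 0) (p (nat_lit 0x30292) (nat_lit 0) (p (nat_lit 0x18212) (nat_lit 0) (p (nat_lit 0x20092) (nat_lit 0) (p (nat_lit 0x8012) (nat_lit 0) pn)))))))))))))))))))))))) :=
  Cl.node (nat_lit 0x109) (nat_lit 2) (by decide +kernel) (ClAll.succ (ClAll.succ ClAll.zero n49) n50)

def n74 : Cl (O (nat_lit 6)) (R (nat_lit 104577))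
    (p (nat_lit 0x101) (nat_lit 1) (p (nat_lit 0x119) (nat_lit 0) (p (nat_lit 0xc9) (nat_lit 0) (p (nat_lit 0x89) (nat_lit 1) (p (nat_lit 0x41) (nat_lit 0) (p (nat_lit 0x10a090b098a9a) (nat_lit 0) (p (nat_lit 0x89888a890a1a) (nat_lit 0) (p (nat_lit 0x109080a08879a) (nat_lit 0) (p (nat_lit 0x88878988071a) (nat_lit 0) (p (nat_lit 0x8000080000000080907888a) (nat_lit 0) (p (nat_lit 0x8000080000000078887060a) (nat_lit 0) (p (nat_lit 0x10608068782) (nat_lit 0) (p (nat_lit 0x8587860702) (nat_lit 0) (p (nat_lit 0x10507058482) (nat_lit 0) (p (nat_lit 0x8486850402) (nat_lit 0) (p (nat_lit 0x160004) (nat_lit 0) (p (nat_lit 0x50612) (nat_lit 0) (p (nat_lit 0x38592) (nat_lit 0) (p (nat_lit 0x40492) (nat_lit 0) (p (nat_lit 0x28412) (nat_lit 0) (p (nat_lit 0x30292) (nat_lit 0) (p (nat_lit 0x18212) (nat_lit 0) (p (nat_lit 0x20092) (nat_lit 0) (p (nat_lit 0x8012) (nat_lit 0) pn))))))))))))))))))))))))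 :=
  Cl.node (nat_lit 0xc1) (nat_lit 2) (by decide +kernel) (ClAll.succ (ClAll.succ ClAll.zero n51) s52)

def n75 : Cl (O (nat_lit 6)) (R (nat_lit 104577))
    (p (nat_lit 0xc1) (nat_lit 0) (p (nat_lit 0x119) (nat_lit 1) (p (nat_lit 0xc9) (nat_lit 0) (p (nat_lit 0x89) (nat_lit 1) (p (nat_lit 0x41) (nat_lit 0) (p (nat_lit 0x10a090b098a9a) (nat_lit 0) (p (nat_lit 0x89888a890a1a) (nat_lit 0) (p (nat_lit 0x109080a08879a) (nat_lit 0) (p (nat_lit 0x88878988071a) (nat_lit 0) (p (nat_lit 0x8000080000000080907888a) (nat_lit 0) (p (nat_lit 0x8000080000000078887060a) (nat_lit 0) (p (nat_lit 0x10608068782) (nat_lit 0) (p (nat_lit 0x8587860702) (nat_lit 0) (p (nat_lit 0x10507058482) (nat_lit 0) (p (nat_lit 0x8486850402) (nat_lit 0) (p (nat_lit 0x160004) (nat_lit 0) (p (nat_lit 0x50612) (nat_lit 0) (p (nat_lit 0x38592) (nat_lit 0) (p (nat_lit 0x40492) (nat_lit 0) (p (nat_lit 0x28412) (nat_lit 0) (p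 (nat_lit 0x30292) (nat_lit 0) (p (nat_lit 0x18212) (nat_lit 0) (p (nat_lit 0x20092) (nat_lit 0) (p (nat_lit 0x8012) (nat_lit 0) pn)))))))))))))))))))))))) :=
  Cl.node (nat_lit 0xd1) (nat_lit 2) (by decide +kernel) (ClAll.succ (ClAll.succ ClAll.zero s53) n52)

def n76 : Cl (O (nat_lit 6)) (R (nat_lit 104577))
    (p (nat_lit 0xc1) (nat_lit 1) (p (nat_lit 0x119) (nat_lit 1) (p (nat_lit 0xc9) (nat_lit 0) (p (nat_lit 0x89) (nat_lit 1) (p (nat_lit 0x41) (nat_lit 0) (p (nat_lit 0x10a090b098a9a) (nat_lit 0) (p (nat_lit 0x89888a890a1a) (nat_lit 0) (p (nat_lit 0x109080a08879a) (nat_lit 0) (p (nat_lit 0x88878988071a) (nat_lit 0) (p (nat_lit 0x8000080000000080907888a) (nat_lit 0) (p (nat_lit 0x8000080000000078887060a) (nat_lit 0) (p (nat_lit 0x10608068782) (nat_lit 0) (p (nat_lit 0x8587860702) (nat_lit 0) (p (nat_lit 0x10507058482) (nat_lit 0) (p (nat_lit 0x8486850402) (nat_lit 0) (p (nat_lit 0x160004)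 (nat_lit 0) (p (nat_lit 0x50612) (nat_lit 0) (p (nat_lit 0x38592) (nat_lit 0) (p (nat_lit 0x40492) (nat_lit 0) (p (nat_lit 0x28412) (nat_lit 0) (p (nat_lit 0x30292) (nat_lit 0) (p (nat_lit 0x18212) (nat_lit 0) (p (nat_lit 0x20092) (nat_lit 0) (p (nat_lit 0x8012) (nat_lit 0) pn)))))))))))))))))))))))) :=
  Cl.node (nat_lit 0x101) (nat_lit 2) (by decide +kernel) (ClAll.succ (ClAll.succ ClAll.zero n53) s61)

def n77 : Cl (O (nat_lit 6)) (R (nat_lit 104577))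
    (p (nat_lit 0x101) (nat_lit 0) (p (nat_lit 0x109) (nat_lit 0) (p (nat_lit 0xc9) (nat_lit 1) (p (nat_lit 0x89) (nat_lit 1) (p (nat_lit 0x41) (nat_lit 0) (p (nat_lit 0x10a090b098a9a) (nat_lit 0) (p (nat_lit 0x89888a890a1a) (nat_lit 0) (p (nat_lit 0x109080a08879a) (nat_lit 0) (p (nat_lit 0x88878988071a) (nat_lit 0) (p (nat_lit 0x8000080000000080907888a) (nat_lit 0) (p (nat_lit 0x8000080000000078887060a) (nat_lit 0) (p (nat_lit 0x10608068782) (nat_lit 0) (p (nat_lit 0x8587860702) (nat_lit 0) (p (nat_lit 0x10507058482) (nat_lit 0) (p (nat_lit 0x8486850402) (nat_lit 0) (p (nat_lit 0x160004) (nat_lit 0) (p (nat_lit 0x50612) (nat_lit 0) (p (nat_lit 0x38592) (nat_lit 0) (p (nat_lit 0x40492) (nat_lit 0) (p (nat_lit 0x28412) (nat_lit 0) (p (nat_lit 0x30292) (nat_lit 0) (p (nat_lit 0x18212) (nat_lit 0) (p (nat_lit 0x20092) (nat_lit 0) (p (nat_lit 0x8012) (nat_lit 0) pn))))))))))))))))))))))))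 :=
  Cl.node (nat_lit 0x111) (nat_lit 2) (by decide +kernel) (ClAll.succ (ClAll.succ ClAll.zero s62) s63)

def n78 : Cl (O (nat_lit 6)) (R (nat_lit 104577))
    (p (nat_lit 0x101) (nat_lit 0) (p (nat_lit 0x119) (nat_lit 0) (p (nat_lit 0xd1) (nat_lit 0) (p (nat_lit 0x81) (nat_lit 0) (p (nat_lit 0x41) (nat_lit 1) (p (nat_lit 0x10a090b098a9a) (nat_lit 0) (p (nat_lit 0x89888a890a1a) (nat_lit 0) (p (nat_lit 0x109080a08879a) (nat_lit 0) (p (nat_lit 0x88878988071a) (nat_lit 0) (p (nat_lit 0x8000080000000080907888a) (nat_lit 0) (p (nat_lit 0x8000080000000078887060a) (nat_lit 0) (p (nat_lit 0x10608068782) (nat_lit 0) (p (nat_lit 0x8587860702) (nat_lit 0) (p (nat_lit 0x10507058482) (nat_lit 0) (p (nat_lit 0x8486850402) (nat_lit 0) (p (nat_lit 0x160004) (nat_lit 0) (p (nat_lit 0x50612) (nat_lit 0) (p (nat_lit 0x38592) (nat_lit 0) (p (nat_lit 0x40492) (nat_lit 0) (p (nat_lit 0x28412) (nat_lit 0) (p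 (nat_lit 0x30292) (nat_lit 0) (p (nat_lit 0x18212) (nat_lit 0) (p (nat_lit 0x20092) (nat_lit 0) (p (nat_lit 0x8012) (nat_lit 0) pn)))))))))))))))))))))))) :=
  Cl.node (nat_lit 0x109) (nat_lit 2) (by decide +kernel) (ClAll.succ (ClAll.succ ClAll.zero s66) n54)

def n79 : Cl (O (nat_lit 6)) (R (nat_lit 104577))
    (p (nat_lit 0x101) (nat_lit 1) (p (nat_lit 0x119) (nat_lit 0) (p (nat_lit 0xd1) (nat_lit 0) (p (nat_lit 0x81) (nat_lit 0) (p (nat_lit 0x41) (nat_lit 1) (p (nat_lit 0x10a090b098a9a) (nat_lit 0) (p (nat_lit 0x89888a890a1a) (nat_lit 0) (p (nat_lit 0x109080a08879a) (nat_lit 0) (p (nat_lit 0x88878988071a) (nat_lit 0) (p (nat_lit 0x8000080000000080907888a) (nat_lit 0) (p (nat_lit 0x8000080000000078887060a) (nat_lit 0) (p (nat_lit 0x10608068782) (nat_lit 0) (p (nat_lit 0x8587860702) (nat_lit 0) (p (nat_lit 0x10507058482) (nat_lit 0) (p (nat_lit 0x8486850402) (nat_lit 0) (p (nat_lit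 0x160004) (nat_lit 0) (p (nat_lit 0x50612) (nat_lit 0) (p (nat_lit 0x38592) (nat_lit 0) (p (nat_lit 0x40492) (nat_lit 0) (p (nat_lit 0x28412) (nat_lit 0) (p (nat_lit 0x30292) (nat_lit 0) (p (nat_lit 0x18212) (nat_lit 0) (p (nat_lit 0x20092) (nat_lit 0) (p (nat_lit 0x8012) (nat_lit 0) pn)))))))))))))))))))))))) :=
  Cl.node (nat_lit 0xc1) (nat_lit 2) (by decide +kernel) (ClAll.succ (ClAll.succ ClAll.zero n55) n56)

def n80 : Cl (O (nat_lit 6)) (R (nat_lit 104577))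
    (p (nat_lit 0xc1) (nat_lit 0) (p (nat_lit 0x119) (nat_lit 1) (p (nat_lit 0xd1) (nat_lit 0) (p (nat_lit 0x81) (nat_lit 0) (p (nat_lit 0x41) (nat_lit 1) (p (nat_lit 0x10a090b098a9a) (nat_lit 0) (p (nat_lit 0x89888a890a1a) (nat_lit 0) (p (nat_lit 0x109080a08879a) (nat_lit 0) (p (nat_lit 0x88878988071a) (nat_lit 0) (p (nat_lit 0x8000080000000080907888a) (nat_lit 0) (p (nat_lit 0x8000080000000078887060a) (nat_lit 0) (p (nat_lit 0x10608068782) (nat_lit 0) (p (nat_lit 0x8587860702) (nat_lit 0) (p (nat_lit 0x10507058482) (nat_lit 0) (p (nat_lit 0x8486850402) (nat_lit 0) (p (nat_lit 0x160004) (nat_lit 0) (p (nat_lit 0x50612) (nat_lit 0) (p (nat_lit 0x38592) (nat_lit 0) (p (nat_lit 0x40492) (nat_lit 0) (p (nat_lit 0x28412) (nat_lit 0) (p (nat_lit 0x30292) (nat_lit 0) (p (nat_lit 0x18212) (nat_lit 0) (p (nat_lit 0x20092) (nat_lit 0) (p (nat_lit 0x8012) (nat_lit 0) pn)))))))))))))))))))))))) :=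
  Cl.node (nat_lit 0xc9) (nat_lit 2) (by decide +kernel) (ClAll.succ (ClAll.succ ClAll.zero s75) n57)

def n81 : Cl (O (nat_lit 6)) (R (nat_lit 104577))
    (p (nat_lit 0xc1) (nat_lit 1) (p (nat_lit 0x119) (nat_lit 1) (p (nat_lit 0xd1) (nat_lit 0) (p (nat_lit 0x81) (nat_lit 0) (p (nat_lit 0x41) (nat_lit 1) (p (nat_lit 0x10a090b098a9a) (nat_lit 0) (p (nat_lit 0x89888a890a1a) (nat_lit 0) (p (nat_lit 0x109080a08879a) (nat_lit 0) (p (nat_lit 0x88878988071a) (nat_lit 0) (p (nat_lit 0x8000080000000080907888a) (nat_lit 0) (p (nat_lit 0x8000080000000078887060a) (nat_lit 0) (p (nat_lit 0x10608068782) (nat_lit 0) (p (nat_lit 0x8587860702) (nat_lit 0) (p (nat_lit 0x10507058482) (nat_lit 0) (p (nat_lit 0x8486850402) (nat_lit 0) (p (nat_lit 0x160004) (nat_lit 0) (p (nat_lit 0x50612) (nat_lit 0) (p (nat_lit 0x38592) (nat_lit 0) (p (nat_lit 0x40492) (nat_lit 0) (p (nat_lit 0x28412) (nat_lit 0) (p (nat_lit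 0x30292) (nat_lit 0) (p (nat_lit 0x18212) (nat_lit 0) (p (nat_lit 0x20092) (nat_lit 0) (p (nat_lit 0x8012) (nat_lit 0) pn)))))))))))))))))))))))) :=
  Cl.node (nat_lit 0x101) (nat_lit 2) (by decide +kernel) (ClAll.succ (ClAll.succ ClAll.zero n58) n59)

def n82 : Cl (O (nat_lit 6)) (R (nat_lit 104577))
    (p (nat_lit 0x101) (nat_lit 0) (p (nat_lit 0x111) (nat_lit 0) (p (nat_lit 0xd1) (nat_lit 1) (p (nat_lit 0x81) (nat_lit 0) (p (nat_lit 0x41) (nat_lit 1) (p (nat_lit 0x10a090b098a9a) (nat_lit 0) (p (nat_lit 0x89888a890a1a) (nat_lit 0) (p (nat_lit 0x109080a08879a) (nat_lit 0) (p (nat_lit 0x88878988071a) (nat_lit 0) (p (nat_lit 0x8000080000000080907888a) (nat_lit 0) (p (nat_lit 0x8000080000000078887060a) (nat_lit 0) (p (nat_lit 0x10608068782) (nat_lit 0) (p (nat_lit 0x8587860702) (nat_lit 0) (p (nat_lit 0x10507058482) (nat_lit 0) (p (nat_lit 0x8486850402) (nat_lit 0) (p (nat_lit 0x160004)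 (nat_lit 0) (p (nat_lit 0x50612) (nat_lit 0) (p (nat_lit 0x38592) (nat_lit 0) (p (nat_lit 0x40492) (nat_lit 0) (p (nat_lit 0x28412) (nat_lit 0) (p (nat_lit 0x30292) (nat_lit 0) (p (nat_lit 0x18212) (nat_lit 0) (p (nat_lit 0x20092) (nat_lit 0) (p (nat_lit 0x8012) (nat_lit 0) pn)))))))))))))))))))))))) :=
  Cl.node (nat_lit 0x109) (nat_lit 2) (by decide +kernel) (ClAll.succ (ClAll.succ ClAll.zero s85) n60)

def n83 : Cl (O (nat_lit 6)) (R (nat_lit 104577))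
    (p (nat_lit 0x101) (nat_lit 1) (p (nat_lit 0x111) (nat_lit 0) (p (nat_lit 0xd1) (nat_lit 1) (p (nat_lit 0x81) (nat_lit 0) (p (nat_lit 0x41) (nat_lit 1) (p (nat_lit 0x10a090b098a9a) (nat_lit 0) (p (nat_lit 0x89888a890a1a) (nat_lit 0) (p (nat_lit 0x109080a08879a) (nat_lit 0) (p (nat_lit 0x88878988071a) (nat_lit 0) (p (nat_lit 0x8000080000000080907888a) (nat_lit 0) (p (nat_lit 0x8000080000000078887060a) (nat_lit 0) (p (nat_lit 0x10608068782) (nat_lit 0) (p (nat_lit 0x8587860702) (nat_lit 0) (p (nat_lit 0x10507058482) (nat_lit 0) (p (nat_lit 0x8486850402) (nat_lit 0) (p (nat_lit 0x160004) (nat_lit 0) (p (nat_lit 0x50612) (nat_lit 0) (p (nat_lit 0x38592) (nat_lit 0) (p (nat_lit 0x40492) (nat_lit 0) (p (nat_lit 0x28412) (nat_lit 0) (p (nat_lit 0x30292) (nat_lit 0) (p (nat_lit 0x18212) (nat_lit 0) (p (nat_lit 0x20092) (nat_lit 0) (p (nat_lit 0x8012) (nat_lit 0) pn))))))))))))))))))))))))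 :=
  Cl.node (nat_lit 0x89) (nat_lit 2) (by decide +kernel) (ClAll.succ (ClAll.succ ClAll.zero n61) n62)

def n84 : Cl (O (nat_lit 6)) (R (nat_lit 104577))
    (p (nat_lit 0x101) (nat_lit 0) (p (nat_lit 0x119) (nat_lit 0) (p (nat_lit 0xc1) (nat_lit 0) (p (nat_lit 0x81) (nat_lit 1) (p (nat_lit 0x41) (nat_lit 1) (p (nat_lit 0x10a090b098a9a) (nat_lit 0) (p (nat_lit 0x89888a890a1a) (nat_lit 0) (p (nat_lit 0x109080a08879a) (nat_lit 0) (p (nat_lit 0x88878988071a) (nat_lit 0) (p (nat_lit 0x8000080000000080907888a) (nat_lit 0) (p (nat_lit 0x8000080000000078887060a) (nat_lit 0) (p (nat_lit 0x10608068782) (nat_lit 0) (p (nat_lit 0x8587860702) (nat_lit 0) (p (nat_lit 0x10507058482) (nat_lit 0) (p (nat_lit 0x8486850402) (nat_lit 0) (p (nat_lit 0x160004) (nat_lit 0) (p (nat_lit 0x50612) (nat_lit 0) (p (nat_lit 0x38592) (nat_lit 0) (p (nat_lit 0x40492) (nat_lit 0) (p (nat_lit 0x28412) (nat_lit 0) (p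 (nat_lit 0x30292) (nat_lit 0) (p (nat_lit 0x18212) (nat_lit 0) (p (nat_lit 0x20092) (nat_lit 0) (p (nat_lit 0x8012) (nat_lit 0) pn)))))))))))))))))))))))) :=
  Cl.node (nat_lit 0x109) (nat_lit 2) (by decide +kernel) (ClAll.succ (ClAll.succ ClAll.zero n63) n64)

def n85 : Cl (O (nat_lit 6)) (R (nat_lit 104577))
    (p (nat_lit 0x101) (nat_lit 1) (p (nat_lit 0x119) (nat_lit 0) (p (nat_lit 0xc1) (nat_lit 0) (p (nat_lit 0x81) (nat_lit 1) (p (nat_lit 0x41) (nat_lit 1) (p (nat_lit 0x10a090b098a9a) (nat_lit 0) (p (nat_lit 0x89888a890a1a) (nat_lit 0) (p (nat_lit 0x109080a08879a) (nat_lit 0) (p (nat_lit 0x88878988071a) (nat_lit 0) (p (nat_lit 0x8000080000000080907888a) (nat_lit 0) (p (nat_lit 0x8000080000000078887060a) (nat_lit 0) (p (nat_lit 0x10608068782) (nat_lit 0) (p (nat_lit 0x8587860702) (nat_lit 0) (p (nat_lit 0x10507058482) (nat_lit 0) (p (nat_lit 0x8486850402) (nat_lit 0) (p (nat_lit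 0x160004) (nat_lit 0) (p (nat_lit 0x50612) (nat_lit 0) (p (nat_lit 0x38592) (nat_lit 0) (p (nat_lit 0x40492) (nat_lit 0) (p (nat_lit 0x28412) (nat_lit 0) (p (nat_lit 0x30292) (nat_lit 0) (p (nat_lit 0x18212) (nat_lit 0) (p (nat_lit 0x20092) (nat_lit 0) (p (nat_lit 0x8012) (nat_lit 0) pn)))))))))))))))))))))))) :=
  Cl.node (nat_lit 0xc9) (nat_lit 2) (by decide +kernel) (ClAll.succ (ClAll.succ ClAll.zero n65) s107)

def n86 : Cl (O (nat_lit 6)) (R (nat_lit 104577))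
    (p (nat_lit 0xc9) (nat_lit 0) (p (nat_lit 0x119) (nat_lit 1) (p (nat_lit 0xc1) (nat_lit 0) (p (nat_lit 0x81) (nat_lit 1) (p (nat_lit 0x41) (nat_lit 1) (p (nat_lit 0x10a090b098a9a) (nat_lit 0) (p (nat_lit 0x89888a890a1a) (nat_lit 0) (p (nat_lit 0x109080a08879a) (nat_lit 0) (p (nat_lit 0x88878988071a) (nat_lit 0) (p (nat_lit 0x8000080000000080907888a) (nat_lit 0) (p (nat_lit 0x8000080000000078887060a) (nat_lit 0) (p (nat_lit 0x10608068782) (nat_lit 0) (p (nat_lit 0x8587860702) (nat_lit 0) (p (nat_lit 0x10507058482) (nat_lit 0) (p (nat_lit 0x8486850402) (nat_lit 0) (p (nat_lit 0x160004) (nat_lit 0) (p (nat_lit 0x50612) (nat_lit 0) (p (nat_lit 0x38592) (nat_lit 0) (p (nat_lit 0x40492) (nat_lit 0) (p (nat_lit 0x28412) (nat_lit 0) (p (nat_lit 0x30292) (nat_lit 0) (p (nat_lit 0x18212) (nat_lit 0) (p (nat_lit 0x20092) (nat_lit 0) (p (nat_lit 0x8012) (nat_lit 0) pn)))))))))))))))))))))))) :=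
  Cl.node (nat_lit 0xd1) (nat_lit 2) (by decide +kernel) (ClAll.succ (ClAll.succ ClAll.zero s108) s109)

def n87 : Cl (O (nat_lit 6)) (R (nat_lit 104577))
    (p (nat_lit 0xc9) (nat_lit 1) (p (nat_lit 0x119) (nat_lit 1) (p (nat_lit 0xc1) (nat_lit 0) (p (nat_lit 0x81) (nat_lit 1) (p (nat_lit 0x41) (nat_lit 1) (p (nat_lit 0x10a090b098a9a) (nat_lit 0) (p (nat_lit 0x89888a890a1a) (nat_lit 0) (p (nat_lit 0x109080a08879a) (nat_lit 0) (p (nat_lit 0x88878988071a) (nat_lit 0) (p (nat_lit 0x8000080000000080907888a) (nat_lit 0) (p (nat_lit 0x8000080000000078887060a) (nat_lit 0) (p (nat_lit 0x10608068782) (nat_lit 0) (p (nat_lit 0x8587860702) (nat_lit 0) (p (nat_lit 0x10507058482) (nat_lit 0) (p (nat_lit 0x8486850402) (nat_lit 0) (p (nat_lit 0x160004) (nat_lit 0) (p (nat_lit 0x50612) (nat_lit 0) (p (nat_lit 0x38592) (nat_lit 0) (p (nat_lit 0x40492) (nat_lit 0) (p (nat_lit 0x28412) (nat_lit 0) (p (nat_lit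 0x30292) (nat_lit 0) (p (nat_lit 0x18212) (nat_lit 0) (p (nat_lit 0x20092) (nat_lit 0) (p (nat_lit 0x8012) (nat_lit 0) pn)))))))))))))))))))))))) :=
  Cl.node (nat_lit 0x109) (nat_lit 2) (by decide +kernel) (ClAll.succ (ClAll.succ ClAll.zero n66) s113)

def n88 : Cl (O (nat_lit 6)) (R (nat_lit 104577))
    (p (nat_lit 0x109) (nat_lit 0) (p (nat_lit 0x101) (nat_lit 0) (p (nat_lit 0xc1) (nat_lit 1) (p (nat_lit 0x81) (nat_lit 1) (p (nat_lit 0x41) (nat_lit 1) (p (nat_lit 0x10a090b098a9a) (nat_lit 0) (p (nat_lit 0x89888a890a1a) (nat_lit 0) (p (nat_lit 0x109080a08879a) (nat_lit 0) (p (nat_lit 0x88878988071a) (nat_lit 0) (p (nat_lit 0x8000080000000080907888a) (nat_lit 0) (p (nat_lit 0x8000080000000078887060a) (nat_lit 0) (p (nat_lit 0x10608068782) (nat_lit 0) (p (nat_lit 0x8587860702) (nat_lit 0) (p (nat_lit 0x10507058482) (nat_lit 0) (p (nat_lit 0x8486850402) (nat_lit 0) (p (nat_lit 0x160004)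 (nat_lit 0) (p (nat_lit 0x50612) (nat_lit 0) (p (nat_lit 0x38592) (nat_lit 0) (p (nat_lit 0x40492) (nat_lit 0) (p (nat_lit 0x28412) (nat_lit 0) (p (nat_lit 0x30292) (nat_lit 0) (p (nat_lit 0x18212) (nat_lit 0) (p (nat_lit 0x20092) (nat_lit 0) (p (nat_lit 0x8012) (nat_lit 0) pn)))))))))))))))))))))))) :=
  Cl.node (nat_lit 0x111) (nat_lit 2) (by decide +kernel) (ClAll.succ (ClAll.succ ClAll.zero s114) s115)

def n89 : Cl (O (nat_lit 6)) (R (nat_lit 104577))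
    (p (nat_lit 0x119) (nat_lit 0) (p (nat_lit 0xd1) (nat_lit 0) (p (nat_lit 0x89) (nat_lit 0) (p (nat_lit 0x41) (nat_lit 0) (p (nat_lit 0x10a090b098a9a) (nat_lit 0) (p (nat_lit 0x89888a890a1a) (nat_lit 0) (p (nat_lit 0x109080a08879a) (nat_lit 0) (p (nat_lit 0x88878988071a) (nat_lit 0) (p (nat_lit 0x8000080000000080907888a) (nat_lit 0) (p (nat_lit 0x8000080000000078887060a) (nat_lit 0) (p (nat_lit 0x10608068782) (nat_lit 0) (p (nat_lit 0x8587860702) (nat_lit 0) (p (nat_lit 0x10507058482) (nat_lit 0) (p (nat_lit 0x8486850402) (nat_lit 0) (p (nat_lit 0x160004) (nat_lit 0) (p (nat_lit 0x50612) (nat_lit 0) (p (nat_lit 0x38592) (nat_lit 0) (p (nat_lit 0x40492) (nat_lit 0) (p (nat_lit 0x28412) (nat_lit 0) (p (nat_lit 0x30292) (nat_lit 0) (p (nat_lit 0x18212) (nat_lit 0) (p (nat_lit 0x20092) (nat_lit 0) (p (nat_lit 0x8012) (nat_lit 0) pn))))))))))))))))))))))) :=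
  Cl.node (nat_lit 0x101) (nat_lit 2) (by decide +kernel) (ClAll.succ (ClAll.succ ClAll.zero n67) n68)

def n90 : Cl (O (nat_lit 6)) (R (nat_lit 104577))
    (p (nat_lit 0x119) (nat_lit 1) (p (nat_lit 0xd1) (nat_lit 0) (p (nat_lit 0x89) (nat_lit 0) (p (nat_lit 0x41) (nat_lit 0) (p (nat_lit 0x10a090b098a9a) (nat_lit 0) (p (nat_lit 0x89888a890a1a) (nat_lit 0) (p (nat_lit 0x109080a08879a) (nat_lit 0) (p (nat_lit 0x88878988071a) (nat_lit 0) (p (nat_lit 0x8000080000000080907888a) (nat_lit 0) (p (nat_lit 0x8000080000000078887060a) (nat_lit 0) (p (nat_lit 0x10608068782) (nat_lit 0) (p (nat_lit 0x8587860702) (nat_lit 0) (p (nat_lit 0x10507058482) (nat_lit 0) (p (nat_lit 0x8486850402) (nat_lit 0) (p (nat_lit 0x160004) (nat_lit 0) (p (nat_lit 0x50612) (nat_lit 0) (p (nat_lit 0x38592) (nat_lit 0) (p (nat_lit 0x40492) (nat_lit 0) (p (nat_lit 0x28412) (nat_lit 0) (p (nat_lit 0x30292) (nat_lit 0) (p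 (nat_lit 0x18212) (nat_lit 0) (p (nat_lit 0x20092) (nat_lit 0) (p (nat_lit 0x8012) (nat_lit 0) pn))))))))))))))))))))))) :=
  Cl.node (nat_lit 0xc1) (nat_lit 2) (by decide +kernel) (ClAll.succ (ClAll.succ ClAll.zero n69) n70)

def n91 : Cl (O (nat_lit 6)) (R (nat_lit 104577))
    (p (nat_lit 0x111) (nat_lit 0) (p (nat_lit 0xd1) (nat_lit 1) (p (nat_lit 0x89) (nat_lit 0) (p (nat_lit 0x41) (nat_lit 0) (p (nat_lit 0x10a090b098a9a) (nat_lit 0) (p (nat_lit 0x89888a890a1a) (nat_lit 0) (p (nat_lit 0x109080a08879a) (nat_lit 0) (p (nat_lit 0x88878988071a) (nat_lit 0) (p (nat_lit 0x8000080000000080907888a) (nat_lit 0) (p (nat_lit 0x8000080000000078887060a) (nat_lit 0) (p (nat_lit 0x10608068782) (nat_lit 0) (p (nat_lit 0x8587860702) (nat_lit 0) (p (nat_lit 0x10507058482) (nat_lit 0) (p (nat_lit 0x8486850402) (nat_lit 0) (p (nat_lit 0x160004) (nat_lit 0) (p (nat_lit 0x50612) (nat_lit 0) (p (nat_lit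 0x38592) (nat_lit 0) (p (nat_lit 0x40492) (nat_lit 0) (p (nat_lit 0x28412) (nat_lit 0) (p (nat_lit 0x30292) (nat_lit 0) (p (nat_lit 0x18212) (nat_lit 0) (p (nat_lit 0x20092) (nat_lit 0) (p (nat_lit 0x8012) (nat_lit 0) pn))))))))))))))))))))))) :=
  Cl.node (nat_lit 0x101) (nat_lit 2) (by decide +kernel) (ClAll.succ (ClAll.succ ClAll.zero n71) n72)

def n92 : Cl (O (nat_lit 6)) (R (nat_lit 104577))
    (p (nat_lit 0x111) (nat_lit 1) (p (nat_lit 0xd1) (nat_lit 1) (p (nat_lit 0x89) (nat_lit 0) (p (nat_lit 0x41) (nat_lit 0) (p (nat_lit 0x10a090b098a9a) (nat_lit 0) (p (nat_lit 0x89888a890a1a) (nat_lit 0) (p (nat_lit 0x109080a08879a) (nat_lit 0) (p (nat_lit 0x88878988071a) (nat_lit 0) (p (nat_lit 0x8000080000000080907888a) (nat_lit 0) (p (nat_lit 0x8000080000000078887060a) (nat_lit 0) (p (nat_lit 0x10608068782) (nat_lit 0) (p (nat_lit 0x8587860702) (nat_lit 0) (p (nat_lit 0x10507058482) (nat_lit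 0) (p (nat_lit 0x8486850402) (nat_lit 0) (p (nat_lit 0x160004) (nat_lit 0) (p (nat_lit 0x50612) (nat_lit 0) (p (nat_lit 0x38592) (nat_lit 0) (p (nat_lit 0x40492) (nat_lit 0) (p (nat_lit 0x28412) (nat_lit 0) (p (nat_lit 0x30292) (nat_lit 0) (p (nat_lit 0x18212) (nat_lit 0) (p (nat_lit 0x20092) (nat_lit 0) (p (nat_lit 0x8012) (nat_lit 0) pn))))))))))))))))))))))) :=
  Cl.node (nat_lit 0x81) (nat_lit 2) (by decide +kernel) (ClAll.succ (ClAll.succ ClAll.zero s36) s37)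

def n93 : Cl (O (nat_lit 6)) (R (nat_lit 104577))
    (p (nat_lit 0x119) (nat_lit 0) (p (nat_lit 0xc9) (nat_lit 0) (p (nat_lit 0x89) (nat_lit 1) (p (nat_lit 0x41) (nat_lit 0) (p (nat_lit 0x10a090b098a9a) (nat_lit 0) (p (nat_lit 0x89888a890a1a) (nat_lit 0) (p (nat_lit 0x109080a08879a) (nat_lit 0) (p (nat_lit 0x88878988071a) (nat_lit 0) (p (nat_lit 0x8000080000000080907888a) (nat_lit 0) (p (nat_lit 0x8000080000000078887060a) (nat_lit 0) (p (nat_lit 0x10608068782) (nat_lit 0) (p (nat_lit 0x8587860702) (nat_lit 0) (p (nat_lit 0x10507058482) (nat_lit 0) (p (nat_lit 0x8486850402) (nat_lit 0) (p (nat_lit 0x160004) (nat_lit 0) (p (nat_lit 0x50612) (nat_lit 0) (p (nat_lit 0x38592) (nat_lit 0) (p (nat_lit 0x40492) (nat_lit 0) (p (nat_lit 0x28412) (nat_lit 0) (p (nat_lit 0x30292) (nat_lit 0) (p (nat_lit 0x18212) (nat_lit 0) (p (nat_lit 0x20092) (nat_lit 0) (p (nat_lit 0x8012) (nat_lit 0) pn)))))))))))))))))))))))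 :=
  Cl.node (nat_lit 0x101) (nat_lit 2) (by decide +kernel) (ClAll.succ (ClAll.succ ClAll.zero n73) n74)

def n94 : Cl (O (nat_lit 6)) (R (nat_lit 104577))
    (p (nat_lit 0x119) (nat_lit 1) (p (nat_lit 0xc9) (nat_lit 0) (p (nat_lit 0x89) (nat_lit 1) (p (nat_lit 0x41) (nat_lit 0) (p (nat_lit 0x10a090b098a9a) (nat_lit 0) (p (nat_lit 0x89888a890a1a) (nat_lit 0) (p (nat_lit 0x109080a08879a) (nat_lit 0) (p (nat_lit 0x88878988071a) (nat_lit 0) (p (nat_lit 0x8000080000000080907888a) (nat_lit 0) (p (nat_lit 0x8000080000000078887060a) (nat_lit 0) (p (nat_lit 0x10608068782) (nat_lit 0) (p (nat_lit 0x8587860702) (nat_lit 0) (p (nat_lit 0x10507058482) (nat_lit 0) (p (nat_lit 0x8486850402) (nat_lit 0) (p (nat_lit 0x160004) (nat_lit 0) (p (nat_lit 0x50612) (nat_lit 0) (p (nat_lit 0x38592) (nat_lit 0) (p (nat_lit 0x40492) (nat_lit 0) (p (nat_lit 0x28412) (nat_lit 0) (p (nat_lit 0x30292) (nat_lit 0)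 (p (nat_lit 0x18212) (nat_lit 0) (p (nat_lit 0x20092) (nat_lit 0) (p (nat_lit 0x8012) (nat_lit 0) pn))))))))))))))))))))))) :=
  Cl.node (nat_lit 0xc1) (nat_lit 2) (by decide +kernel) (ClAll.succ (ClAll.succ ClAll.zero n75) n76)

def n95 : Cl (O (nat_lit 6)) (R (nat_lit 104577))
    (p (nat_lit 0x109) (nat_lit 0) (p (nat_lit 0xc9) (nat_lit 1) (p (nat_lit 0x89) (nat_lit 1) (p (nat_lit 0x41) (nat_lit 0) (p (nat_lit 0x10a090b098a9a) (nat_lit 0) (p (nat_lit 0x89888a890a1a) (nat_lit 0) (p (nat_lit 0x109080a08879a) (nat_lit 0) (p (nat_lit 0x88878988071a) (nat_lit 0) (p (nat_lit 0x8000080000000080907888a) (nat_lit 0) (p (nat_lit 0x8000080000000078887060a) (nat_lit 0) (p (nat_lit 0x10608068782) (nat_lit 0) (p (nat_lit 0x8587860702) (nat_lit 0) (p (nat_lit 0x10507058482) (nat_lit 0) (p (nat_lit 0x8486850402) (nat_lit 0) (p (nat_lit 0x160004) (nat_lit 0) (p (nat_lit 0x50612) (nat_lit 0) (p (nat_lit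 0x38592) (nat_lit 0) (p (nat_lit 0x40492) (nat_lit 0) (p (nat_lit 0x28412) (nat_lit 0) (p (nat_lit 0x30292) (nat_lit 0) (p (nat_lit 0x18212) (nat_lit 0) (p (nat_lit 0x20092) (nat_lit 0) (p (nat_lit 0x8012) (nat_lit 0) pn))))))))))))))))))))))) :=
  Cl.node (nat_lit 0x101) (nat_lit 2) (by decide +kernel) (ClAll.succ (ClAll.succ ClAll.zero n77) s64)

def n96 : Cl (O (nat_lit 6)) (R (nat_lit 104577))
    (p (nat_lit 0x119) (nat_lit 0) (p (nat_lit 0xd1) (nat_lit 0) (p (nat_lit 0x81) (nat_lit 0) (p (nat_lit 0x41) (nat_lit 1) (p (nat_lit 0x10a090b098a9a) (nat_lit 0) (p (nat_lit 0x89888a890a1a) (nat_lit 0) (p (nat_lit 0x109080a08879a) (nat_lit 0) (p (nat_lit 0x88878988071a) (nat_lit 0) (p (nat_lit 0x8000080000000080907888a) (nat_lit 0) (p (nat_lit 0x8000080000000078887060a) (nat_lit 0) (p (nat_lit 0x10608068782) (nat_lit 0) (p (nat_lit 0x8587860702) (nat_lit 0) (p (nat_lit 0x10507058482) (nat_lit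 0) (p (nat_lit 0x8486850402) (nat_lit 0) (p (nat_lit 0x160004) (nat_lit 0) (p (nat_lit 0x50612) (nat_lit 0) (p (nat_lit 0x38592) (nat_lit 0) (p (nat_lit 0x40492) (nat_lit 0) (p (nat_lit 0x28412) (nat_lit 0) (p (nat_lit 0x30292) (nat_lit 0) (p (nat_lit 0x18212) (nat_lit 0) (p (nat_lit 0x20092) (nat_lit 0) (p (nat_lit 0x8012) (nat_lit 0) pn))))))))))))))))))))))) :=
  Cl.node (nat_lit 0x101) (nat_lit 2) (by decide +kernel) (ClAll.succ (ClAll.succ ClAll.zero n78) n79)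

def n97 : Cl (O (nat_lit 6)) (R (nat_lit 104577))
    (p (nat_lit 0x119) (nat_lit 1) (p (nat_lit 0xd1) (nat_lit 0) (p (nat_lit 0x81) (nat_lit 0) (p (nat_lit 0x41) (nat_lit 1) (p (nat_lit 0x10a090b098a9a) (nat_lit 0) (p (nat_lit 0x89888a890a1a) (nat_lit 0) (p (nat_lit 0x109080a08879a) (nat_lit 0) (p (nat_lit 0x88878988071a) (nat_lit 0) (p (nat_lit 0x8000080000000080907888a) (nat_lit 0) (p (nat_lit 0x8000080000000078887060a) (nat_lit 0) (p (nat_lit 0x10608068782) (nat_lit 0) (p (nat_lit 0x8587860702) (nat_lit 0) (p (nat_lit 0x10507058482) (nat_lit 0) (p (nat_lit 0x8486850402) (nat_lit 0) (p (nat_lit 0x160004) (nat_lit 0) (p (nat_lit 0x50612) (nat_lit 0) (p (nat_lit 0x38592) (nat_lit 0) (p (nat_lit 0x40492) (nat_lit 0) (p (nat_lit 0x28412) (nat_lit 0) (p (nat_lit 0x30292) (nat_lit 0) (p (nat_lit 0x18212) (nat_lit 0) (p (nat_lit 0x20092) (nat_lit 0) (p (nat_lit 0x8012) (nat_lit 0) pn)))))))))))))))))))))))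 :=
  Cl.node (nat_lit 0xc1) (nat_lit 2) (by decide +kernel) (ClAll.succ (ClAll.succ ClAll.zero n80) n81)

def n98 : Cl (O (nat_lit 6)) (R (nat_lit 104577))
    (p (nat_lit 0x111) (nat_lit 0) (p (nat_lit 0xd1) (nat_lit 1) (p (nat_lit 0x81) (nat_lit 0) (p (nat_lit 0x41) (nat_lit 1) (p (nat_lit 0x10a090b098a9a) (nat_lit 0) (p (nat_lit 0x89888a890a1a) (nat_lit 0) (p (nat_lit 0x109080a08879a) (nat_lit 0) (p (nat_lit 0x88878988071a) (nat_lit 0) (p (nat_lit 0x8000080000000080907888a) (nat_lit 0) (p (nat_lit 0x8000080000000078887060a) (nat_lit 0) (p (nat_lit 0x10608068782) (nat_lit 0) (p (nat_lit 0x8587860702) (nat_lit 0) (p (nat_lit 0x10507058482) (nat_lit 0) (p (nat_lit 0x8486850402) (nat_lit 0) (p (nat_lit 0x160004) (nat_lit 0) (p (nat_lit 0x50612) (nat_lit 0) (p (nat_lit 0x38592) (nat_lit 0) (p (nat_lit 0x40492) (nat_lit 0) (p (nat_lit 0x28412) (nat_lit 0) (p (nat_lit 0x30292) (nat_lit 0)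 (p (nat_lit 0x18212) (nat_lit 0) (p (nat_lit 0x20092) (nat_lit 0) (p (nat_lit 0x8012) (nat_lit 0) pn))))))))))))))))))))))) :=
  Cl.node (nat_lit 0x101) (nat_lit 2) (by decide +kernel) (ClAll.succ (ClAll.succ ClAll.zero n82) n83)

def n99 : Cl (O (nat_lit 6)) (R (nat_lit 104577))
    (p (nat_lit 0x119) (nat_lit 0) (p (nat_lit 0xc1) (nat_lit 0) (p (nat_lit 0x81) (nat_lit 1) (p (nat_lit 0x41) (nat_lit 1) (p (nat_lit 0x10a090b098a9a) (nat_lit 0) (p (nat_lit 0x89888a890a1a) (nat_lit 0) (p (nat_lit 0x109080a08879a) (nat_lit 0) (p (nat_lit 0x88878988071a) (nat_lit 0) (p (nat_lit 0x8000080000000080907888a) (nat_lit 0) (p (nat_lit 0x8000080000000078887060a) (nat_lit 0) (p (nat_lit 0x10608068782) (nat_lit 0) (p (nat_lit 0x8587860702) (nat_lit 0) (p (nat_lit 0x10507058482) (nat_lit 0) (p (nat_lit 0x8486850402) (nat_lit 0) (p (nat_lit 0x160004) (nat_lit 0) (p (nat_lit 0x50612) (nat_lit 0) (p (nat_lit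 0x38592) (nat_lit 0) (p (nat_lit 0x40492) (nat_lit 0) (p (nat_lit 0x28412) (nat_lit 0) (p (nat_lit 0x30292) (nat_lit 0) (p (nat_lit 0x18212) (nat_lit 0) (p (nat_lit 0x20092) (nat_lit 0) (p (nat_lit 0x8012) (nat_lit 0) pn))))))))))))))))))))))) :=
  Cl.node (nat_lit 0x101) (nat_lit 2) (by decide +kernel) (ClAll.succ (ClAll.succ ClAll.zero n84) n85)

def n100 : Cl (O (nat_lit 6)) (R (nat_lit 104577))
    (p (nat_lit 0x119) (nat_lit 1) (p (nat_lit 0xc1) (nat_lit 0) (p (nat_lit 0x81) (nat_lit 1) (p (nat_lit 0x41) (nat_lit 1) (p (nat_lit 0x10a090b098a9a) (nat_lit 0) (p (nat_lit 0x89888a890a1a) (nat_lit 0) (p (nat_lit 0x109080a08879a) (nat_lit 0) (p (nat_lit 0x88878988071a) (nat_lit 0) (p (nat_lit 0x8000080000000080907888a) (nat_lit 0) (p (nat_lit 0x8000080000000078887060a) (nat_lit 0) (p (nat_lit 0x10608068782) (nat_lit 0) (p (nat_lit 0x8587860702) (nat_lit 0) (p (nat_lit 0x10507058482) (nat_lit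 0) (p (nat_lit 0x8486850402) (nat_lit 0) (p (nat_lit 0x160004) (nat_lit 0) (p (nat_lit 0x50612) (nat_lit 0) (p (nat_lit 0x38592) (nat_lit 0) (p (nat_lit 0x40492) (nat_lit 0) (p (nat_lit 0x28412) (nat_lit 0) (p (nat_lit 0x30292) (nat_lit 0) (p (nat_lit 0x18212) (nat_lit 0) (p (nat_lit 0x20092) (nat_lit 0) (p (nat_lit 0x8012) (nat_lit 0) pn))))))))))))))))))))))) :=
  Cl.node (nat_lit 0xc9) (nat_lit 2) (by decide +kernel) (ClAll.succ (ClAll.succ ClAll.zero n86) n87)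

def n101 : Cl (O (nat_lit 6)) (R (nat_lit 104577))
    (p (nat_lit 0x101) (nat_lit 0) (p (nat_lit 0xc1) (nat_lit 1) (p (nat_lit 0x81) (nat_lit 1) (p (nat_lit 0x41) (nat_lit 1) (p (nat_lit 0x10a090b098a9a) (nat_lit 0) (p (nat_lit 0x89888a890a1a) (nat_lit 0) (p (nat_lit 0x109080a08879a) (nat_lit 0) (p (nat_lit 0x88878988071a) (nat_lit 0) (p (nat_lit 0x8000080000000080907888a) (nat_lit 0) (p (nat_lit 0x8000080000000078887060a) (nat_lit 0) (p (nat_lit 0x10608068782) (nat_lit 0) (p (nat_lit 0x8587860702) (nat_lit 0) (p (nat_lit 0x10507058482) (nat_lit 0) (p (nat_lit 0x8486850402) (nat_lit 0) (p (nat_lit 0x160004) (nat_lit 0) (p (nat_lit 0x50612) (nat_lit 0) (p (nat_lit 0x38592) (nat_lit 0) (p (nat_lit 0x40492) (nat_lit 0) (p (nat_lit 0x28412) (nat_lit 0) (p (nat_lit 0x30292) (nat_lit 0) (p (nat_lit 0x18212) (nat_lit 0) (p (nat_lit 0x20092) (nat_lit 0) (p (nat_lit 0x8012) (nat_lit 0) pn)))))))))))))))))))))))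 :=
  Cl.node (nat_lit 0x109) (nat_lit 2) (by decide +kernel) (ClAll.succ (ClAll.succ ClAll.zero n88) s116)

def n102 : Cl (O (nat_lit 6)) (R (nat_lit 104577))
    (p (nat_lit 0xd1) (nat_lit 0) (p (nat_lit 0x89) (nat_lit 0) (p (nat_lit 0x41) (nat_lit 0) (p (nat_lit 0x10a090b098a9a) (nat_lit 0) (p (nat_lit 0x89888a890a1a) (nat_lit 0) (p (nat_lit 0x109080a08879a) (nat_lit 0) (p (nat_lit 0x88878988071a) (nat_lit 0) (p (nat_lit 0x8000080000000080907888a) (nat_lit 0) (p (nat_lit 0x8000080000000078887060a) (nat_lit 0) (p (nat_lit 0x10608068782) (nat_lit 0) (p (nat_lit 0x8587860702) (nat_lit 0) (p (nat_lit 0x10507058482) (nat_lit 0) (p (nat_lit 0x8486850402) (nat_lit 0) (p (nat_lit 0x160004) (nat_lit 0) (p (nat_lit 0x50612) (nat_lit 0) (p (nat_lit 0x38592) (nat_lit 0) (p (nat_lit 0x40492) (nat_lit 0) (p (nat_lit 0x28412) (nat_lit 0) (p (nat_lit 0x30292) (nat_lit 0) (p (nat_lit 0x18212) (nat_lit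 0) (p (nat_lit 0x20092) (nat_lit 0) (p (nat_lit 0x8012) (nat_lit 0) pn)))))))))))))))))))))) :=
  Cl.node (nat_lit 0x119) (nat_lit 2) (by decide +kernel) (ClAll.succ (ClAll.succ ClAll.zero n89) n90)

def n103 : Cl (O (nat_lit 6)) (R (nat_lit 104577))
    (p (nat_lit 0xd1) (nat_lit 1) (p (nat_lit 0x89) (nat_lit 0) (p (nat_lit 0x41) (nat_lit 0) (p (nat_lit 0x10a090b098a9a) (nat_lit 0) (p (nat_lit 0x89888a890a1a) (nat_lit 0) (p (nat_lit 0x109080a08879a) (nat_lit 0) (p (nat_lit 0x88878988071a) (nat_lit 0) (p (nat_lit 0x8000080000000080907888a) (nat_lit 0) (p (nat_lit 0x8000080000000078887060a) (nat_lit 0) (p (nat_lit 0x10608068782) (nat_lit 0) (p (nat_lit 0x8587860702) (nat_lit 0) (p (nat_lit 0x10507058482) (nat_lit 0) (p (nat_lit 0x8486850402) (nat_lit 0) (p (nat_lit 0x160004) (nat_lit 0) (p (nat_lit 0x50612) (nat_lit 0) (p (nat_lit 0x38592) (nat_lit 0) (p (nat_lit 0x40492) (nat_lit 0) (p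 (nat_lit 0x28412) (nat_lit 0) (p (nat_lit 0x30292) (nat_lit 0) (p (nat_lit 0x18212) (nat_lit 0) (p (nat_lit 0x20092) (nat_lit 0) (p (nat_lit 0x8012) (nat_lit 0) pn)))))))))))))))))))))) :=
  Cl.node (nat_lit 0x111) (nat_lit 2) (by decide +kernel) (ClAll.succ (ClAll.succ ClAll.zero n91) n92)

def n104 : Cl (O (nat_lit 6)) (R (nat_lit 104577))
    (p (nat_lit 0xc9) (nat_lit 0) (p (nat_lit 0x89) (nat_lit 1) (p (nat_lit 0x41) (nat_lit 0) (p (nat_lit 0x10a090b098a9a) (nat_lit 0) (p (nat_lit 0x89888a890a1a) (nat_lit 0) (p (nat_lit 0x109080a08879a) (nat_lit 0) (p (nat_lit 0x88878988071a) (nat_lit 0) (p (nat_lit 0x8000080000000080907888a) (nat_lit 0) (p (nat_lit 0x8000080000000078887060a) (nat_lit 0) (p (nat_lit 0x10608068782) (nat_lit 0) (p (nat_lit 0x8587860702) (nat_lit 0) (p (nat_lit 0x10507058482) (nat_lit 0) (p (nat_lit 0x8486850402) (nat_lit 0) (p (nat_lit 0x160004) (nat_lit 0) (p (nat_lit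 0x50612) (nat_lit 0) (p (nat_lit 0x38592) (nat_lit 0) (p (nat_lit 0x40492) (nat_lit 0) (p (nat_lit 0x28412) (nat_lit 0) (p (nat_lit 0x30292) (nat_lit 0) (p (nat_lit 0x18212) (nat_lit 0) (p (nat_lit 0x20092) (nat_lit 0) (p (nat_lit 0x8012) (nat_lit 0) pn)))))))))))))))))))))) :=
  Cl.node (nat_lit 0x119) (nat_lit 2) (by decide +kernel) (ClAll.succ (ClAll.succ ClAll.zero n93) n94)

def n105 : Cl (O (nat_lit 6)) (R (nat_lit 104577))
    (p (nat_lit 0xc9) (nat_lit 1) (p (nat_lit 0x89) (nat_lit 1) (p (nat_lit 0x41) (nat_lit 0) (p (nat_lit 0x10a090b098a9a) (nat_lit 0) (p (nat_lit 0x89888a890a1a) (nat_lit 0) (p (nat_lit 0x109080a08879a) (nat_lit 0) (p (nat_lit 0x88878988071a) (nat_lit 0) (p (nat_lit 0x8000080000000080907888a) (nat_lit 0) (p (nat_lit 0x8000080000000078887060a) (nat_lit 0) (p (nat_lit 0x10608068782) (nat_lit 0) (p (nat_lit 0x8587860702) (nat_lit 0) (p (nat_lit 0x10507058482) (nat_lit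 0) (p (nat_lit 0x8486850402) (nat_lit 0) (p (nat_lit 0x160004) (nat_lit 0) (p (nat_lit 0x50612) (nat_lit 0) (p (nat_lit 0x38592) (nat_lit 0) (p (nat_lit 0x40492) (nat_lit 0) (p (nat_lit 0x28412) (nat_lit 0) (p (nat_lit 0x30292) (nat_lit 0) (p (nat_lit 0x18212) (nat_lit 0) (p (nat_lit 0x20092) (nat_lit 0) (p (nat_lit 0x8012) (nat_lit 0) pn)))))))))))))))))))))) :=
  Cl.node (nat_lit 0x109) (nat_lit 2) (by decide +kernel) (ClAll.succ (ClAll.succ ClAll.zero n95) s65)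

def n106 : Cl (O (nat_lit 6)) (R (nat_lit 104577))
    (p (nat_lit 0xd1) (nat_lit 0) (p (nat_lit 0x81) (nat_lit 0) (p (nat_lit 0x41) (nat_lit 1) (p (nat_lit 0x10a090b098a9a) (nat_lit 0) (p (nat_lit 0x89888a890a1a) (nat_lit 0) (p (nat_lit 0x109080a08879a) (nat_lit 0) (p (nat_lit 0x88878988071a) (nat_lit 0) (p (nat_lit 0x8000080000000080907888a) (nat_lit 0) (p (nat_lit 0x8000080000000078887060a) (nat_lit 0) (p (nat_lit 0x10608068782) (nat_lit 0) (p (nat_lit 0x8587860702) (nat_lit 0) (p (nat_lit 0x10507058482) (nat_lit 0) (p (nat_lit 0x8486850402) (nat_lit 0) (p (nat_lit 0x160004) (nat_lit 0) (p (nat_lit 0x50612) (nat_lit 0) (p (nat_lit 0x38592) (nat_lit 0) (p (nat_lit 0x40492) (nat_lit 0) (p (nat_lit 0x28412) (nat_lit 0) (p (nat_lit 0x30292) (nat_lit 0) (p (nat_lit 0x18212) (nat_lit 0) (p (nat_lit 0x20092) (nat_lit 0) (p (nat_lit 0x8012) (nat_lit 0) pn)))))))))))))))))))))) :=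
  Cl.node (nat_lit 0x119) (nat_lit 2) (by decide +kernel) (ClAll.succ (ClAll.succ ClAll.zero n96) n97)

def n107 : Cl (O (nat_lit 6)) (R (nat_lit 104577))
    (p (nat_lit 0xd1) (nat_lit 1) (p (nat_lit 0x81) (nat_lit 0) (p (nat_lit 0x41) (nat_lit 1) (p (nat_lit 0x10a090b098a9a) (nat_lit 0) (p (nat_lit 0x89888a890a1a) (nat_lit 0) (p (nat_lit 0x109080a08879a) (nat_lit 0) (p (nat_lit 0x88878988071a) (nat_lit 0) (p (nat_lit 0x8000080000000080907888a) (nat_lit 0) (p (nat_lit 0x8000080000000078887060a) (nat_lit 0) (p (nat_lit 0x10608068782) (nat_lit 0) (p (nat_lit 0x8587860702) (nat_lit 0) (p (nat_lit 0x10507058482) (nat_lit 0) (p (nat_lit 0x8486850402) (nat_lit 0) (p (nat_lit 0x160004) (nat_lit 0) (p (nat_lit 0x50612) (nat_lit 0) (p (nat_lit 0x38592) (nat_lit 0) (p (nat_lit 0x40492) (nat_lit 0) (p (nat_lit 0x28412) (nat_lit 0) (p (nat_lit 0x30292) (nat_lit 0) (p (nat_lit 0x18212) (nat_lit 0)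 (p (nat_lit 0x20092) (nat_lit 0) (p (nat_lit 0x8012) (nat_lit 0) pn)))))))))))))))))))))) :=
  Cl.node (nat_lit 0x111) (nat_lit 2) (by decide +kernel) (ClAll.succ (ClAll.succ ClAll.zero n98) s95)

def n108 : Cl (O (nat_lit 6)) (R (nat_lit 104577))
    (p (nat_lit 0xc1) (nat_lit 0) (p (nat_lit 0x81) (nat_lit 1) (p (nat_lit 0x41) (nat_lit 1) (p (nat_lit 0x10a090b098a9a) (nat_lit 0) (p (nat_lit 0x89888a890a1a) (nat_lit 0) (p (nat_lit 0x109080a08879a) (nat_lit 0) (p (nat_lit 0x88878988071a) (nat_lit 0) (p (nat_lit 0x8000080000000080907888a) (nat_lit 0) (p (nat_lit 0x8000080000000078887060a) (nat_lit 0) (p (nat_lit 0x10608068782) (nat_lit 0) (p (nat_lit 0x8587860702) (nat_lit 0) (p (nat_lit 0x10507058482) (nat_lit 0) (p (nat_lit 0x8486850402) (nat_lit 0) (p (nat_lit 0x160004) (nat_lit 0) (p (nat_lit 0x50612) (nat_lit 0) (p (nat_lit 0x38592) (nat_lit 0) (p (nat_lit 0x40492) (nat_lit 0) (p (nat_lit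 0x28412) (nat_lit 0) (p (nat_lit 0x30292) (nat_lit 0) (p (nat_lit 0x18212) (nat_lit 0) (p (nat_lit 0x20092) (nat_lit 0) (p (nat_lit 0x8012) (nat_lit 0) pn)))))))))))))))))))))) :=
  Cl.node (nat_lit 0x119) (nat_lit 2) (by decide +kernel) (ClAll.succ (ClAll.succ ClAll.zero n99) n100)

def n109 : Cl (O (nat_lit 6)) (R (nat_lit 104577))
    (p (nat_lit 0xc1) (nat_lit 1) (p (nat_lit 0x81) (nat_lit 1) (p (nat_lit 0x41) (nat_lit 1) (p (nat_lit 0x10a090b098a9a) (nat_lit 0) (p (nat_lit 0x89888a890a1a) (nat_lit 0) (p (nat_lit 0x109080a08879a) (nat_lit 0) (p (nat_lit 0x88878988071a) (nat_lit 0) (p (nat_lit 0x8000080000000080907888a) (nat_lit 0) (p (nat_lit 0x8000080000000078887060a) (nat_lit 0) (p (nat_lit 0x10608068782) (nat_lit 0) (p (nat_lit 0x8587860702) (nat_lit 0) (p (nat_lit 0x10507058482) (nat_lit 0) (p (nat_lit 0x8486850402) (nat_lit 0) (p (nat_lit 0x160004) (nat_lit 0) (p (nat_lit 0x50612)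 (nat_lit 0) (p (nat_lit 0x38592) (nat_lit 0) (p (nat_lit 0x40492) (nat_lit 0) (p (nat_lit 0x28412) (nat_lit 0) (p (nat_lit 0x30292) (nat_lit 0) (p (nat_lit 0x18212) (nat_lit 0) (p (nat_lit 0x20092) (nat_lit 0) (p (nat_lit 0x8012) (nat_lit 0) pn)))))))))))))))))))))) :=
  Cl.node (nat_lit 0x101) (nat_lit 2) (by decide +kernel) (ClAll.succ (ClAll.succ ClAll.zero n101) s117)

def n110 : Cl (O (nat_lit 6)) (R (nat_lit 104577))
    (p (nat_lit 0x89) (nat_lit 0) (p (nat_lit 0x41) (nat_lit 0) (p (nat_lit 0x10a090b098a9a) (nat_lit 0) (p (nat_lit 0x89888a890a1a) (nat_lit 0) (p (nat_lit 0x109080a08879a) (nat_lit 0) (p (nat_lit 0x88878988071a) (nat_lit 0) (p (nat_lit 0x8000080000000080907888a) (nat_lit 0) (p (nat_lit 0x8000080000000078887060a) (nat_lit 0) (p (nat_lit 0x10608068782) (nat_lit 0) (p (nat_lit 0x8587860702) (nat_lit 0) (p (nat_lit 0x10507058482) (nat_lit 0) (p (nat_lit 0x8486850402) (nat_lit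 0) (p (nat_lit 0x160004) (nat_lit 0) (p (nat_lit 0x50612) (nat_lit 0) (p (nat_lit 0x38592) (nat_lit 0) (p (nat_lit 0x40492) (nat_lit 0) (p (nat_lit 0x28412) (nat_lit 0) (p (nat_lit 0x30292) (nat_lit 0) (p (nat_lit 0x18212) (nat_lit 0) (p (nat_lit 0x20092) (nat_lit 0) (p (nat_lit 0x8012) (nat_lit 0) pn))))))))))))))))))))) :=
  Cl.node (nat_lit 0xd1) (nat_lit 2) (by decide +kernel) (ClAll.succ (ClAll.succ ClAll.zero n102) n103)

def n111 : Cl (O (nat_lit 6)) (R (nat_lit 104577))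
    (p (nat_lit 0x89) (nat_lit 1) (p (nat_lit 0x41) (nat_lit 0) (p (nat_lit 0x10a090b098a9a) (nat_lit 0) (p (nat_lit 0x89888a890a1a) (nat_lit 0) (p (nat_lit 0x109080a08879a) (nat_lit 0) (p (nat_lit 0x88878988071a) (nat_lit 0) (p (nat_lit 0x8000080000000080907888a) (nat_lit 0) (p (nat_lit 0x8000080000000078887060a) (nat_lit 0) (p (nat_lit 0x10608068782) (nat_lit 0) (p (nat_lit 0x8587860702) (nat_lit 0) (p (nat_lit 0x10507058482) (nat_lit 0) (p (nat_lit 0x8486850402) (nat_lit 0) (p (nat_lit 0x160004) (nat_lit 0) (p (nat_lit 0x50612) (nat_lit 0) (p (nat_lit 0x38592) (nat_lit 0) (p (nat_lit 0x40492) (nat_lit 0) (p (nat_lit 0x28412) (nat_lit 0) (p (nat_lit 0x30292) (nat_lit 0) (p (nat_lit 0x18212) (nat_lit 0) (p (nat_lit 0x20092) (nat_lit 0) (p (nat_lit 0x8012) (nat_lit 0) pn))))))))))))))))))))) :=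
  Cl.node (nat_lit 0xc9) (nat_lit 2) (by decide +kernel) (ClAll.succ (ClAll.succ ClAll.zero n104) n105)

def n112 : Cl (O (nat_lit 6)) (R (nat_lit 104577))
    (p (nat_lit 0x81) (nat_lit 0) (p (nat_lit 0x41) (nat_lit 1) (p (nat_lit 0x10a090b098a9a) (nat_lit 0) (p (nat_lit 0x89888a890a1a) (nat_lit 0) (p (nat_lit 0x109080a08879a) (nat_lit 0) (p (nat_lit 0x88878988071a) (nat_lit 0) (p (nat_lit 0x8000080000000080907888a) (nat_lit 0) (p (nat_lit 0x8000080000000078887060a) (nat_lit 0) (p (nat_lit 0x10608068782) (nat_lit 0) (p (nat_lit 0x8587860702) (nat_lit 0) (p (nat_lit 0x10507058482) (nat_lit 0) (p (nat_lit 0x8486850402) (nat_lit 0) (p (nat_lit 0x160004) (nat_lit 0) (p (nat_lit 0x50612) (nat_lit 0) (p (nat_lit 0x38592) (nat_lit 0) (p (nat_lit 0x40492) (nat_lit 0) (p (nat_lit 0x28412) (nat_lit 0) (p (nat_lit 0x30292) (nat_lit 0) (p (nat_lit 0x18212) (nat_lit 0) (p (nat_lit 0x20092) (nat_lit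 0) (p (nat_lit 0x8012) (nat_lit 0) pn))))))))))))))))))))) :=
  Cl.node (nat_lit 0xd1) (nat_lit 2) (by decide +kernel) (ClAll.succ (ClAll.succ ClAll.zero n106) n107)

def n113 : Cl (O (nat_lit 6)) (R (nat_lit 104577))
    (p (nat_lit 0x81) (nat_lit 1) (p (nat_lit 0x41) (nat_lit 1) (p (nat_lit 0x10a090b098a9a) (nat_lit 0) (p (nat_lit 0x89888a890a1a) (nat_lit 0) (p (nat_lit 0x109080a08879a) (nat_lit 0) (p (nat_lit 0x88878988071a) (nat_lit 0) (p (nat_lit 0x8000080000000080907888a) (nat_lit 0) (p (nat_lit 0x8000080000000078887060a) (nat_lit 0) (p (nat_lit 0x10608068782) (nat_lit 0) (p (nat_lit 0x8587860702) (nat_lit 0) (p (nat_lit 0x10507058482) (nat_lit 0) (p (nat_lit 0x8486850402) (nat_lit 0) (p (nat_lit 0x160004) (nat_lit 0) (p (nat_lit 0x50612) (nat_lit 0) (p (nat_lit 0x38592) (nat_lit 0) (p (nat_lit 0x40492) (nat_lit 0) (p (nat_lit 0x28412) (nat_lit 0) (p (nat_lit 0x30292) (nat_lit 0)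 (p (nat_lit 0x18212) (nat_lit 0) (p (nat_lit 0x20092) (nat_lit 0) (p (nat_lit 0x8012) (nat_lit 0) pn))))))))))))))))))))) :=
  Cl.node (nat_lit 0xc1) (nat_lit 2) (by decide +kernel) (ClAll.succ (ClAll.succ ClAll.zero n108) n109)

def n114 : Cl (O (nat_lit 6)) (R (nat_lit 104577))
    (p (nat_lit 0x41) (nat_lit 0) (p (nat_lit 0x10a090b098a9a) (nat_lit 0) (p (nat_lit 0x89888a890a1a) (nat_lit 0) (p (nat_lit 0x109080a08879a) (nat_lit 0) (p (nat_lit 0x88878988071a) (nat_lit 0) (p (nat_lit 0x8000080000000080907888a) (nat_lit 0) (p (nat_lit 0x8000080000000078887060a) (nat_lit 0) (p (nat_lit 0x10608068782) (nat_lit 0) (p (nat_lit 0x8587860702) (nat_lit 0) (p (nat_lit 0x10507058482) (nat_lit 0) (p (nat_lit 0x8486850402) (nat_lit 0) (p (nat_lit 0x160004) (nat_lit 0) (p (nat_lit 0x50612) (nat_lit 0) (p (nat_lit 0x38592) (nat_lit 0) (p (nat_lit 0x40492) (nat_lit 0) (p (nat_lit 0x28412) (nat_lit 0)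 (p (nat_lit 0x30292) (nat_lit 0) (p (nat_lit 0x18212) (nat_lit 0) (p (nat_lit 0x20092) (nat_lit 0) (p (nat_lit 0x8012) (nat_lit 0) pn)))))))))))))))))))) :=
  Cl.node (nat_lit 0x89) (nat_lit 2) (by decide +kernel) (ClAll.succ (ClAll.succ ClAll.zero n110) n111)

def n115 : Cl (O (nat_lit 6)) (R (nat_lit 104577))
    (p (nat_lit 0x41) (nat_lit 1) (p (nat_lit 0x10a090b098a9a) (nat_lit 0) (p (nat_lit 0x89888a890a1a) (nat_lit 0) (p (nat_lit 0x109080a08879a) (nat_lit 0) (p (nat_lit 0x88878988071a) (nat_lit 0) (p (nat_lit 0x8000080000000080907888a) (nat_lit 0) (p (nat_lit 0x8000080000000078887060a) (nat_lit 0) (p (nat_lit 0x10608068782) (nat_lit 0) (p (nat_lit 0x8587860702) (nat_lit 0) (p (nat_lit 0x10507058482) (nat_lit 0) (p (nat_lit 0x8486850402) (nat_lit 0) (p (nat_lit 0x160004) (nat_lit 0) (p (nat_lit 0x50612) (nat_lit 0) (p (nat_lit 0x38592) (nat_lit 0) (p (nat_lit 0x40492) (nat_lit 0)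 (p (nat_lit 0x28412) (nat_lit 0) (p (nat_lit 0x30292) (nat_lit 0) (p (nat_lit 0x18212) (nat_lit 0) (p (nat_lit 0x20092) (nat_lit 0) (p (nat_lit 0x8012) (nat_lit 0) pn)))))))))))))))))))) :=
  Cl.node (nat_lit 0x81) (nat_lit 2) (by decide +kernel) (ClAll.succ (ClAll.succ ClAll.zero n112) n113)

def n116 : Cl (O (nat_lit 6)) (R (nat_lit 104577))
    (p (nat_lit 0x10a090b098a9a) (nat_lit 0) (p (nat_lit 0x89888a890a1a) (nat_lit 0) (p (nat_lit 0x109080a08879a) (nat_lit 0) (p (nat_lit 0x88878988071a) (nat_lit 0) (p (nat_lit 0x8000080000000080907888a) (nat_lit 0) (p (nat_lit 0x8000080000000078887060a) (nat_lit 0) (p (nat_lit 0x10608068782) (nat_lit 0) (p (nat_lit 0x8587860702) (nat_lit 0) (p (nat_lit 0x10507058482) (nat_lit 0) (p (nat_lit 0x8486850402) (nat_lit 0) (p (nat_lit 0x160004) (nat_lit 0) (p (nat_lit 0x50612) (nat_lit 0) (p (nat_lit 0x38592) (nat_lit 0) (p (nat_lit 0x40492) (nat_lit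 0) (p (nat_lit 0x28412) (nat_lit 0) (p (nat_lit 0x30292) (nat_lit 0) (p (nat_lit 0x18212) (nat_lit 0) (p (nat_lit 0x20092) (nat_lit 0) (p (nat_lit 0x8012) (nat_lit 0) pn))))))))))))))))))) :=
  Cl.node (nat_lit 0x41) (nat_lit 2) (by decide +kernel) (ClAll.succ (ClAll.succ ClAll.zero n114) n115)

def n117 : Cl (O (nat_lit 6)) (R (nat_lit 104577))
    (p (nat_lit 0x89888a890a1a) (nat_lit 0) (p (nat_lit 0x109080a08879a) (nat_lit 0) (p (nat_lit 0x88878988071a) (nat_lit 0) (p (nat_lit 0x8000080000000080907888a) (nat_lit 0) (p (nat_lit 0x8000080000000078887060a) (nat_lit 0) (p (nat_lit 0x10608068782) (nat_lit 0) (p (nat_lit 0x8587860702) (nat_lit 0) (p (nat_lit 0x10507058482) (nat_lit 0) (p (nat_lit 0x8486850402) (nat_lit 0) (p (nat_lit 0x160004) (nat_lit 0) (p (nat_lit 0x50612) (nat_lit 0) (p (nat_lit 0x38592) (nat_lit 0) (p (nat_lit 0x40492) (nat_lit 0) (p (nat_lit 0x28412) (nat_lit 0) (p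 (nat_lit 0x30292) (nat_lit 0) (p (nat_lit 0x18212) (nat_lit 0) (p (nat_lit 0x20092) (nat_lit 0) (p (nat_lit 0x8012) (nat_lit 0) pn)))))))))))))))))) :=
  Cl.node (nat_lit 0x10a090b098a9a) (nat_lit 1) (by decide +kernel) (ClAll.succ ClAll.zero n116)

def n118 : Cl (O (nat_lit 6)) (R (nat_lit 104577))
    (p (nat_lit 0x109080a08879a) (nat_lit 0) (p (nat_lit 0x88878988071a) (nat_lit 0) (p (nat_lit 0x8000080000000080907888a) (nat_lit 0) (p (nat_lit 0x8000080000000078887060a) (nat_lit 0) (p (nat_lit 0x10608068782) (nat_lit 0) (p (nat_lit 0x8587860702) (nat_lit 0) (p (nat_lit 0x10507058482) (nat_lit 0) (p (nat_lit 0x8486850402) (nat_lit 0) (p (nat_lit 0x160004) (nat_lit 0) (p (nat_lit 0x50612) (nat_lit 0) (p (nat_lit 0x38592) (nat_lit 0) (p (nat_lit 0x40492) (nat_lit 0) (p (nat_lit 0x28412) (nat_lit 0) (p (nat_lit 0x30292) (nat_lit 0) (p (nat_lit 0x18212) (nat_lit 0) (p (nat_lit 0x20092) (nat_lit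 0) (p (nat_lit 0x8012) (nat_lit 0) pn))))))))))))))))) :=
  Cl.node (nat_lit 0x89888a890a1a) (nat_lit 1) (by decide +kernel) (ClAll.succ ClAll.zero n117)

def n119 : Cl (O (nat_lit 6)) (R (nat_lit 104577))
    (p (nat_lit 0x88878988071a) (nat_lit 0) (p (nat_lit 0x8000080000000080907888a) (nat_lit 0) (p (nat_lit 0x8000080000000078887060a) (nat_lit 0) (p (nat_lit 0x10608068782) (nat_lit 0) (p (nat_lit 0x8587860702) (nat_lit 0) (p (nat_lit 0x10507058482) (nat_lit 0) (p (nat_lit 0x8486850402) (nat_lit 0) (p (nat_lit 0x160004) (nat_lit 0) (p (nat_lit 0x50612) (nat_lit 0) (p (nat_lit 0x38592) (nat_lit 0) (p (nat_lit 0x40492) (nat_lit 0) (p (nat_lit 0x28412) (nat_lit 0) (p (nat_lit 0x30292) (nat_lit 0) (p (nat_lit 0x18212) (nat_lit 0) (p (nat_lit 0x20092) (nat_lit 0) (p (nat_lit 0x8012) (nat_lit 0) pn)))))))))))))))) :=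
  Cl.node (nat_lit 0x109080a08879a) (nat_lit 1) (by decide +kernel) (ClAll.succ ClAll.zero n118)

def n120 : Cl (O (nat_lit 6)) (R (nat_lit 104577))
    (p (nat_lit 0x8000080000000080907888a) (nat_lit 0) (p (nat_lit 0x8000080000000078887060a) (nat_lit 0) (p (nat_lit 0x10608068782) (nat_lit 0) (p (nat_lit 0x8587860702) (nat_lit 0) (p (nat_lit 0x10507058482) (nat_lit 0) (p (nat_lit 0x8486850402) (nat_lit 0) (p (nat_lit 0x160004) (nat_lit 0) (p (nat_lit 0x50612) (nat_lit 0) (p (nat_lit 0x38592) (nat_lit 0) (p (nat_lit 0x40492) (nat_lit 0) (p (nat_lit 0x28412) (nat_lit 0) (p (nat_lit 0x30292) (nat_lit 0) (p (nat_lit 0x18212) (nat_lit 0) (p (nat_lit 0x20092) (nat_lit 0) (p (nat_lit 0x8012) (nat_lit 0) pn))))))))))))))) :=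
  Cl.node (nat_lit 0x88878988071a) (nat_lit 1) (by decide +kernel) (ClAll.succ ClAll.zero n119)

def n121 : Cl (O (nat_lit 6)) (R (nat_lit 104577))
    (p (nat_lit 0x8000080000000078887060a) (nat_lit 0) (p (nat_lit 0x10608068782) (nat_lit 0) (p (nat_lit 0x8587860702) (nat_lit 0) (p (nat_lit 0x10507058482) (nat_lit 0) (p (nat_lit 0x8486850402) (nat_lit 0) (p (nat_lit 0x160004) (nat_lit 0) (p (nat_lit 0x50612) (nat_lit 0) (p (nat_lit 0x38592) (nat_lit 0) (p (nat_lit 0x40492) (nat_lit 0) (p (nat_lit 0x28412) (nat_lit 0) (p (nat_lit 0x30292) (nat_lit 0) (p (nat_lit 0x18212) (nat_lit 0) (p (nat_lit 0x20092) (nat_lit 0) (p (nat_lit 0x8012) (nat_lit 0) pn)))))))))))))) :=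
  Cl.node (nat_lit 0x8000080000000080907888a) (nat_lit 1) (by decide +kernel) (ClAll.succ ClAll.zero n120)

def n122 : Cl (O (nat_lit 6)) (R (nat_lit 104577))
    (p (nat_lit 0x10608068782) (nat_lit 0) (p (nat_lit 0x8587860702) (nat_lit 0) (p (nat_lit 0x10507058482) (nat_lit 0) (p (nat_lit 0x8486850402) (nat_lit 0) (p (nat_lit 0x160004) (nat_lit 0) (p (nat_lit 0x50612) (nat_lit 0) (p (nat_lit 0x38592) (nat_lit 0) (p (nat_lit 0x40492) (nat_lit 0) (p (nat_lit 0x28412) (nat_lit 0) (p (nat_lit 0x30292) (nat_lit 0) (p (nat_lit 0x18212) (nat_lit 0) (p (nat_lit 0x20092) (nat_lit 0) (p (nat_lit 0x8012) (nat_lit 0) pn))))))))))))) :=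
  Cl.node (nat_lit 0x8000080000000078887060a) (nat_lit 1) (by decide +kernel) (ClAll.succ ClAll.zero n121)

def n123 : Cl (O (nat_lit 6)) (R (nat_lit 104577))
    (p (nat_lit 0x8587860702) (nat_lit 0) (p (nat_lit 0x10507058482) (nat_lit 0) (p (nat_lit 0x8486850402) (nat_lit 0) (p (nat_lit 0x160004) (nat_lit 0) (p (nat_lit 0x50612) (nat_lit 0) (p (nat_lit 0x38592) (nat_lit 0) (p (nat_lit 0x40492) (nat_lit 0) (p (nat_lit 0x28412) (nat_lit 0) (p (nat_lit 0x30292) (nat_lit 0) (p (nat_lit 0x18212) (nat_lit 0) (p (nat_lit 0x20092) (nat_lit 0) (p (nat_lit 0x8012) (nat_lit 0) pn)))))))))))) :=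
  Cl.node (nat_lit 0x10608068782) (nat_lit 1) (by decide +kernel) (ClAll.succ ClAll.zero n122)

def n124 : Cl (O (nat_lit 6)) (R (nat_lit 104577))
    (p (nat_lit 0x10507058482) (nat_lit 0) (p (nat_lit 0x8486850402) (nat_lit 0) (p (nat_lit 0x160004) (nat_lit 0) (p (nat_lit 0x50612) (nat_lit 0) (p (nat_lit 0x38592) (nat_lit 0) (p (nat_lit 0x40492) (nat_lit 0) (p (nat_lit 0x28412) (nat_lit 0) (p (nat_lit 0x30292) (nat_lit 0) (p (nat_lit 0x18212) (nat_lit 0) (p (nat_lit 0x20092) (nat_lit 0) (p (nat_lit 0x8012) (nat_lit 0) pn))))))))))) :=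
  Cl.node (nat_lit 0x8587860702) (nat_lit 1) (by decide +kernel) (ClAll.succ ClAll.zero n123)

def n125 : Cl (O (nat_lit 6)) (R (nat_lit 104577))
    (p (nat_lit 0x8486850402) (nat_lit 0) (p (nat_lit 0x160004) (nat_lit 0) (p (nat_lit 0x50612) (nat_lit 0) (p (nat_lit 0x38592) (nat_lit 0) (p (nat_lit 0x40492) (nat_lit 0) (p (nat_lit 0x28412) (nat_lit 0) (p (nat_lit 0x30292) (nat_lit 0) (p (nat_lit 0x18212) (nat_lit 0) (p (nat_lit 0x20092) (nat_lit 0) (p (nat_lit 0x8012) (nat_lit 0) pn)))))))))) :=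
  Cl.node (nat_lit 0x10507058482) (nat_lit 1) (by decide +kernel) (ClAll.succ ClAll.zero n124)

def n126 : Cl (O (nat_lit 6)) (R (nat_lit 104577))
    (p (nat_lit 0x160004) (nat_lit 0) (p (nat_lit 0x50612) (nat_lit 0) (p (nat_lit 0x38592) (nat_lit 0) (p (nat_lit 0x40492) (nat_lit 0) (p (nat_lit 0x28412) (nat_lit 0) (p (nat_lit 0x30292) (nat_lit 0) (p (nat_lit 0x18212) (nat_lit 0) (p (nat_lit 0x20092) (nat_lit 0) (p (nat_lit 0x8012) (nat_lit 0) pn))))))))) :=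
  Cl.node (nat_lit 0x8486850402) (nat_lit 1) (by decide +kernel) (ClAll.succ ClAll.zero n125)

def n127 : Cl (O (nat_lit 6)) (R (nat_lit 104577))
    (p (nat_lit 0x50612) (nat_lit 0) (p (nat_lit 0x38592) (nat_lit 0) (p (nat_lit 0x40492) (nat_lit 0) (p (nat_lit 0x28412) (nat_lit 0) (p (nat_lit 0x30292) (nat_lit 0) (p (nat_lit 0x18212) (nat_lit 0) (p (nat_lit 0x20092) (nat_lit 0) (p (nat_lit 0x8012) (nat_lit 0) pn)))))))) :=
  Cl.node (nat_lit 0x160004) (nat_lit 2) (by decide +kernel) (ClAll.succ (ClAll.succ ClAll.zero n126) s118)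

def n128 : Cl (O (nat_lit 6)) (R (nat_lit 104577))
    (p (nat_lit 0x38592) (nat_lit 0) (p (nat_lit 0x40492) (nat_lit 0) (p (nat_lit 0x28412) (nat_lit 0) (p (nat_lit 0x30292) (nat_lit 0) (p (nat_lit 0x18212) (nat_lit 0) (p (nat_lit 0x20092) (nat_lit 0) (p (nat_lit 0x8012) (nat_lit 0) pn))))))) :=
  Cl.node (nat_lit 0x50612) (nat_lit 1) (by decide +kernel) (ClAll.succ ClAll.zero n127)

def n129 : Cl (O (nat_lit 6)) (R (nat_lit 104577))
    (p (nat_lit 0x40492) (nat_lit 0) (p (nat_lit 0x28412) (nat_lit 0) (p (nat_lit 0x30292) (nat_lit 0) (p (nat_lit 0x18212) (nat_lit 0) (p (nat_lit 0x20092) (nat_lit 0) (p (nat_lit 0x8012) (nat_lit 0) pn)))))) :=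
  Cl.node (nat_lit 0x38592) (nat_lit 1) (by decide +kernel) (ClAll.succ ClAll.zero n128)

def n130 : Cl (O (nat_lit 6)) (R (nat_lit 104577))
    (p (nat_lit 0x28412) (nat_lit 0) (p (nat_lit 0x30292) (nat_lit 0) (p (nat_lit 0x18212) (nat_lit 0) (p (nat_lit 0x20092) (nat_lit 0) (p (nat_lit 0x8012) (nat_lit 0) pn))))) :=
  Cl.node (nat_lit 0x40492) (nat_lit 1) (by decide +kernel) (ClAll.succ ClAll.zero n129)

def n131 : Cl (O (nat_lit 6)) (R (nat_lit 104577))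
    (p (nat_lit 0x30292) (nat_lit 0) (p (nat_lit 0x18212) (nat_lit 0) (p (nat_lit 0x20092) (nat_lit 0) (p (nat_lit 0x8012) (nat_lit 0) pn)))) :=
  Cl.node (nat_lit 0x28412) (nat_lit 1) (by decide +kernel) (ClAll.succ ClAll.zero n130)

def n132 : Cl (O (nat_lit 6)) (R (nat_lit 104577))
    (p (nat_lit 0x18212) (nat_lit 0) (p (nat_lit 0x20092) (nat_lit 0) (p (nat_lit 0x8012) (nat_lit 0) pn))) :=
  Cl.node (nat_lit 0x30292) (nat_lit 1) (by decide +kernel) (ClAll.succ ClAll.zero n131)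

def n133 : Cl (O (nat_lit 6)) (R (nat_lit 104577))
    (p (nat_lit 0x20092) (nat_lit 0) (p (nat_lit 0x8012) (nat_lit 0) pn)) :=
  Cl.node (nat_lit 0x18212) (nat_lit 1) (by decide +kernel) (ClAll.succ ClAll.zero n132)

def n134 : Cl (O (nat_lit 6)) (R (nat_lit 104577))
    (p (nat_lit 0x8012) (nat_lit 0) pn) :=
  Cl.node (nat_lit 0x20092) (nat_lit 1) (by decide +kernel) (ClAll.succ ClAll.zero n133)

def n135 : Cl (O (nat_lit 6)) (R (nat_lit 104577))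
    pn :=
  Cl.node (nat_lit 0x8012) (nat_lit 1) (by decide +kernel) (ClAll.succ ClAll.zero n134)

theorem top : Cl (O (nat_lit 6)) (R (nat_lit 104577)) pn := n135

end Pool.Agent.Gen.F5.X1C2D13m6
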